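import Pool.Agent.Lib.MP_629a14_nt.Lx.Defs
import Pool.Agent.Lib.MP_629a14_nt.Sm.Cnt

/-! Classes of a set with almost all primes. -/

set_option autoImplicit false

namespace Pool.Agent.Lib.MP_629a14_nt.Lx

open Finset Filter Topology Pool.Agent.Lib.MP_629a14_nt Pool.Agent.Lib.MP_629a14_nt.Rob
  Pool.Agent.Lib.MP_629a14_nt.Sm

private theorem alpha_cntC_eq (m : ℕ) (A : Set ℕ) (x : ZMod m) (K : ℕ) (P : ℕ → Prop)
    [DecidablePred P] (hP : ∀ p : ℕ, P p ↔ p.Prime ∧ p ∈ A ∧ (p : ZMod m) = x) :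
    cntC m A x K = ((Icc 1 K).filter P).card := by
  classical
  unfold cntC
  refine congrArg Finset.card (Finset.ext fun p => ?_)
  rw [mem_filter, mem_filter, hP]

private theorem alpha_cntB_eq (A : Set ℕ) (K : ℕ) (P : ℕ → Prop)
    [DecidablePred P] (hP : ∀ p : ℕ, P p ↔ p.Prime ∧ p ∈ A) :
    cntB A K = ((Icc 1 K).filter P).card := by
  classical
  unfold cntB
  refine congrArg Finset.card (Finset.ext fun p => ?_)
  rw [mem_filter, mem_filter, hP]

/-- `pi_unif` for the finitely many classes, as in `cntC_le`. -/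
theorem cntC_univ (w : ℕ) (ε : ℝ) (hε : 0 < ε) : ∃ N₀ : ℕ, ∀ N : ℕ, N₀ ≤ N → ∀ K : ℕ, K ≤ N →
    ∀ x : ZMod (primorial w), IsUnit x →
      (K : ℝ) / (primorial w).totient - ε * N ≤
        Real.log N * (cntC (primorial w) Set.univ x K : ℝ) := by
  classical
  have hq : 1 ≤ primorial w := primorial_pos w
  have key : ∀ x : ZMod (primorial w), ∃ N₀ : ℕ, IsUnit x → ∀ N : ℕ, N₀ ≤ N → ∀ K : ℕ, K ≤ N →
      |Real.log N * (((Icc 1 K).filter (fun n => n.Prime ∧ n ≡ x.val [MOD primorial w])).card : ℝ) -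
        (K : ℝ) / (primorial w).totient| ≤ ε * N := by
    intro x
    by_cases hx : IsUnit x
    · have hc : Nat.Coprime x.val (primorial w) := by
        rw [← ZMod.isUnit_iff_coprime, ZMod.natCast_zmod_val]
        exact hx
      obtain ⟨N₀, hN₀⟩ := pi_unif (primorial w) x.val hq hc ε hε
      exact ⟨N₀, fun _ => hN₀⟩
    · exact ⟨0, fun h => absurd h hx⟩
  choose f hf using key
  refine ⟨univ.sup f, fun N hN K hK x hx => ?_⟩
  have h1 := hf x hx N ((le_sup (f := f) (mem_univ x)).trans hN) K hK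
  have h2 := (abs_le.1 h1).1
  have h3 : ((Icc 1 K).filter (fun n => n.Prime ∧ n ≡ x.val [MOD primorial w])).card ≤
      cntC (primorial w) Set.univ x K := by
    rw [alpha_cntC_eq (primorial w) Set.univ x K
      (fun p : ℕ => p.Prime ∧ p ∈ (Set.univ : Set ℕ) ∧ (p : ZMod (primorial w)) = x)
      (fun _ => Iff.rfl)]
    refine card_le_card fun p hp => ?_
    rw [mem_filter] at hp ⊢
    refine ⟨hp.1, hp.2.1, Set.mem_univ _, ?_⟩
    have h4 := (ZMod.natCast_eq_natCast_iff _ _ _).2 hp.2.2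
    rw [ZMod.natCast_zmod_val] at h4
    exact h4
  have h4 : Real.log N *
      (((Icc 1 K).filter (fun n => n.Prime ∧ n ≡ x.val [MOD primorial w])).card : ℝ) ≤
      Real.log N * (cntC (primorial w) Set.univ x K : ℝ) :=
    mul_le_mul_of_nonneg_left (by exact_mod_cast h3) (Real.log_natCast_nonneg N)
  linarith

theorem cntC_diff (m : ℕ) (A : Set ℕ) (x : ZMod m) (K N : ℕ) (h : K ≤ N) :
    cntC m Set.univ x K + cntB A N ≤ cntC m A x K + cntB Set.univ N := by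
  classical
  rw [alpha_cntC_eq m Set.univ x K
      (fun p : ℕ => p.Prime ∧ p ∈ (Set.univ : Set ℕ) ∧ (p : ZMod m) = x) (fun _ => Iff.rfl),
    alpha_cntC_eq m A x K (fun p : ℕ => p.Prime ∧ p ∈ A ∧ (p : ZMod m) = x) (fun _ => Iff.rfl),
    alpha_cntB_eq A N (fun p : ℕ => p.Prime ∧ p ∈ A) (fun _ => Iff.rfl),
    alpha_cntB_eq Set.univ N (fun p : ℕ => p.Prime ∧ p ∈ (Set.univ : Set ℕ)) (fun _ => Iff.rfl)]
  have h1 : ((Icc 1 K).filter
        (fun p : ℕ => p.Prime ∧ p ∈ (Set.univ : Set ℕ) ∧ (p : ZMod m) = x)).card ≤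
      ((Icc 1 K).filter (fun p : ℕ => p.Prime ∧ p ∈ A ∧ (p : ZMod m) = x)).card +
      ((Icc 1 N).filter (fun p : ℕ => p.Prime ∧ p ∉ A)).card := by
    refine (card_le_card fun p hp => ?_).trans (card_union_le _ _)
    rw [mem_filter, mem_Icc] at hp
    rw [mem_union, mem_filter, mem_filter, mem_Icc, mem_Icc]
    by_cases hA : p ∈ A
    · exact Or.inl ⟨hp.1, hp.2.1, hA, hp.2.2.2⟩
    · exact Or.inr ⟨⟨hp.1.1, hp.1.2.trans h⟩, hp.2.1, hA⟩
  have h2 : ((Icc 1 N).filter (fun p : ℕ => p.Prime ∧ p ∉ A)).card +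
      ((Icc 1 N).filter (fun p : ℕ => p.Prime ∧ p ∈ A)).card ≤
      ((Icc 1 N).filter (fun p : ℕ => p.Prime ∧ p ∈ (Set.univ : Set ℕ))).card := by
    rw [← card_union_of_disjoint]
    · refine card_le_card fun p hp => ?_
      rw [mem_union, mem_filter, mem_filter] at hp
      rw [mem_filter]
      rcases hp with hp | hp
      · exact ⟨hp.1, hp.2.1, Set.mem_univ _⟩
      · exact ⟨hp.1, hp.2.1, Set.mem_univ _⟩
    · rw [disjoint_left]
      intro p hp hp'
      rw [mem_filter] at hp hp'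
      exact hp.2.2 hp'.2.2
  omega

/-- `cntC_univ`, `cntC_diff`, `cnt_univ` (`log N cntB univ N ≤ 2 N`): with `K = N - ⌊δ N⌋ ≥ (1 - δ) N`,
`φ = φ(primorial w)`: `φ log N cntC A x K / N ≥ 1 - δ - φ ε' - 2 φ ρ`. -/
theorem alpha_ge (w : ℕ) (ε : ℝ) (hε : 0 < ε) (δ : ℝ) (hδ : 0 < δ) (hδε : δ ≤ ε / 4) (hδ1 : δ < 1) :
    ∃ ρ : ℝ, 0 < ρ ∧ ∃ N₀ : ℕ, ∀ N : ℕ, N₀ ≤ N → ∀ A : Set ℕ,
      1 - ρ ≤ (cntB A N : ℝ) / cntB Set.univ N → ∀ x : ZMod (primorial w), IsUnit x →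
      1 - ε ≤ ((primorial w).totient : ℝ) * Real.log N *
        cntC (primorial w) A x (N - ⌊δ * N⌋₊) / N := by
  obtain ⟨φ, hφ⟩ : ∃ φ : ℝ, φ = ((primorial w).totient : ℝ) := ⟨_, rfl⟩
  have hφ1 : 1 ≤ φ := by
    have := Nat.totient_pos.2 (primorial_pos w)
    rw [hφ]
    exact_mod_cast this
  have hφ0 : 0 < φ := by linarith
  obtain ⟨N₁, hN₁⟩ := cntC_univ w (ε / (4 * φ)) (by positivity)
  obtain ⟨N₂, hN₂⟩ := cnt_univ 1 one_pos
  refine ⟨ε / (8 * φ), by positivity, max (max N₁ N₂) 1, fun N hN A hA x hx => ?_⟩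
  have hNa : N₁ ≤ N := le_trans (le_trans (le_max_left _ _) (le_max_left _ _)) hN
  have hNb : N₂ ≤ N := le_trans (le_trans (le_max_right _ _) (le_max_left _ _)) hN
  have hNc : 1 ≤ N := le_trans (le_max_right _ _) hN
  have hN0 : (0 : ℝ) < N := by exact_mod_cast hNc
  have hlog : 0 ≤ Real.log N := Real.log_natCast_nonneg N
  obtain ⟨K, hK⟩ : ∃ K : ℕ, K = N - ⌊δ * N⌋₊ := ⟨_, rfl⟩
  have hKN : K ≤ N := by omega
  have hKr : (1 - δ) * N ≤ K := by
    have h1 : (⌊δ * N⌋₊ : ℝ) ≤ δ * N := Nat.floor_le (by positivity)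
    have h2 : N ≤ K + ⌊δ * N⌋₊ := by omega
    have h3 : (N : ℝ) ≤ K + ⌊δ * N⌋₊ := by exact_mod_cast h2
    linarith
  rw [← hK, ← hφ]
  have h1 := hN₁ N hNa K hKN x hx
  rw [← hφ] at h1
  have h2 := (abs_le.1 (hN₂ N hNb N le_rfl)).2
  have h3 : (cntC (primorial w) Set.univ x K : ℝ) + cntB A N ≤
      cntC (primorial w) A x K + cntB Set.univ N := by
    exact_mod_cast cntC_diff (primorial w) A x K N hKN
  have h4 : (cntB Set.univ N : ℝ) - cntB A N ≤ ε / (8 * φ) * cntB Set.univ N := by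
    rcases (Nat.cast_nonneg (α := ℝ) (cntB Set.univ N)).eq_or_lt with h | h
    · have h5 : (0 : ℝ) ≤ cntB A N := Nat.cast_nonneg _
      rw [← h]
      linarith
    · rw [le_div_iff₀ h] at hA
      linarith
  have h5 : Real.log N * ((cntB Set.univ N : ℝ) - cntB A N) ≤ ε / (8 * φ) * (2 * N) := by
    calc Real.log N * ((cntB Set.univ N : ℝ) - cntB A N)
        ≤ Real.log N * (ε / (8 * φ) * cntB Set.univ N) := mul_le_mul_of_nonneg_left h4 hlog
      _ = ε / (8 * φ) * (Real.log N * cntB Set.univ N) := by ring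
      _ ≤ ε / (8 * φ) * (2 * N) := by
          refine mul_le_mul_of_nonneg_left ?_ (by positivity)
          linarith
  have h6 : Real.log N * (cntC (primorial w) Set.univ x K : ℝ) -
      Real.log N * ((cntB Set.univ N : ℝ) - cntB A N) ≤
      Real.log N * (cntC (primorial w) A x K : ℝ) := by
    rw [← mul_sub]
    refine mul_le_mul_of_nonneg_left ?_ hlog
    linarith
  rw [le_div_iff₀ hN0]
  have h7 : (K : ℝ) / φ - ε / (4 * φ) * N - ε / (8 * φ) * (2 * N) ≤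
      Real.log N * (cntC (primorial w) A x K : ℝ) := by linarith
  have h8 : φ * ((K : ℝ) / φ - ε / (4 * φ) * N - ε / (8 * φ) * (2 * N)) =
      K - ε / 2 * N := by
    field_simp
    ring
  have h9 : φ * ((K : ℝ) / φ - ε / (4 * φ) * N - ε / (8 * φ) * (2 * N)) ≤
      φ * (Real.log N * (cntC (primorial w) A x K : ℝ)) :=
    mul_le_mul_of_nonneg_left h7 hφ0.le
  rw [h8] at h9
  have h10 : δ * N ≤ ε / 4 * N := mul_le_mul_of_nonneg_right hδε hN0.le
  have h11 : 0 ≤ ε * N := by positivity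
  rw [mul_assoc]
  linarith

end Pool.Agent.Lib.MP_629a14_nt.Lx
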