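import Pool.Agent.Lib.MP_629a14_nt.Lx.Defs
import Pool.Agent.Lib.MP_629a14_nt.Sm.Cnt

/-! The classes with many elements of `B`. -/

set_option autoImplicit false

namespace Pool.Agent.Lib.MP_629a14_nt.Lx

open Finset Filter Topology Pool.Agent.Lib.MP_629a14_nt Pool.Agent.Lib.MP_629a14_nt.Rob
  Pool.Agent.Lib.MP_629a14_nt.Sm

private theorem be_UM (m : ℕ) [NeZero m] : (UM m).card ≤ m.totient := by
  classical
  have h1 : UM m ⊆ Finset.image (fun u : (ZMod m)ˣ => (u : ZMod m)) Finset.univ := by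
    intro x hx
    have hx' : IsUnit x := by
      unfold UM at hx
      exact (mem_filter.1 hx).2
    exact mem_image.2 ⟨hx'.unit, mem_univ _, rfl⟩
  refine (card_le_card h1).trans (card_image_le.trans ?_)
  rw [card_univ, ZMod.card_units_eq_totient]

private theorem be_cntB_le (A : Set ℕ) (x : ℕ) : cntB A x ≤ cntB Set.univ x := by
  classical
  unfold cntB
  refine card_le_card fun p hp => ?_
  simp only [mem_filter] at hp ⊢
  exact ⟨hp.1, hp.2.1, Set.mem_univ _⟩

private theorem be_log (c : ℝ) (hc : 0 < c) (w : ℕ) : ∃ N₀ : ℕ, ∀ N : ℕ, N₀ ≤ N →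
    (w : ℝ) * Real.log N ≤ c * N := by
  have h1 := Real.isLittleO_log_id_atTop.def (c := c / (w + 1)) (by positivity)
  have h2 := (tendsto_natCast_atTop_atTop (R := ℝ)).eventually h1
  obtain ⟨N₀, h3⟩ := Filter.eventually_atTop.1 h2
  refine ⟨N₀, fun N hN => ?_⟩
  have h4 := h3 N hN
  simp only [id, Real.norm_eq_abs, Nat.abs_cast] at h4
  have h5 : Real.log N ≤ c / (w + 1) * N := (le_abs_self _).trans h4
  have h6 : (w : ℝ) * Real.log N ≤ w * (c / (w + 1) * N) :=
    mul_le_mul_of_nonneg_left h5 (Nat.cast_nonneg _)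
  refine h6.trans ?_
  have h7 : (w : ℝ) * (c / (w + 1)) ≤ c := by
    rw [mul_div_assoc', div_le_iff₀ (by positivity)]
    nlinarith
  calc (w : ℝ) * (c / (w + 1) * N) = (w * (c / (w + 1))) * N := by ring
    _ ≤ c * N := mul_le_mul_of_nonneg_right h7 (Nat.cast_nonneg _)

private theorem be_ratio (A : Set ℕ) (N : ℕ) :
    0 ≤ (cntB A N : ℝ) / cntB Set.univ N ∧ (cntB A N : ℝ) / cntB Set.univ N ≤ 1 ∧
      (cntB A N : ℝ) = (cntB A N : ℝ) / cntB Set.univ N * cntB Set.univ N := by
  have h1 := be_cntB_le A N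
  refine ⟨by positivity, div_le_one_of_le₀ (by exact_mod_cast h1) (Nat.cast_nonneg _), ?_⟩
  rcases Nat.eq_zero_or_pos (cntB Set.univ N) with h2 | h2
  · rw [h2] at h1 ⊢
    have h3 : cntB A N = 0 := by omega
    rw [h3]
    simp
  · have : (cntB Set.univ N : ℝ) ≠ 0 := by exact_mod_cast h2.ne'
    field_simp

/-- The class of `y` has at least the fraction `2 η` of its share. Let `S` be the set of these `y`.
`φ log N cntC B y K / (δ N) ≤ 1 + η` for `y ∈ S` (`cntC_le`), `< 2 η` otherwise, and the sum over all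
units is at least `(b - 3 η) φ` with `b = cntB B K / cntB univ K`, `K = ⌊δ N⌋` (`cntC_sum`, `cnt_univ`).
So `(1 + η) card S + 2 η φ ≥ (b - 3 η) φ` and `card S ≤ φ`. See `fo_B` in `Sm/FinOne.lean`. -/
theorem beta_card (w : ℕ) (η : ℝ) (hη : 0 < η) (hη1 : η ≤ 1) (δ : ℝ) (hδ : 0 < δ) (hδ1 : δ < 1) :
    ∃ N₀ : ℕ, ∀ N : ℕ, N₀ ≤ N → ∀ B : Set ℕ, ∃ S : Finset (ZMod (primorial w)),
      S ⊆ UM (primorial w) ∧
      (∀ y ∈ S, 2 * η * (δ * N) ≤ ((primorial w).totient : ℝ) * Real.log N *
        cntC (primorial w) B y ⌊δ * N⌋₊) ∧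
      ((cntB B ⌊δ * N⌋₊ : ℝ) / cntB Set.univ ⌊δ * N⌋₊ - 6 * η) * (primorial w).totient ≤ S.card := by
  classical
  have hφ : (0 : ℝ) < (primorial w).totient := by
    exact_mod_cast Nat.totient_pos.2 (primorial_pos w)
  set φ : ℝ := ((primorial w).totient : ℝ) with hφd
  obtain ⟨N₁, h1⟩ := cnt_univ (η * δ) (by positivity)
  obtain ⟨N₂, h2⟩ := be_log (η * δ) (by positivity) w
  obtain ⟨N₃, h3⟩ := cntC_le w (η * δ / φ) (by positivity)
  refine ⟨max (max 1 ⌈1 / (η * δ)⌉₊) (max N₁ (max N₂ N₃)), fun N hN B => ?_⟩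
  have hN0 : 1 ≤ N := (le_max_left _ _).trans ((le_max_left _ _).trans hN)
  have hNc : 1 / (η * δ) ≤ N := (Nat.le_ceil _).trans (by
    exact_mod_cast (le_max_right _ _).trans ((le_max_left _ _).trans hN))
  have hN1 : N₁ ≤ N := (le_max_left _ _).trans ((le_max_right _ _).trans hN)
  have hN2 : N₂ ≤ N := (le_max_left _ _).trans ((le_max_right _ _).trans ((le_max_right _ _).trans hN))
  have hN3 : N₃ ≤ N := (le_max_right _ _).trans ((le_max_right _ _).trans ((le_max_right _ _).trans hN))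
  have hNr : (0 : ℝ) < N := by exact_mod_cast hN0
  have hδN : 0 < δ * N := by positivity
  set K : ℕ := ⌊δ * N⌋₊ with hK
  have hKr : (K : ℝ) ≤ δ * N := Nat.floor_le (by positivity)
  have hKr' : δ * N < K + 1 := Nat.lt_floor_add_one _
  have hKN : K ≤ N := by
    have : (K : ℝ) ≤ N := hKr.trans (by nlinarith)
    exact_mod_cast this
  have hlog : 0 ≤ Real.log N := Real.log_natCast_nonneg N
  obtain ⟨ha0, ha1, hae⟩ := be_ratio B K
  generalize (cntB B K : ℝ) / cntB Set.univ K = b at ha0 ha1 hae ⊢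
  have e1 := abs_le.1 (h1 N hN1 K hKN)
  have e8 := h2 N hN2
  have e5 : Real.log N * cntB B K = b * (Real.log N * cntB Set.univ K) := by
    rw [hae]
    ring
  have e6 : b * (K - η * δ * N) ≤ b * (Real.log N * cntB Set.univ K) :=
    mul_le_mul_of_nonneg_left (by linarith [e1.1]) ha0
  have e7 : 1 ≤ η * δ * N := by
    have := mul_le_mul_of_nonneg_left hNc (by positivity : 0 ≤ η * δ)
    rwa [mul_one_div_cancel (by positivity)] at this
  have e9 : (b - 3 * η) * (δ * N) ≤ Real.log N * (cntB B K - w) := by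
    have e10 : b * (δ * N - η * δ * N - η * δ * N) ≤ b * (K - η * δ * N) :=
      mul_le_mul_of_nonneg_left (by linarith) ha0
    have e11 : b * (2 * (η * δ * N)) ≤ 2 * (η * δ * N) := by nlinarith
    nlinarith
  have e11 := mul_le_mul_of_nonneg_left (cntC_sum w B K) hlog
  obtain ⟨S, hS⟩ : ∃ S : Finset (ZMod (primorial w)), S = (UM (primorial w)).filter
    (fun y => 2 * η * (δ * N) ≤ φ * Real.log N * cntC (primorial w) B y K) := ⟨_, rfl⟩
  have hSsub : S ⊆ UM (primorial w) := by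
    rw [hS]
    exact filter_subset _ _
  refine ⟨S, hSsub, fun y hy => ?_, ?_⟩
  · rw [hS] at hy
    exact (mem_filter.1 hy).2
  have hpt : ∀ y ∈ UM (primorial w), φ * Real.log N * cntC (primorial w) B y K / (δ * N) ≤
      (if y ∈ S then 1 + η else 0) + 2 * η := by
    intro y hy
    have hyu : IsUnit y := by
      unfold UM at hy
      exact (mem_filter.1 hy).2
    have h4 := h3 N hN3 K hKN B y hyu
    have h5 : φ * Real.log N * cntC (primorial w) B y K / (δ * N) ≤ 1 + η := by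
      rw [div_le_iff₀ hδN]
      have h6 := mul_le_mul_of_nonneg_left h4 hφ.le
      have h7 : φ * ((K : ℝ) / φ + η * δ / φ * N) = K + η * δ * N := by
        field_simp
      have h8 : φ * ((K : ℝ) / ((primorial w).totient : ℝ) + η * δ / φ * N) =
        φ * ((K : ℝ) / φ + η * δ / φ * N) := by rw [hφd]
      rw [h8, h7] at h6
      nlinarith
    split_ifs with h6
    · linarith
    · have h7 : ¬ (2 * η * (δ * N) ≤ φ * Real.log N * cntC (primorial w) B y K) := by
        intro h8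
        exact h6 (by rw [hS]; exact mem_filter.2 ⟨hy, h8⟩)
      rw [zero_add, div_le_iff₀ hδN]
      exact (not_le.1 h7).le
  have e12 := sum_le_sum hpt
  have e13 : ∑ y ∈ UM (primorial w), (φ * Real.log N * cntC (primorial w) B y K / (δ * N)) =
      φ / (δ * N) * (Real.log N * ∑ y ∈ UM (primorial w), (cntC (primorial w) B y K : ℝ)) := by
    rw [mul_sum, mul_sum]
    refine sum_congr rfl fun x _ => ?_
    ring
  have hUM : ((UM (primorial w)).card : ℝ) ≤ φ := by
    rw [hφd]
    exact_mod_cast be_UM (primorial w)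
  have e17 : ∑ y ∈ UM (primorial w), ((if y ∈ S then 1 + η else 0) + 2 * η) =
      (S.card : ℝ) * (1 + η) + (UM (primorial w)).card * (2 * η) := by
    rw [sum_add_distrib, sum_const, nsmul_eq_mul, ← sum_filter, sum_const, nsmul_eq_mul]
    congr 4
    ext y
    rw [mem_filter]
    exact ⟨fun h => h.2, fun h => ⟨hSsub h, h⟩⟩
  have e15 : φ / (δ * N) * ((b - 3 * η) * (δ * N)) ≤
      φ / (δ * N) * (Real.log N * ∑ y ∈ UM (primorial w), (cntC (primorial w) B y K : ℝ)) :=
    mul_le_mul_of_nonneg_left (e9.trans e11) (by positivity)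
  have e16 : φ / (δ * N) * ((b - 3 * η) * (δ * N)) = φ * (b - 3 * η) := by
    field_simp
  have hScard : (S.card : ℝ) ≤ φ := by
    have : (S.card : ℝ) ≤ (UM (primorial w)).card := by exact_mod_cast card_le_card hSsub
    linarith
  rw [e13, e17] at e12
  nlinarith

end Pool.Agent.Lib.MP_629a14_nt.Lx
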