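import Pool.Agent.Lib.MP_629a14_nt.Lx.Crt

/-! The distribution of the digits modulo `mm n j`. -/

set_option autoImplicit false

namespace Pool.Agent.Lib.MP_629a14_nt.Lx

open Finset Filter Topology Pool.Agent.Lib.MP_629a14_nt Pool.Agent.Lib.MP_629a14_nt.Rob
  Pool.Agent.Lib.MP_629a14_nt.Sm

private theorem Cnt_xin_zero (j m : ℕ) : xin 0 j m = 0 := by simp [xin]

private theorem Cnt_split {α : Type} (S : Finset α) (A B C : α → Prop) [DecidablePred A]
    [DecidablePred B] [DecidablePred C] (h1 : ∀ x ∈ S, (A x ↔ B x ∨ C x))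
    (h2 : ∀ x ∈ S, ¬ (B x ∧ C x)) :
    (S.filter A).card = (S.filter B).card + (S.filter C).card := by
  classical
  rw [← card_union_of_disjoint]
  · congr 1
    ext x
    simp only [mem_union, mem_filter]
    constructor
    · rintro ⟨hx, hA⟩
      rcases (h1 x hx).1 hA with h | h
      · exact Or.inl ⟨hx, h⟩
      · exact Or.inr ⟨hx, h⟩
    · rintro (⟨hx, h⟩ | ⟨hx, h⟩)
      · exact ⟨hx, (h1 x hx).2 (Or.inl h)⟩
      · exact ⟨hx, (h1 x hx).2 (Or.inr h)⟩
  · rw [disjoint_left]
    intro x hx hx'
    rw [mem_filter] at hx hx'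
    exact h2 x hx.1 ⟨hx.2, hx'.2⟩

private theorem Cnt_ico_eq (j : ℕ) : ((Ico 1 (op j)).filter (fun m => m = 1)).card = 1 := by
  have h := op_three j
  have : (Ico 1 (op j)).filter (fun m => m = 1) = {1} := by
    ext m
    simp only [mem_filter, mem_Ico, mem_singleton]
    omega
  rw [this, card_singleton]

private theorem Cnt_ico_ne (j : ℕ) :
    (((Ico 1 (op j)).filter (fun m => ¬ m = 1)).card : ℝ) = (op j : ℝ) - 2 := by
  have h := op_three j
  have : (Ico 1 (op j)).filter (fun m => ¬ m = 1) = Ico 2 (op j) := by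
    ext m
    simp only [mem_filter, mem_Ico]
    omega
  rw [this, Nat.card_Ico, Nat.cast_sub (by omega)]
  norm_num

private theorem Cnt_range_eq (j : ℕ) : ((range (op j)).filter (fun m => m = 1)).card = 1 := by
  have h := op_three j
  have : (range (op j)).filter (fun m => m = 1) = {1} := by
    ext m
    simp only [mem_filter, mem_range, mem_singleton]
    omega
  rw [this, card_singleton]

private theorem Cnt_range_ne (j : ℕ) :
    (((range (op j)).filter (fun m => ¬ m = 1)).card : ℝ) = (op j : ℝ) - 1 := by
  have h := op_three j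
  have h1 := card_filter_add_card_filter_not (s := range (op j)) (fun m => m = 1)
  rw [Cnt_range_eq, card_range] at h1
  have h2 : ((range (op j)).filter (fun m => ¬ m = 1)).card = op j - 1 := by omega
  rw [h2, Nat.cast_sub (by omega)]
  norm_num

private theorem Cnt_card (n j : ℕ) :
    ((UM (mm (n + 1) j)).card : ℝ) = ((op j : ℝ) - 1) * (UM (mm n (j + 1))).card := by
  have h := op_three j
  have h1 := crt_units n j (fun _ => True) (fun _ => True)
  simp only [and_self, filter_true] at h1
  rw [Nat.card_Ico] at h1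
  rw [h1, Nat.cast_mul, Nat.cast_sub (by omega)]
  norm_num

/-- Induction on `n`. For `n = 0`: `UM 2 = {1}`, `xin 0 j y = 0`. Step: split the filter according to
`y.val % op j = 1` or not (`crt_units` with `P = (· = 1)`, `P = (· ≠ 1)`, `Q m = (s ≤ xin n (j+1) m)`,
`s = 2 t - 1`, `s = 2 t`; `xin_succ`, `xin_mod`); `1` and `op j - 2` elements of `Ico 1 (op j)`. -/
theorem cnt_F (n j : ℕ) (t : ℝ) :
    (((UM (mm n j)).filter (fun y => t ≤ xin n j y.val)).card : ℝ) =
      WW uF n j t * (UM (mm n j)).card := by
  classical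
  induction n generalizing j t with
  | zero =>
    simp only [Cnt_xin_zero, WW]
    split_ifs with h
    · simp [h]
    · simp [h]
  | succ n ih =>
    have h := op_three j
    have hs : ((UM (mm (n + 1) j)).filter (fun y => t ≤ xin (n + 1) j y.val)).card
        = ((UM (mm (n + 1) j)).filter (fun y => y.val % op j = 1 ∧
            2 * t - 1 ≤ xin n (j + 1) (y.val % mm n (j + 1)))).card
          + ((UM (mm (n + 1) j)).filter (fun y => (¬ y.val % op j = 1) ∧
            2 * t ≤ xin n (j + 1) (y.val % mm n (j + 1)))).card := by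
      apply Cnt_split
      · intro y _
        rw [xin_succ, xin_mod]
        by_cases hy : y.val % op j = 1
        · simp only [hy, if_true, true_and, not_true_eq_false, false_and, or_false]
          constructor <;> intro h' <;> linarith
        · simp only [hy, if_false, false_and, not_false_eq_true, true_and, false_or]
          constructor <;> intro h' <;> linarith
      · rintro y _ ⟨h1, h2⟩
        exact h2.1 h1.1
    have e1 := crt_units n j (fun m => m = 1) (fun m => 2 * t - 1 ≤ xin n (j + 1) m)
    have e2 := crt_units n j (fun m => ¬ m = 1) (fun m => 2 * t ≤ xin n (j + 1) m)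
    rw [hs, e1, e2, Cnt_ico_eq, one_mul, Nat.cast_add, Nat.cast_mul, Cnt_ico_ne, ih, ih, Cnt_card]
    have hop : (op j : ℝ) - 1 ≠ 0 := by
      have : (3 : ℝ) ≤ op j := by exact_mod_cast h
      linarith
    show _ = (uF j * WW uF n (j + 1) (2 * t - 1) + (1 - uF j) * WW uF n (j + 1) (2 * t)) * _
    unfold uF
    field_simp
    ring

/-- Induction on `n`. For `n = 0`: only `z = 0` is even, `xin 0 j z = 0 ≤ 1 - 1 - t`. Step:
`crt_all` as above, `Q m = (Even m ∧ xin n (j+1) m ≤ 1 - (1/2)^n - s)`, `s = 2 t` if
`y.val % op j = 1` and `s = 2 t - 1` otherwise; `1` and `op j - 1` elements. (`mm n (j+1)` is even, so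
the parity of `m % mm n (j+1)` is that of `m`.) -/
theorem cnt_G (n j : ℕ) (t : ℝ) :
    (((univ : Finset (ZMod (mm n j))).filter
      (fun z => Even z.val ∧ xin n j z.val ≤ 1 - (1 / 2) ^ n - t)).card : ℝ) =
      WW uG n j t * ((mm n j : ℝ) / 2) := by
  classical
  induction n generalizing j t with
  | zero =>
    have e : ((univ : Finset (ZMod (mm 0 j))).filter (fun z => Even z.val)).card = 1 := by
      change ((univ : Finset (ZMod 2)).filter (fun z => Even z.val)).card = 1
      decide
    have e2 : (mm 0 j : ℝ) = 2 := by norm_num [mm]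
    rw [e2]
    simp only [Cnt_xin_zero, WW]
    by_cases h : t ≤ 0
    · have e3 : ∀ z : ZMod (mm 0 j),
          (Even z.val ∧ (0 : ℝ) ≤ 1 - (1 / 2) ^ 0 - t) ↔ Even z.val := by
        intro z
        constructor
        · exact fun h' => h'.1
        · intro h'
          refine ⟨h', ?_⟩
          norm_num
          linarith
      simp only [e3]
      rw [e, if_pos h]
      norm_num
    · have e3 : ∀ z : ZMod (mm 0 j),
          (Even z.val ∧ (0 : ℝ) ≤ 1 - (1 / 2) ^ 0 - t) ↔ False := by
        intro z
        constructor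
        · rintro ⟨-, h'⟩
          apply h
          norm_num at h'
          linarith
        · exact False.elim
      simp only [e3]
      rw [if_neg h]
      simp
  | succ n ih =>
    have h := op_three j
    have hev : ∀ m : ℕ, Even (m % mm n (j + 1)) ↔ Even m := by
      intro m
      rw [Nat.even_iff, Nat.even_iff, Nat.mod_mod_of_dvd _ (two_dvd_mm n (j + 1))]
    have hpow : ((1 : ℝ) / 2) ^ (n + 1) = (1 / 2) ^ n / 2 := by rw [pow_succ]; ring
    have hs : ((univ : Finset (ZMod (mm (n + 1) j))).filter
          (fun z => Even z.val ∧ xin (n + 1) j z.val ≤ 1 - (1 / 2) ^ (n + 1) - t)).card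
        = ((univ : Finset (ZMod (mm (n + 1) j))).filter (fun y => y.val % op j = 1 ∧
            (Even (y.val % mm n (j + 1)) ∧
              xin n (j + 1) (y.val % mm n (j + 1)) ≤ 1 - (1 / 2) ^ n - 2 * t))).card
          + ((univ : Finset (ZMod (mm (n + 1) j))).filter (fun y => (¬ y.val % op j = 1) ∧
            (Even (y.val % mm n (j + 1)) ∧
              xin n (j + 1) (y.val % mm n (j + 1)) ≤ 1 - (1 / 2) ^ n - (2 * t - 1)))).card := by
      apply Cnt_split
      · intro y _
        rw [xin_succ, xin_mod, hev, hpow]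
        by_cases hy : y.val % op j = 1
        · simp only [hy, if_true, true_and, not_true_eq_false, false_and, or_false]
          constructor
          · rintro ⟨h1, h2⟩
            exact ⟨h1, by linarith⟩
          · rintro ⟨h1, h2⟩
            exact ⟨h1, by linarith⟩
        · simp only [hy, if_false, false_and, not_false_eq_true, true_and, false_or]
          constructor
          · rintro ⟨h1, h2⟩
            exact ⟨h1, by linarith⟩
          · rintro ⟨h1, h2⟩
            exact ⟨h1, by linarith⟩
      · rintro y _ ⟨h1, h2⟩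
        exact h2.1 h1.1
    have e1 := crt_all n j (fun m => m = 1)
      (fun m => Even m ∧ xin n (j + 1) m ≤ 1 - (1 / 2) ^ n - 2 * t)
    have e2 := crt_all n j (fun m => ¬ m = 1)
      (fun m => Even m ∧ xin n (j + 1) m ≤ 1 - (1 / 2) ^ n - (2 * t - 1))
    rw [hs, e1, e2, Cnt_range_eq, one_mul, Nat.cast_add, Nat.cast_mul, Cnt_range_ne, ih, ih]
    have hop : (op j : ℝ) ≠ 0 := by
      have : (3 : ℝ) ≤ op j := by exact_mod_cast h
      linarith
    have e3 : (mm (n + 1) j : ℝ) = op j * mm n (j + 1) := by
      show ((op j * mm n (j + 1) : ℕ) : ℝ) = _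
      push_cast
      ring
    rw [e3]
    show _ = (uG j * WW uG n (j + 1) (2 * t - 1) + (1 - uG j) * WW uG n (j + 1) (2 * t)) * _
    unfold uG
    field_simp
    ring

end Pool.Agent.Lib.MP_629a14_nt.Lx
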