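import Pool.Agent.Lib.MP_629a14_nt.Lx.Ops

/-! The function `xi`. -/

set_option autoImplicit false

namespace Pool.Agent.Lib.MP_629a14_nt.Lx

open Finset Filter Topology Pool.Agent.Lib.MP_629a14_nt Pool.Agent.Lib.MP_629a14_nt.Rob
  Pool.Agent.Lib.MP_629a14_nt.Sm

private theorem Xi_geo : Summable fun j : ℕ => (1 / 2 : ℝ) ^ (j + 1) :=
  (summable_nat_add_iff 1).2 (summable_geometric_of_lt_one (by norm_num) (by norm_num))

private theorem Xi_term_nonneg (P : Prop) [Decidable P] (j : ℕ) :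
    0 ≤ (if P then (1 / 2 : ℝ) ^ (j + 1) else 0) := by
  split_ifs
  · positivity
  · exact le_rfl

private theorem Xi_term_le (P : Prop) [Decidable P] (j : ℕ) :
    (if P then (1 / 2 : ℝ) ^ (j + 1) else 0) ≤ (1 / 2 : ℝ) ^ (j + 1) := by
  split_ifs
  · exact le_rfl
  · positivity

theorem xi_summable (m : ℕ) : Summable (fun j : ℕ => if m % op j = 1 then (1 / 2 : ℝ) ^ (j + 1) else 0) :=
  Summable.of_nonneg_of_le (fun j => Xi_term_nonneg _ j) (fun j => Xi_term_le _ j) Xi_geo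

theorem xi_nonneg (m : ℕ) : 0 ≤ xi m := tsum_nonneg fun j => Xi_term_nonneg _ j

private theorem Xi_xin (n m : ℕ) : xin n 0 m =
    ∑ i ∈ range n, if m % op i = 1 then (1 / 2 : ℝ) ^ (i + 1) else 0 := by
  unfold xin
  simp only [zero_add]

theorem xin_le_xi (n m : ℕ) : xin n 0 m ≤ xi m := by
  rw [Xi_xin]
  exact (xi_summable m).sum_le_tsum _ fun j _ => Xi_term_nonneg _ j

private theorem Xi_tail (n : ℕ) : ∑' i : ℕ, (1 / 2 : ℝ) ^ (i + n + 1) = (1 / 2) ^ n := by
  have h : (fun i : ℕ => (1 / 2 : ℝ) ^ (i + n + 1)) = fun i : ℕ => (1 / 2 : ℝ) ^ (n + 1) * (1 / 2) ^ i := by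
    funext i
    rw [← pow_add]
    congr 1
    omega
  rw [h, tsum_mul_left, tsum_geometric_of_lt_one (by norm_num) (by norm_num), pow_succ]
  norm_num
  ring

/-- The tail is at most `∑ j ≥ n, (1/2)^(j+1) = (1/2)^n`. -/
theorem xi_le_xin (n m : ℕ) : xi m ≤ xin n 0 m + (1 / 2) ^ n := by
  have h1 := (xi_summable m).sum_add_tsum_nat_add n
  have h2 : xi m = xin n 0 m +
      ∑' i : ℕ, if m % op (i + n) = 1 then (1 / 2 : ℝ) ^ (i + n + 1) else 0 := by
    rw [Xi_xin]
    exact h1.symm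
  rw [h2, ← Xi_tail n]
  have h3 : Summable fun i : ℕ => (1 / 2 : ℝ) ^ (i + n + 1) := (summable_nat_add_iff n).2 Xi_geo
  have h4 : Summable fun i : ℕ => if m % op (i + n) = 1 then (1 / 2 : ℝ) ^ (i + n + 1) else 0 :=
    (summable_nat_add_iff n).2 (xi_summable m)
  have h5 := h4.tsum_le_tsum (fun i => Xi_term_le (m % op (i + n) = 1) (i + n)) h3
  linarith

/-- `xin n 0 m` is a multiple of `(1/2)^n`, so `xin n 0 m ≤ 1 - t` if and only if ... is not needed;
only: if `xin n 0 m ≤ 1 - (1/2)^n - t` then `xi m ≤ 1 - t`. -/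
theorem xi_le_of (n m : ℕ) (t : ℝ) (h : xin n 0 m ≤ 1 - (1 / 2) ^ n - t) : xi m ≤ 1 - t := by
  have := xi_le_xin n m
  linarith

/-- For `op j ≠ p` not both `p + b ≡ 1` and `b ≡ 1` modulo `op j` (`p` would be divisible by `op j`).
The `j` with `op j = p` (if there is one) is at least `n₀`, so both sums together are at most
`∑ (1/2)^(j+1) + (1/2)^(n₀+1)`. -/
theorem xi_add (p b n₀ : ℕ) (hp : p.Prime) (h : ∀ j < n₀, op j ≠ p) :
    xi (p + b) + xi b ≤ 1 + (1 / 2) ^ (n₀ + 1) := by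
  have hle : ∀ j : ℕ, (if (p + b) % op j = 1 then (1 / 2 : ℝ) ^ (j + 1) else 0) +
      (if b % op j = 1 then (1 / 2 : ℝ) ^ (j + 1) else 0) ≤
      (1 / 2 : ℝ) ^ (j + 1) + (if op j = p then (1 / 2 : ℝ) ^ (j + 1) else 0) := by
    intro j
    by_cases hj : op j = p
    · rw [if_pos hj]
      exact add_le_add (Xi_term_le _ j) (Xi_term_le _ j)
    · rw [if_neg hj, add_zero]
      by_cases h1 : (p + b) % op j = 1
      · by_cases h2 : b % op j = 1
        · exfalso
          have h3 : op j ∣ p := by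
            have h4 : (p + b) % op j = b % op j := by rw [h1, h2]
            have h5 : (p + b) ≡ (0 + b) [MOD op j] := by
              rw [zero_add]
              exact h4
            exact (Nat.modEq_zero_iff_dvd).1 (Nat.ModEq.add_right_cancel' b h5)
          exact hj ((Nat.prime_dvd_prime_iff_eq (op_prime j) hp).1 h3)
        · rw [if_pos h1, if_neg h2, add_zero]
      · rw [if_neg h1, zero_add]
        exact Xi_term_le _ j
  have hsp : Summable fun j : ℕ => if op j = p then (1 / 2 : ℝ) ^ (j + 1) else 0 :=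
    Summable.of_nonneg_of_le (fun j => Xi_term_nonneg _ j) (fun j => Xi_term_le _ j) Xi_geo
  have h1 : xi (p + b) + xi b ≤ ∑' j : ℕ, ((1 / 2 : ℝ) ^ (j + 1) +
      (if op j = p then (1 / 2 : ℝ) ^ (j + 1) else 0)) := by
    unfold xi
    rw [← (xi_summable (p + b)).tsum_add (xi_summable b)]
    exact ((xi_summable (p + b)).add (xi_summable b)).tsum_le_tsum hle (Xi_geo.add hsp)
  rw [Xi_geo.tsum_add hsp] at h1
  have h2 : ∑' j : ℕ, (1 / 2 : ℝ) ^ (j + 1) = 1 := by
    have := Xi_tail 0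
    simpa using this
  have h3 : ∑' j : ℕ, (if op j = p then (1 / 2 : ℝ) ^ (j + 1) else 0) ≤ (1 / 2) ^ (n₀ + 1) := by
    by_cases hex : ∃ j, op j = p
    · obtain ⟨j0, hj0⟩ := hex
      rw [tsum_eq_single j0 fun j hj => if_neg fun hj2 => hj (op_inj (hj2.trans hj0.symm)), if_pos hj0]
      refine pow_le_pow_of_le_one (by norm_num) (by norm_num) ?_
      by_contra hc
      rw [not_le] at hc
      exact h j0 (by omega) hj0
    · have h4 : (fun j : ℕ => if op j = p then (1 / 2 : ℝ) ^ (j + 1) else 0) = fun _ => 0 := by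
        funext j
        exact if_neg fun hj => hex ⟨j, hj⟩
      rw [h4, tsum_zero]
      positivity
  rw [h2] at h1
  linarith

end Pool.Agent.Lib.MP_629a14_nt.Lx
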