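import Pool.Agent.Lib.MP_629a14_nt.Lx.Cnt
import Pool.Agent.Lib.MP_629a14_nt.Lx.Xi

/-! Densities of the sets `light t`. -/

set_option autoImplicit false

namespace Pool.Agent.Lib.MP_629a14_nt.Lx

open Finset Filter Topology Pool.Agent.Lib.MP_629a14_nt Pool.Agent.Lib.MP_629a14_nt.Rob
  Pool.Agent.Lib.MP_629a14_nt.Sm

private theorem DensG_frac (N : ℕ) (s : Finset ℕ) (hs : s ⊆ Icc 1 N) :
    0 ≤ (s.card : ℝ) / N ∧ (s.card : ℝ) / N ≤ 1 := by
  have h1 : s.card ≤ N := by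
    have := Finset.card_le_card hs
    simpa using this
  have h2 : (s.card : ℝ) ≤ N := by exact_mod_cast h1
  refine ⟨by positivity, div_le_one_of_le₀ h2 (Nat.cast_nonneg _)⟩

theorem dlow_mono (S T : Set ℕ) (h : ∀ n : ℕ, 1 ≤ n → n ∈ S → n ∈ T) : dlow S ≤ dlow T := by
  classical
  unfold dlow
  refine liminf_le_liminf (Eventually.of_forall fun N => ?_) ?_ ?_
  · refine div_le_div_of_nonneg_right ?_ (Nat.cast_nonneg _)
    have : ((Icc 1 N).filter (fun n : ℕ => n ∈ S)).card ≤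
        ((Icc 1 N).filter (fun n : ℕ => n ∈ T)).card := by
      refine Finset.card_le_card ?_
      intro n hn
      rw [Finset.mem_filter] at hn ⊢
      exact ⟨hn.1, h n (Finset.mem_Icc.mp hn.1).1 hn.2⟩
    exact_mod_cast this
  · exact isBoundedUnder_of ⟨0, fun N => (DensG_frac N _ (Finset.filter_subset _ _)).1⟩
  · refine IsBoundedUnder.isCoboundedUnder_ge ?_
    exact isBoundedUnder_of ⟨1, fun N => (DensG_frac N _ (Finset.filter_subset _ _)).2⟩

private theorem DensG_one (m : ℕ) [NeZero m] (r : ZMod m) (N : ℕ) :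
    |(((Icc 1 N).filter (fun n : ℕ => (n : ZMod m) = r)).card : ℝ) - (N : ℝ) / m| ≤ 1 := by
  have hm : 0 < m := Nat.pos_of_ne_zero (NeZero.ne m)
  have h0 : (Icc 1 N).filter (fun n : ℕ => (n : ZMod m) = r) =
      (Ioc 0 N).filter (fun n : ℕ => n ≡ r.val [MOD m]) := by
    ext n
    simp only [Finset.mem_filter, Finset.mem_Icc, Finset.mem_Ioc]
    have : (n : ZMod m) = r ↔ n ≡ r.val [MOD m] := by
      rw [← ZMod.natCast_eq_natCast_iff, ZMod.natCast_zmod_val]
    rw [this]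
    constructor
    · rintro ⟨⟨h1, h2⟩, h3⟩
      exact ⟨⟨by omega, h2⟩, h3⟩
    · rintro ⟨⟨h1, h2⟩, h3⟩
      exact ⟨⟨by omega, h2⟩, h3⟩
  have h1 := Nat.Ioc_filter_modEq_card 0 N hm r.val
  rw [h0]
  set c : ℕ := ((Ioc 0 N).filter (fun n : ℕ => n ≡ r.val [MOD m])).card with hc
  set A : ℤ := ⌊((N : ℚ) - (r.val : ℚ)) / (m : ℚ)⌋ with hA
  set B : ℤ := ⌊(((0 : ℕ) : ℚ) - (r.val : ℚ)) / (m : ℚ)⌋ with hB
  have hmq : (0 : ℚ) < m := by exact_mod_cast hm
  have a1 : (A : ℚ) ≤ ((N : ℚ) - (r.val : ℚ)) / (m : ℚ) := Int.floor_le _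
  have a2 : ((N : ℚ) - (r.val : ℚ)) / (m : ℚ) < A + 1 := Int.lt_floor_add_one _
  have b1 : (B : ℚ) ≤ (((0 : ℕ) : ℚ) - (r.val : ℚ)) / (m : ℚ) := Int.floor_le _
  have b2 : (((0 : ℕ) : ℚ) - (r.val : ℚ)) / (m : ℚ) < B + 1 := Int.lt_floor_add_one _
  have e1 : ((N : ℚ) - (r.val : ℚ)) / (m : ℚ) - (((0 : ℕ) : ℚ) - (r.val : ℚ)) / (m : ℚ) =
      (N : ℚ) / m := by
    rw [← sub_div]
    congr 1
    push_cast
    ring
  have hN : (0 : ℚ) ≤ (N : ℚ) / m := by positivity
  have hq : |(c : ℚ) - (N : ℚ) / m| ≤ 1 := by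
    have hcq : (c : ℚ) = ((max (A - B) 0 : ℤ) : ℚ) := by
      have : (c : ℤ) = max (A - B) 0 := h1
      rw [← this]
      simp
    rw [hcq, abs_le]
    rcases le_total (A - B) 0 with h | h
    · rw [max_eq_right h]
      have h' : ((A : ℚ) - B) ≤ 0 := by exact_mod_cast h
      push_cast
      constructor
      · linarith
      · linarith
    · rw [max_eq_left h]
      push_cast
      constructor
      · linarith
      · linarith
  have hr : ((|(c : ℚ) - (N : ℚ) / m| : ℚ) : ℝ) ≤ ((1 : ℚ) : ℝ) := by exact_mod_cast hq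
  push_cast at hr
  exact hr

open Classical in
/-- The natural density of a union of residue classes modulo `m`. -/
theorem dens_per (m : ℕ) [NeZero m] (R : Finset (ZMod m)) :
    Tendsto (fun N : ℕ => (((Icc 1 N).filter (fun n : ℕ => (n : ZMod m) ∈ R)).card : ℝ) / N) atTop
      (𝓝 ((R.card : ℝ) / m)) := by
  have hb : ∀ N : ℕ, |(((Icc 1 N).filter (fun n : ℕ => (n : ZMod m) ∈ R)).card : ℝ) -
      R.card * ((N : ℝ) / m)| ≤ R.card := by
    intro N
    have h1 : ((Icc 1 N).filter (fun n : ℕ => (n : ZMod m) ∈ R)).card =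
        ∑ r ∈ R, ((Icc 1 N).filter (fun n : ℕ => (n : ZMod m) = r)).card := by
      rw [Finset.card_eq_sum_card_fiberwise (f := fun n : ℕ => (n : ZMod m)) (t := R)]
      · refine Finset.sum_congr rfl (fun r hr => ?_)
        congr 1
        ext n
        simp only [Finset.mem_filter]
        constructor
        · rintro ⟨⟨h1, _⟩, h3⟩
          exact ⟨h1, h3⟩
        · rintro ⟨h1, h3⟩
          exact ⟨⟨h1, by rw [h3]; exact hr⟩, h3⟩
      · intro n hn
        simp only [Finset.coe_filter, Set.mem_ofPred_eq] at hn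
        exact hn.2
    rw [h1]
    push_cast
    have h2 : (R.card : ℝ) * ((N : ℝ) / m) = ∑ r ∈ R, ((N : ℝ) / m) := by
      rw [Finset.sum_const, nsmul_eq_mul]
    rw [h2, ← Finset.sum_sub_distrib]
    refine le_trans (Finset.abs_sum_le_sum_abs _ _) ?_
    refine le_trans (Finset.sum_le_sum (fun r _ => DensG_one m r N)) ?_
    simp
  have h0 : Tendsto (fun N : ℕ => (R.card : ℝ) / (N : ℝ)) atTop (𝓝 0) :=
    tendsto_const_div_atTop_nhds_zero_nat _
  have h3 : Tendsto (fun N : ℕ => (((Icc 1 N).filter (fun n : ℕ => (n : ZMod m) ∈ R)).card : ℝ) / N -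
      (R.card : ℝ) / m) atTop (𝓝 0) := by
    refine squeeze_zero_norm' ?_ h0
    filter_upwards [eventually_ge_atTop 1] with N hN
    have hN0 : (0 : ℝ) < N := by
      have : 0 < N := hN
      exact_mod_cast this
    have e : (((Icc 1 N).filter (fun n : ℕ => (n : ZMod m) ∈ R)).card : ℝ) / N - (R.card : ℝ) / m =
        ((((Icc 1 N).filter (fun n : ℕ => (n : ZMod m) ∈ R)).card : ℝ) -
          R.card * ((N : ℝ) / m)) / N := by
      field_simp
    rw [e, Real.norm_eq_abs, abs_div, abs_of_pos hN0]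
    exact div_le_div_of_nonneg_right (hb N) hN0.le
  have h4 := h3.add_const ((R.card : ℝ) / m)
  simpa using h4

open Classical in
/-- `dens_per`, `cnt_G`, `xin_mod`. -/
theorem dens_G (n : ℕ) (t : ℝ) :
    Tendsto (fun N : ℕ => (((Icc 1 N).filter (fun k : ℕ => Even k ∧
      xin n 0 k ≤ 1 - (1 / 2) ^ n - t)).card : ℝ) / N) atTop (𝓝 (WW uG n 0 t / 2)) := by
  set R : Finset (ZMod (mm n 0)) := (univ : Finset (ZMod (mm n 0))).filter
      (fun z => Even z.val ∧ xin n 0 z.val ≤ 1 - (1 / 2) ^ n - t) with hR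
  have h1 := dens_per (mm n 0) R
  have hM : (0 : ℝ) < mm n 0 := by exact_mod_cast mm_pos n 0
  have h2 : (R.card : ℝ) / (mm n 0 : ℝ) = WW uG n 0 t / 2 := by
    have h3 := cnt_G n 0 t
    have h4 : (R.card : ℝ) = WW uG n 0 t * ((mm n 0 : ℝ) / 2) := by
      rw [← h3, hR]
    rw [h4]
    field_simp
  rw [h2] at h1
  refine h1.congr (fun N => ?_)
  congr 2
  congr 1
  ext k
  simp only [Finset.mem_filter, hR, Finset.mem_univ, true_and]
  rw [ZMod.val_natCast, xin_mod]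
  have he : Even (k % mm n 0) ↔ Even k := by
    rw [Nat.even_iff, Nat.even_iff, Nat.mod_mod_of_dvd _ (two_dvd_mm n 0)]
  rw [he]

/-- `xi_le_of`, `dens_G`. -/
theorem light_low (n : ℕ) (t : ℝ) : WW uG n 0 t / 2 ≤ dlow (light t) := by
  classical
  have h1 := (dens_G n t).liminf_eq
  have h2 : dlow {k : ℕ | Even k ∧ xin n 0 k ≤ 1 - (1 / 2) ^ n - t} = WW uG n 0 t / 2 := by
    rw [← h1]
    unfold dlow
    congr 1
    ext N
    congr 2
    congr 1
    ext k
    simp only [Finset.mem_filter, Set.mem_ofPred_eq]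
  rw [← h2]
  refine dlow_mono _ _ (fun k _ hk => ?_)
  exact ⟨hk.1, xi_le_of n k t hk.2⟩

/-- `xin_le_xi`: `xin n 0 k ≤ 1 - t = 1 - (1/2)^n - (t - (1/2)^n)`. -/
theorem light_up (n : ℕ) (t : ℝ) : dlow (light t) ≤ WW uG n 0 (t - (1 / 2) ^ n) / 2 := by
  classical
  have h1 := (dens_G n (t - (1 / 2) ^ n)).liminf_eq
  have h2 : dlow {k : ℕ | Even k ∧ xin n 0 k ≤ 1 - (1 / 2) ^ n - (t - (1 / 2) ^ n)} =
      WW uG n 0 (t - (1 / 2) ^ n) / 2 := by
    rw [← h1]
    unfold dlow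
    congr 1
    ext N
    congr 2
    congr 1
    ext k
    simp only [Finset.mem_filter, Set.mem_ofPred_eq]
  rw [← h2]
  refine dlow_mono _ _ (fun k _ hk => ?_)
  refine ⟨hk.1, ?_⟩
  have := xin_le_xi n k
  have h3 := hk.2
  linarith

end Pool.Agent.Lib.MP_629a14_nt.Lx
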