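import Pool.Agent.Lib.MP_629a14_nt.Lx.HD

/-! The distribution functions. -/

set_option autoImplicit false

namespace Pool.Agent.Lib.MP_629a14_nt.Lx

open Finset Filter Topology Pool.Agent.Lib.MP_629a14_nt Pool.Agent.Lib.MP_629a14_nt.Rob
  Pool.Agent.Lib.MP_629a14_nt.Sm

private theorem WW_succ (u : ℕ → ℝ) (n j : ℕ) (t : ℝ) : WW u (n + 1) j t =
    u j * WW u n (j + 1) (2 * t - 1) + (1 - u j) * WW u n (j + 1) (2 * t) := rfl

theorem WW_range (u : ℕ → ℝ) (hu : ∀ j, 0 ≤ u j ∧ u j ≤ 1) (n j : ℕ) (t : ℝ) :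
    0 ≤ WW u n j t ∧ WW u n j t ≤ 1 := by
  induction n generalizing j t with
  | zero =>
    simp only [WW]
    split_ifs <;> norm_num
  | succ n ih =>
    rw [WW_succ]
    have h1 := ih (j + 1) (2 * t - 1)
    have h2 := ih (j + 1) (2 * t)
    have h3 := hu j
    constructor
    · have := mul_nonneg h3.1 h1.1
      have := mul_nonneg (sub_nonneg.2 h3.2) h2.1
      linarith
    · have := mul_le_mul_of_nonneg_left h1.2 h3.1
      have := mul_le_mul_of_nonneg_left h2.2 (sub_nonneg.2 h3.2)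
      linarith

theorem WW_left (u : ℕ → ℝ) (n j : ℕ) (t : ℝ) (ht : t ≤ 0) : WW u n j t = 1 := by
  induction n generalizing j t with
  | zero => simp [WW, ht]
  | succ n ih =>
    rw [WW_succ, ih (j + 1) (2 * t - 1) (by linarith), ih (j + 1) (2 * t) (by linarith)]
    ring

theorem WW_right (u : ℕ → ℝ) (n j : ℕ) (t : ℝ) (ht : 1 ≤ t) : WW u n j t = 0 := by
  induction n generalizing j t with
  | zero =>
    simp only [WW]
    rw [if_neg (by linarith)]
  | succ n ih =>
    rw [WW_succ, ih (j + 1) (2 * t - 1) (by linarith), ih (j + 1) (2 * t) (by linarith)]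
    ring

theorem WW_anti (u : ℕ → ℝ) (hu : ∀ j, 0 ≤ u j ∧ u j ≤ 1) (n j : ℕ) (s t : ℝ) (h : s ≤ t) :
    WW u n j t ≤ WW u n j s := by
  induction n generalizing j s t with
  | zero =>
    simp only [WW]
    split_ifs <;> first | (exfalso; linarith) | norm_num
  | succ n ih =>
    rw [WW_succ, WW_succ]
    have h1 := mul_le_mul_of_nonneg_left (ih (j + 1) (2 * s - 1) (2 * t - 1) (by linarith)) (hu j).1
    have h2 := mul_le_mul_of_nonneg_left (ih (j + 1) (2 * s) (2 * t) (by linarith))
      (sub_nonneg.2 (hu j).2)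
    linarith

private theorem WW_zero_of_gt (u : ℕ → ℝ) (n j : ℕ) (s : ℝ) (hs : 1 - (1 / 2 : ℝ) ^ n < s) :
    WW u n j s = 0 := by
  induction n generalizing j s with
  | zero =>
    simp only [WW]
    rw [if_neg]
    simp only [pow_zero] at hs
    linarith
  | succ n ih =>
    have hp : (0 : ℝ) < (1 / 2) ^ n := by positivity
    rw [pow_succ] at hs
    rw [WW_succ, ih (j + 1) (2 * s - 1) (by linarith), ih (j + 1) (2 * s) (by linarith)]
    ring

private theorem WW_gap_zero (u : ℕ → ℝ) (n j : ℕ) (s : ℝ) (hs : s ≤ 0 ∨ 1 < s) :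
    WW u n j (s - (1 / 2) ^ n) - WW u n j s = 0 := by
  have hp : (0 : ℝ) < (1 / 2) ^ n := by positivity
  rcases hs with hs | hs
  · rw [WW_left u n j s hs, WW_left u n j _ (by linarith), sub_self]
  · rw [WW_zero_of_gt u n j s (by linarith), WW_zero_of_gt u n j _ (by linarith), sub_self]

/-- First: `WW u n j s = 0` for `1 - (1/2)^n < s` (induction on `n`). So with
`D s = WW u n j (s - (1/2)^n) - WW u n j s`: `D s = 0` for `s ≤ 0` (`WW_left`) and for `1 < s`; `0 ≤ D s`.
Step of the induction on `n`: the left side is `u j * D (2 t - 1) + (1 - u j) * D (2 t)` (with `D` for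
`n`, `j + 1`) and at most one of `2 t - 1`, `2 t` lies in `(0, 1]`. `Finset.prod_range_succ'`. -/
theorem WW_gap (u : ℕ → ℝ) (hu : ∀ j, 0 ≤ u j ∧ u j ≤ 1) (n j : ℕ) (t : ℝ) :
    WW u n j (t - (1 / 2) ^ n) - WW u n j t ≤ ∏ i ∈ range n, max (u (j + i)) (1 - u (j + i)) := by
  induction n generalizing j t with
  | zero =>
    simp only [Finset.range_zero, Finset.prod_empty]
    have h1 := (WW_range u hu 0 j (t - (1 / 2) ^ 0)).2
    have h2 := (WW_range u hu 0 j t).1
    linarith
  | succ n ih =>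
    have hprod : ∏ i ∈ range (n + 1), max (u (j + i)) (1 - u (j + i)) =
        (∏ i ∈ range n, max (u (j + 1 + i)) (1 - u (j + 1 + i))) * max (u j) (1 - u j) := by
      rw [Finset.prod_range_succ']
      simp only [add_zero]
      congr 1
      refine Finset.prod_congr rfl (fun i _ => ?_)
      rw [show j + (i + 1) = j + 1 + i by omega]
    rw [hprod, WW_succ, WW_succ]
    have hD1 := ih (j + 1) (2 * t - 1)
    have hD2 := ih (j + 1) (2 * t)
    have ha1 : 2 * (t - (1 / 2 : ℝ) ^ (n + 1)) - 1 = 2 * t - 1 - (1 / 2) ^ n := by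
      rw [pow_succ]; ring
    have ha2 : 2 * (t - (1 / 2 : ℝ) ^ (n + 1)) = 2 * t - (1 / 2) ^ n := by
      rw [pow_succ]; ring
    rw [ha1, ha2]
    set R := ∏ i ∈ range n, max (u (j + 1 + i)) (1 - u (j + 1 + i)) with hR
    have hp : (0 : ℝ) < (1 / 2) ^ n := by positivity
    have hn1 : 0 ≤ WW u n (j + 1) (2 * t - 1 - (1 / 2) ^ n) - WW u n (j + 1) (2 * t - 1) := by
      have := WW_anti u hu n (j + 1) (2 * t - 1 - (1 / 2) ^ n) (2 * t - 1) (by linarith)
      linarith
    have hn2 : 0 ≤ WW u n (j + 1) (2 * t - (1 / 2) ^ n) - WW u n (j + 1) (2 * t) := by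
      have := WW_anti u hu n (j + 1) (2 * t - (1 / 2) ^ n) (2 * t) (by linarith)
      linarith
    have hR0 : 0 ≤ R := le_trans hn1 hD1
    rcases le_or_gt (2 * t - 1) 0 with hc | hc
    · have hz := WW_gap_zero u n (j + 1) (2 * t - 1) (Or.inl hc)
      have hm : (1 - u j) * (WW u n (j + 1) (2 * t - (1 / 2) ^ n) - WW u n (j + 1) (2 * t)) ≤
          max (u j) (1 - u j) * R :=
        mul_le_mul (le_max_right _ _) hD2 hn2 (le_trans (hu j).1 (le_max_left _ _))
      have he : WW u n (j + 1) (2 * t - 1 - (1 / 2) ^ n) = WW u n (j + 1) (2 * t - 1) := by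
        linarith
      rw [he]
      calc _ = (1 - u j) * (WW u n (j + 1) (2 * t - (1 / 2) ^ n) - WW u n (j + 1) (2 * t)) := by
            ring
        _ ≤ max (u j) (1 - u j) * R := hm
        _ = _ := by ring
    · have hz := WW_gap_zero u n (j + 1) (2 * t) (Or.inr (by linarith))
      have hm : u j * (WW u n (j + 1) (2 * t - 1 - (1 / 2) ^ n) - WW u n (j + 1) (2 * t - 1)) ≤
          max (u j) (1 - u j) * R :=
        mul_le_mul (le_max_left _ _) hD1 hn1 (le_trans (hu j).1 (le_max_left _ _))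
      have he : WW u n (j + 1) (2 * t - (1 / 2) ^ n) = WW u n (j + 1) (2 * t) := by
        linarith
      rw [he]
      calc _ = u j * (WW u n (j + 1) (2 * t - 1 - (1 / 2) ^ n) - WW u n (j + 1) (2 * t - 1)) := by
            ring
        _ ≤ max (u j) (1 - u j) * R := hm
        _ = _ := by ring

private theorem op_three_real (j : ℕ) : (3 : ℝ) ≤ (op j : ℝ) := by
  exact_mod_cast op_three j

/-- `0 ≤ uF j ≤ 1 / 2`. -/
theorem uF_range (j : ℕ) : 0 < uF j ∧ uF j ≤ 1 / 2 := by
  have h := op_three_real j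
  unfold uF
  constructor
  · apply one_div_pos.2; linarith
  · exact one_div_le_one_div_of_le (by norm_num) (by linarith)

theorem uG_range (j : ℕ) : 2 / 3 ≤ uG j ∧ uG j < 1 := by
  have h := op_three_real j
  unfold uG
  constructor
  · have : 1 / (op j : ℝ) ≤ 1 / 3 := one_div_le_one_div_of_le (by norm_num) h
    linarith
  · have : 0 < 1 / (op j : ℝ) := one_div_pos.2 (by linarith)
    linarith

/-- Induction on `n`. Step: `N = op j - 1`, `x = 1 / N = uF j`, `N / (N + 1) = uG j`,
`f = WW uF n (j + 1)`, `g = WW uG n (j + 1)`, `M = MM n (j + 1)`. If `t ≤ 1/2`: `f (2 t - 1) = 1`, the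
argument is `x + (1 - x) f (2 t) ≥ x`, so (`bb_right`) `bb N M = N/(N+1) + 1/(N+1) M (f (2 t))`, since
`(N (x + (1 - x) f) - 1)/(N - 1) = f`; and `g (2 t - 1) = 1`. If `1/2 < t`: `f (2 t) = 0 = g (2 t)`
(`WW_right`), the argument is `x f (2 t - 1) ≤ x`. -/
theorem MM_WW (n j : ℕ) (t : ℝ) : MM n j (WW uF n j t) = WW uG n j t := by
  induction n generalizing j t with
  | zero =>
    simp only [MM, WW]
    by_cases h : t ≤ 0
    · simp [h]
    · simp [h]
  | succ n ih =>
    have h3 := op_three_real j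
    have hN1 : (0 : ℝ) < (op j : ℝ) - 1 := by linarith
    have hN2 : (0 : ℝ) < (op j : ℝ) - 1 - 1 := by linarith
    have hNp : (0 : ℝ) < (op j : ℝ) - 1 + 1 := by linarith
    have hop : (0 : ℝ) < (op j : ℝ) := by linarith
    have hHH := hh_MM n j
    have hMM : MM (n + 1) j = bb ((op j : ℝ) - 1) (MM n (j + 1)) := rfl
    have hur : ∀ i, 0 ≤ uF i ∧ uF i ≤ 1 := fun i => by
      have := uF_range i
      constructor <;> linarith [this.1, this.2]
    have huG : uG j = ((op j : ℝ) - 1) / ((op j : ℝ) - 1 + 1) := by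
      unfold uG
      field_simp
      ring
    have huG1 : 1 - uG j = 1 / ((op j : ℝ) - 1 + 1) := by
      unfold uG
      field_simp
      ring
    have hx : uF j = 1 / ((op j : ℝ) - 1) := rfl
    have hNx : ((op j : ℝ) - 1) * uF j = 1 := by
      rw [hx]; field_simp
    rw [hMM, WW_succ, WW_succ]
    rcases le_or_gt t (1 / 2) with ht | ht
    · have hf1 : WW uF n (j + 1) (2 * t - 1) = 1 := WW_left uF n (j + 1) _ (by linarith)
      have hg1 : WW uG n (j + 1) (2 * t - 1) = 1 := WW_left uG n (j + 1) _ (by linarith)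
      rw [hf1, hg1]
      have hf0 := (WW_range uF hur n (j + 1) (2 * t)).1
      have hge : 1 / ((op j : ℝ) - 1) ≤ uF j * 1 + (1 - uF j) * WW uF n (j + 1) (2 * t) := by
        have := mul_nonneg (sub_nonneg.2 (hur j).2) hf0
        rw [← hx]; linarith
      rw [bb_right (MM n (j + 1)) ((op j : ℝ) - 1) hHH (by linarith) _ hge]
      have harg : (((op j : ℝ) - 1) * (uF j * 1 + (1 - uF j) * WW uF n (j + 1) (2 * t)) - 1) /
          ((op j : ℝ) - 1 - 1) = WW uF n (j + 1) (2 * t) := by
        rw [div_eq_iff hN2.ne']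
        linear_combination (1 - WW uF n (j + 1) (2 * t)) * hNx
      rw [harg, ih (j + 1) (2 * t), huG1, huG]
      ring
    · have hf2 : WW uF n (j + 1) (2 * t) = 0 := WW_right uF n (j + 1) _ (by linarith)
      have hg2 : WW uG n (j + 1) (2 * t) = 0 := WW_right uG n (j + 1) _ (by linarith)
      rw [hf2, hg2]
      have hf1 := (WW_range uF hur n (j + 1) (2 * t - 1)).2
      have hle : uF j * WW uF n (j + 1) (2 * t - 1) + (1 - uF j) * 0 ≤ 1 / ((op j : ℝ) - 1) := by
        rw [← hx]
        have := mul_le_mul_of_nonneg_left hf1 (hur j).1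
        linarith
      unfold bb
      rw [if_pos hle]
      have harg : ((op j : ℝ) - 1) * (uF j * WW uF n (j + 1) (2 * t - 1) + (1 - uF j) * 0) =
          WW uF n (j + 1) (2 * t - 1) := by
        linear_combination (WW uF n (j + 1) (2 * t - 1)) * hNx
      rw [harg, ih (j + 1) (2 * t - 1), huG]
      ring

end Pool.Agent.Lib.MP_629a14_nt.Lx
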