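import Pool.Agent.Lib.MP_629a14_nt.Lx.Ops
import Pool.Agent.Lib.MP_629a14_nt.Lx.Dist

/-! The products tend to `0`. -/

set_option autoImplicit false

namespace Pool.Agent.Lib.MP_629a14_nt.Lx

open Finset Filter Topology Pool.Agent.Lib.MP_629a14_nt Pool.Agent.Lib.MP_629a14_nt.Rob
  Pool.Agent.Lib.MP_629a14_nt.Sm

private theorem nth_not_summable :
    ¬ Summable (fun j : ℕ => (1 : ℝ) / (Nat.nth Nat.Prime j : ℝ)) := by
  intro h
  have hinj : Function.Injective (Nat.nth Nat.Prime) :=
    Nat.nth_injective Nat.infinite_setOf_prime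
  have hrange : Set.range (Nat.nth Nat.Prime) = setOf Nat.Prime :=
    Nat.range_nth_of_infinite Nat.infinite_setOf_prime
  apply not_summable_one_div_on_primes
  rw [← hinj.summable_iff]
  · refine h.congr (fun j => ?_)
    have hj : Nat.nth Nat.Prime j ∈ {p : ℕ | p.Prime} := by
      have := Set.mem_range_self (f := Nat.nth Nat.Prime) j
      rw [hrange] at this
      exact this
    simp only [Function.comp]
    rw [Set.indicator_of_mem hj]
  · intro x hx
    rw [hrange] at hx
    exact Set.indicator_of_notMem hx _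

private theorem op_not_summable : ¬ Summable (fun j : ℕ => (1 : ℝ) / (op j : ℝ)) := by
  intro h
  apply nth_not_summable
  rw [← summable_nat_add_iff 1]
  exact h

private theorem sum_tends : Tendsto (fun n => ∑ i ∈ range n, (1 : ℝ) / (op i : ℝ)) atTop atTop := by
  rw [← not_summable_iff_tendsto_nat_atTop_of_nonneg]
  · exact op_not_summable
  · intro n
    positivity

private theorem prod_tends :
    Tendsto (fun n => ∏ i ∈ range n, (1 - (1 : ℝ) / (op i : ℝ))) atTop (𝓝 0) := by
  have h0 : ∀ i, 0 ≤ 1 - (1 : ℝ) / (op i : ℝ) := by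
    intro i
    have h3 : (3 : ℝ) ≤ (op i : ℝ) := by exact_mod_cast op_three i
    have : (1 : ℝ) / (op i : ℝ) ≤ 1 := by
      rw [div_le_one (by linarith)]
      linarith
    linarith
  refine squeeze_zero (fun n => prod_nonneg (fun i _ => h0 i))
    (g := fun n => Real.exp (-∑ i ∈ range n, (1 : ℝ) / (op i : ℝ))) (fun n => ?_) ?_
  · rw [← Finset.sum_neg_distrib, Real.exp_sum]
    refine prod_le_prod (fun i _ => h0 i) (fun i _ => ?_)
    have := Real.add_one_le_exp (-((1 : ℝ) / (op i : ℝ)))
    linarith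
  · exact Real.tendsto_exp_neg_atTop_nhds_zero.comp sum_tends

/-- `max (uG i) (1 - uG i) = 1 - 1/(op i)`; `∏ (1 - 1/p) ≤ exp (- ∑ 1/p)` and the sum of the `1 / op i`
diverges (`Nat.Primes.not_summable_one_div`, the primes are `2` and the `op i`). -/
theorem kapG : Tendsto (fun n => ∏ i ∈ range n, max (uG (0 + i)) (1 - uG (0 + i))) atTop (𝓝 0) := by
  refine prod_tends.congr (fun n => ?_)
  refine prod_congr rfl (fun i _ => ?_)
  have h := uG_range (0 + i)
  rw [max_eq_left (by linarith [h.1])]
  simp only [uG, zero_add]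

/-- `max (uF i) (1 - uF i) = 1 - 1/(op i - 1) ≤ 1 - 1/op i`, `kapG`. -/
theorem kapF : Tendsto (fun n => ∏ i ∈ range n, max (uF (0 + i)) (1 - uF (0 + i))) atTop (𝓝 0) := by
  refine squeeze_zero (fun n => prod_nonneg (fun i _ => ?_)) (fun n => ?_) prod_tends
  · exact le_max_of_le_left (uF_range (0 + i)).1.le
  · refine prod_le_prod (fun i _ => le_max_of_le_left (uF_range (0 + i)).1.le) (fun i _ => ?_)
    have h := uF_range (0 + i)
    rw [max_eq_right (by linarith [h.2])]
    simp only [uF, zero_add]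
    have h3 : (3 : ℝ) ≤ (op i : ℝ) := by exact_mod_cast op_three i
    have : (1 : ℝ) / (op i : ℝ) ≤ 1 / ((op i : ℝ) - 1) :=
      one_div_le_one_div_of_le (by linarith) (by linarith)
    linarith

end Pool.Agent.Lib.MP_629a14_nt.Lx
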