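import Pool.Agent.Lib.MP_629a14_nt.Lx.DensF
import Pool.Agent.Lib.MP_629a14_nt.Lx.DensG
import Pool.Agent.Lib.MP_629a14_nt.Lx.Kap

/-! Continuity. -/

set_option autoImplicit false

namespace Pool.Agent.Lib.MP_629a14_nt.Lx

open Finset Filter Topology Pool.Agent.Lib.MP_629a14_nt Pool.Agent.Lib.MP_629a14_nt.Rob
  Pool.Agent.Lib.MP_629a14_nt.Sm

private theorem Cont_uF (j : ℕ) : 0 ≤ uF j ∧ uF j ≤ 1 := by
  have h := uF_range j
  constructor
  · exact h.1.le
  · linarith [h.2]

private theorem Cont_uG (j : ℕ) : 0 ≤ uG j ∧ uG j ≤ 1 := by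
  have h := uG_range j
  constructor
  · linarith [h.1]
  · exact h.2.le

theorem heavy_anti (s t : ℝ) (h : s ≤ t) : relLow (heavy t) ≤ relLow (heavy s) := by
  refine relLow_mono _ _ fun p _ hp => ?_
  have h1 : t ≤ xi p := hp
  exact h.trans h1

private theorem Cont_two (n : ℕ) (s t : ℝ) (hst : t - (1 / 2) ^ n ≤ s) :
    relLow (heavy s) ≤ relLow (heavy t) +
      2 * ∏ i ∈ range n, max (uF (0 + i)) (1 - uF (0 + i)) := by
  have h1 := heavy_up n s
  have h2 := WW_anti uF Cont_uF n 0 (t - (1 / 2) ^ n - (1 / 2) ^ n) (s - (1 / 2) ^ n) (by linarith)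
  have h3 := WW_gap uF Cont_uF n 0 (t - (1 / 2) ^ n)
  have h4 := WW_gap uF Cont_uF n 0 t
  have h5 := heavy_low n t
  linarith

/-- `relLow (heavy s) ≤ WW n (s - (1/2)^n) ≤ WW n (t - 2 (1/2)^n) ≤ WW n t + 2 κ ≤ relLow (heavy t) + 2 κ`
for `t - s ≤ (1/2)^n`, with `κ` the product in `WW_gap`; `kapF`. -/
theorem heavy_cont : Continuous (fun t : ℝ => relLow (heavy t)) := by
  rw [Metric.continuous_iff]
  intro b ε hε
  obtain ⟨n, hn⟩ := (kapF.eventually_lt_const (show (0 : ℝ) < ε / 4 by linarith)).exists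
  refine ⟨(1 / 2) ^ n, by positivity, fun a ha => ?_⟩
  rw [Real.dist_eq, abs_lt] at ha
  rw [Real.dist_eq, abs_lt]
  have h1 := Cont_two n a b (by linarith [ha.1])
  have h2 := Cont_two n b a (by linarith [ha.2])
  constructor
  · linarith
  · linarith

theorem heavy_zero : relLow (heavy 0) = 1 := by
  have h : heavy 0 = Set.univ := by
    ext m
    simp only [Set.mem_univ, iff_true]
    exact xi_nonneg m
  rw [h, relLow_univ]

/-- `heavy_up`, `WW_gap`, `WW_right`, `kapF`. -/
theorem heavy_one : relLow (heavy 1) = 0 := by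
  refine le_antisymm ?_ ?_
  · refine ge_of_tendsto' kapF fun n => ?_
    have h1 := heavy_up n 1
    have h2 := WW_gap uF Cont_uF n 0 1
    have h3 := WW_right uF n 0 1 le_rfl
    linarith
  · have h1 := heavy_low 0 1
    have h3 := WW_right uF 0 0 1 le_rfl
    linarith

/-- The largest `t` with `relLow (heavy t) = β` (intermediate value theorem, supremum). -/
theorem exists_t (β : ℝ) (h0 : 0 < β) (h1 : β ≤ 1) : ∃ t : ℝ, 0 ≤ t ∧ t < 1 ∧
    relLow (heavy t) = β ∧ ∀ t' : ℝ, t < t' → relLow (heavy t') < β := by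
  set f : ℝ → ℝ := fun t => relLow (heavy t) with hf
  have hfc : Continuous f := heavy_cont
  set S : Set ℝ := Set.Icc 0 1 ∩ {t | β ≤ f t} with hS
  have hSc : IsCompact S := isCompact_Icc.inter_right (isClosed_le continuous_const hfc)
  have h0S : (0 : ℝ) ∈ S := by
    refine ⟨⟨le_rfl, zero_le_one⟩, ?_⟩
    show β ≤ relLow (heavy 0)
    rw [heavy_zero]
    exact h1
  have hne : S.Nonempty := ⟨0, h0S⟩
  set t : ℝ := sSup S with ht
  have htS : t ∈ S := hSc.sSup_mem hne
  have hbd : BddAbove S := hSc.bddAbove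
  have hgt : ∀ t' : ℝ, t < t' → f t' < β := by
    intro t' htt'
    by_cases h : t' ≤ 1
    · by_contra hcon
      rw [not_lt] at hcon
      have h2 : t' ∈ S := ⟨⟨htS.1.1.trans htt'.le, h⟩, hcon⟩
      have h3 := le_csSup hbd h2
      linarith
    · rw [not_le] at h
      have h2 : f t' ≤ f 1 := heavy_anti 1 t' h.le
      have h3 : f 1 = 0 := heavy_one
      linarith
  refine ⟨t, htS.1.1, ?_, ?_, hgt⟩
  · rcases lt_or_eq_of_le htS.1.2 with h | h
    · exact h
    · exfalso
      have h2 : β ≤ f t := htS.2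
      rw [h] at h2
      have h3 : f 1 = 0 := heavy_one
      linarith
  · refine le_antisymm ?_ htS.2
    have h2 : Tendsto f (𝓝[>] t) (𝓝 (f t)) := hfc.continuousAt.tendsto.mono_left nhdsWithin_le_nhds
    refine le_of_tendsto h2 ?_
    filter_upwards [self_mem_nhdsWithin] with x hx
    exact (hgt x hx).le

/-- Same argument with `light_low`, `light_up`, `kapG`. -/
theorem light_cont (t ε : ℝ) (hε : 0 < ε) : ∃ t' : ℝ, t < t' ∧ dlow (light t) - ε ≤ dlow (light t') := by
  obtain ⟨n, hn⟩ := (kapG.eventually_lt_const hε).exists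
  have hpos : (0 : ℝ) < (1 / 2) ^ n := by positivity
  refine ⟨t + (1 / 2) ^ n, by linarith, ?_⟩
  have h1 := light_up n t
  have h2 := light_low n (t + (1 / 2) ^ n)
  have h3 := WW_gap uG Cont_uG n 0 t
  have h4 := WW_gap uG Cont_uG n 0 (t + (1 / 2) ^ n)
  rw [add_sub_cancel_right] at h4
  linarith

end Pool.Agent.Lib.MP_629a14_nt.Lx
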