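import Pool.Agent.Lib.MP_629a14_nt.Lx.Ops
import Pool.Agent.Lib.MP_629a14_nt.Lx.Dist

/-! Counting residues. -/

set_option autoImplicit false

namespace Pool.Agent.Lib.MP_629a14_nt.Lx

open Finset Filter Topology Pool.Agent.Lib.MP_629a14_nt Pool.Agent.Lib.MP_629a14_nt.Rob
  Pool.Agent.Lib.MP_629a14_nt.Sm

/-- `(m % a) % b = m % b` for `b ∣ a`; the digits of `m` modulo `mm n j` are those of `m`. -/
theorem xin_mod (n j m : ℕ) : xin n j (m % mm n j) = xin n j m := by
  unfold xin
  refine Finset.sum_congr rfl (fun i hi => ?_)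
  rw [Nat.mod_mod_of_dvd m (op_dvd_mm n j i (Finset.mem_range.mp hi))]

/-- `Finset.sum_range_succ'`: the first digit. -/
theorem xin_succ (n j m : ℕ) : xin (n + 1) j m =
    (if m % op j = 1 then 1 / 2 else 0) + 1 / 2 * xin n (j + 1) m := by
  unfold xin
  rw [Finset.sum_range_succ', add_comm, Finset.mul_sum]
  congr 1
  · simp
  · refine Finset.sum_congr rfl (fun i _ => ?_)
    have h : j + (i + 1) = j + 1 + i := by omega
    rw [h]
    split_ifs
    · rw [pow_succ (1 / 2 : ℝ) (i + 1)]; ring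
    · simp

private theorem crt_aux_inj (p M a b : ℕ) (hc : Nat.Coprime p M) (ha : a < p * M) (hb : b < p * M)
    (h1 : a % p = b % p) (h2 : a % M = b % M) : a = b := by
  have h3 : a ≡ b [MOD p * M] := (Nat.modEq_and_modEq_iff_modEq_mul hc).1 ⟨h1, h2⟩
  exact Nat.ModEq.eq_of_lt_of_lt h3 ha hb

private theorem crt_aux_surj (p M a b : ℕ) (hc : Nat.Coprime p M) (hp : 0 < p) (hM : 0 < M)
    (ha : a < p) (hb : b < M) : ∃ k, k < p * M ∧ k % p = a ∧ k % M = b := by
  obtain ⟨k, hk1, hk2⟩ := Nat.chineseRemainder hc a b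
  refine ⟨k % (p * M), Nat.mod_lt _ (Nat.mul_pos hp hM), ?_, ?_⟩
  · rw [Nat.mod_mul_right_mod]
    exact (show k % p = a % p from hk1).trans (Nat.mod_eq_of_lt ha)
  · rw [Nat.mod_mul_left_mod]
    exact (show k % M = b % M from hk2).trans (Nat.mod_eq_of_lt hb)

/-- Chinese remainder theorem: the number of pairs. -/
theorem crt_units (n j : ℕ) (P : ℕ → Prop) [DecidablePred P] (Q : ℕ → Prop) [DecidablePred Q] :
    ((UM (mm (n + 1) j)).filter (fun y => P (y.val % op j) ∧ Q (y.val % mm n (j + 1)))).card =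
      ((Ico 1 (op j)).filter P).card * ((UM (mm n (j + 1))).filter (fun y => Q y.val)).card := by
  rw [← Finset.card_product]
  have hpr := op_prime j
  have hc := mm_cop n j
  have hp := hpr.pos
  have hM := mm_pos n (j + 1)
  have hmm : mm (n + 1) j = op j * mm n (j + 1) := rfl
  have hlt : ∀ y : ZMod (mm (n + 1) j), y.val < op j * mm n (j + 1) := fun y => ZMod.val_lt y
  refine Finset.card_bij
    (fun y _ => (y.val % op j, ((y.val : ℕ) : ZMod (mm n (j + 1))))) ?_ ?_ ?_
  · intro y hy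
    simp only [Finset.mem_filter, UM, Finset.mem_univ, true_and] at hy
    obtain ⟨hu, hP, hQ⟩ := hy
    have hcop : Nat.Coprime y.val (op j * mm n (j + 1)) := by
      have h := (ZMod.isUnit_iff_coprime y.val (mm (n + 1) j)).1 (by
        rw [ZMod.natCast_zmod_val]; exact hu)
      exact h
    have hc1 := Nat.Coprime.coprime_mul_right_right hcop
    have hc2 := Nat.Coprime.coprime_mul_left_right hcop
    simp only [Finset.mem_product, Finset.mem_filter, Finset.mem_Ico, UM, Finset.mem_univ, true_and]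
    refine ⟨⟨⟨?_, Nat.mod_lt _ hp⟩, hP⟩, ?_, ?_⟩
    · rw [Nat.one_le_iff_ne_zero]
      intro h0
      have hd : op j ∣ y.val := Nat.dvd_of_mod_eq_zero h0
      have := Nat.Coprime.eq_one_of_dvd hc1.symm hd
      exact hpr.one_lt.ne' this
    · exact (ZMod.isUnit_iff_coprime _ _).2 hc2
    · rw [ZMod.val_natCast]; exact hQ
  · intro a ha b hb hab
    simp only [Prod.mk.injEq] at hab
    have h2 := (ZMod.natCast_eq_natCast_iff' _ _ _).1 hab.2
    exact ZMod.val_injective _ (crt_aux_inj _ _ _ _ hc (hlt a) (hlt b) hab.1 h2)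
  · rintro ⟨a, z⟩ hz
    simp only [Finset.mem_product, Finset.mem_filter, Finset.mem_Ico, UM, Finset.mem_univ,
      true_and] at hz
    obtain ⟨⟨⟨ha1, ha2⟩, hPa⟩, hzu, hQz⟩ := hz
    obtain ⟨k, hk, hk1, hk2⟩ := crt_aux_surj (op j) (mm n (j + 1)) a z.val hc hp hM ha2
      (ZMod.val_lt z)
    have hval : ((k : ℕ) : ZMod (mm (n + 1) j)).val = k := ZMod.val_cast_of_lt hk
    refine ⟨((k : ℕ) : ZMod (mm (n + 1) j)), ?_, ?_⟩
    · simp only [Finset.mem_filter, UM, Finset.mem_univ, true_and]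
      rw [hval, hk1, hk2]
      refine ⟨?_, hPa, hQz⟩
      refine (ZMod.isUnit_iff_coprime _ _).2 ?_
      have hcz : Nat.Coprime k (mm n (j + 1)) := by
        have hz : ((k : ℕ) : ZMod (mm n (j + 1))) = z := by
          apply ZMod.val_injective
          rw [ZMod.val_natCast, hk2]
        exact (ZMod.isUnit_iff_coprime k (mm n (j + 1))).1 (by rw [hz]; exact hzu)
      have hcp : Nat.Coprime k (op j) := by
        rw [Nat.coprime_comm, Nat.Prime.coprime_iff_not_dvd hpr]
        intro hd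
        have := Nat.mod_eq_zero_of_dvd hd
        omega
      exact Nat.Coprime.mul_right hcp hcz
    · simp only [hval, Prod.mk.injEq]
      refine ⟨hk1, ?_⟩
      apply ZMod.val_injective
      rw [ZMod.val_natCast, hk2]

theorem crt_all (n j : ℕ) (P : ℕ → Prop) [DecidablePred P] (Q : ℕ → Prop) [DecidablePred Q] :
    ((univ : Finset (ZMod (mm (n + 1) j))).filter
      (fun y => P (y.val % op j) ∧ Q (y.val % mm n (j + 1)))).card =
      ((range (op j)).filter P).card *
        ((univ : Finset (ZMod (mm n (j + 1)))).filter (fun y => Q y.val)).card := by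
  rw [← Finset.card_product]
  have hpr := op_prime j
  have hc := mm_cop n j
  have hp := hpr.pos
  have hM := mm_pos n (j + 1)
  have hlt : ∀ y : ZMod (mm (n + 1) j), y.val < op j * mm n (j + 1) := fun y => ZMod.val_lt y
  refine Finset.card_bij
    (fun y _ => (y.val % op j, ((y.val : ℕ) : ZMod (mm n (j + 1))))) ?_ ?_ ?_
  · intro y hy
    simp only [Finset.mem_filter, Finset.mem_univ, true_and] at hy
    simp only [Finset.mem_product, Finset.mem_filter, Finset.mem_range, Finset.mem_univ, true_and]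
    refine ⟨⟨Nat.mod_lt _ hp, hy.1⟩, ?_⟩
    rw [ZMod.val_natCast]; exact hy.2
  · intro a ha b hb hab
    simp only [Prod.mk.injEq] at hab
    have h2 := (ZMod.natCast_eq_natCast_iff' _ _ _).1 hab.2
    exact ZMod.val_injective _ (crt_aux_inj _ _ _ _ hc (hlt a) (hlt b) hab.1 h2)
  · rintro ⟨a, z⟩ hz
    simp only [Finset.mem_product, Finset.mem_filter, Finset.mem_range, Finset.mem_univ,
      true_and] at hz
    obtain ⟨⟨ha2, hPa⟩, hQz⟩ := hz
    obtain ⟨k, hk, hk1, hk2⟩ := crt_aux_surj (op j) (mm n (j + 1)) a z.val hc hp hM ha2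
      (ZMod.val_lt z)
    have hval : ((k : ℕ) : ZMod (mm (n + 1) j)).val = k := ZMod.val_cast_of_lt hk
    refine ⟨((k : ℕ) : ZMod (mm (n + 1) j)), ?_, ?_⟩
    · simp only [Finset.mem_filter, Finset.mem_univ, true_and]
      rw [hval, hk1, hk2]
      exact ⟨hPa, hQz⟩
    · simp only [hval, Prod.mk.injEq]
      refine ⟨hk1, ?_⟩
      apply ZMod.val_injective
      rw [ZMod.val_natCast, hk2]

end Pool.Agent.Lib.MP_629a14_nt.Lx
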