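import Pool.Agent.Lib.MP_629a14_nt.Sm.LimDefs

/-! Definitions for the exact theorem on sums of a set of primes and (almost) all primes. -/

set_option autoImplicit false

namespace Pool.Agent.Lib.MP_629a14_nt.Lx

open Finset Filter Topology Pool.Agent.Lib.MP_629a14_nt Pool.Agent.Lib.MP_629a14_nt.Rob
  Pool.Agent.Lib.MP_629a14_nt.Sm

/-- The `j`-th odd prime: `3, 5, 7, ...`. -/
noncomputable def op (j : ℕ) : ℕ := Nat.nth Nat.Prime (j + 1)

/-- One step of the recursion for the least proportion of sums. -/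
noncomputable def bb (N : ℝ) (g : ℝ → ℝ) (s : ℝ) : ℝ :=
  if s ≤ 1 / N then N / (N + 1) * g (N * s)
  else N / (N + 1) + 1 / (N + 1) * g ((N * s - 1) / (N - 1))

/-- The least proportion for the primes `op j, ..., op (j + n - 1)`. -/
noncomputable def MM : ℕ → ℕ → ℝ → ℝ
  | 0, _ => fun s => if 0 < s then 1 else 0
  | n + 1, j => bb ((op j : ℝ) - 1) (MM n (j + 1))

/-- Distribution functions: the digit `i` is `1` with probability `u (j + i)`. -/
noncomputable def WW (u : ℕ → ℝ) : ℕ → ℕ → ℝ → ℝ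
  | 0, _ => fun t => if t ≤ 0 then 1 else 0
  | n + 1, j => fun t => u j * WW u n (j + 1) (2 * t - 1) + (1 - u j) * WW u n (j + 1) (2 * t)

/-- The weights of the units. -/
noncomputable def uF (j : ℕ) : ℝ := 1 / ((op j : ℝ) - 1)

/-- The weights of all residues. -/
noncomputable def uG (j : ℕ) : ℝ := 1 - 1 / (op j : ℝ)

/-- The first `n` digits, read from the prime `op j` on. -/
noncomputable def xin (n j m : ℕ) : ℝ :=
  ∑ i ∈ range n, if m % op (j + i) = 1 then (1 / 2 : ℝ) ^ (i + 1) else 0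

/-- All digits. -/
noncomputable def xi (m : ℕ) : ℝ := ∑' j : ℕ, if m % op j = 1 then (1 / 2 : ℝ) ^ (j + 1) else 0

/-- The set of the `m` with `t ≤ xi m`. -/
def heavy (t : ℝ) : Set ℕ := {m : ℕ | t ≤ xi m}

/-- The set of the even `n` with `xi n ≤ 1 - t`. -/
def light (t : ℝ) : Set ℕ := {n : ℕ | Even n ∧ xi n ≤ 1 - t}

/-- Twice the product of the primes `op j, ..., op (j + n - 1)`. -/
noncomputable def mm : ℕ → ℕ → ℕ
  | 0, _ => 2
  | n + 1, j => op j * mm n (j + 1)

open Classical in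
/-- Lower density of a set of positive integers. -/
noncomputable def dlow (S : Set ℕ) : ℝ :=
  liminf (fun N : ℕ => (((Icc 1 N).filter (fun n : ℕ => n ∈ S)).card : ℝ) / N) atTop

/-- The inequalities behind the induction over the primes. -/
structure HH (g : ℝ → ℝ) (N : ℝ) : Prop where
  g0 : g 0 = 0
  g1 : g 1 = 1
  mono : ∀ a b : ℝ, 0 ≤ a → a ≤ b → b ≤ 1 → g a ≤ g b
  i1 : ∀ n a b : ℝ, 1 ≤ n → n ≤ N → 0 ≤ b → b ≤ a → a + (n - 1) * b ≤ 1 →
    n * (g (a + (n - 1) * b) - g a) ≤ g b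
  i2 : ∀ n a b : ℝ, 1 < n → n ≤ N → 0 ≤ b → b ≤ a → a ≤ 1 → 1 - a ≤ (n - 1) * b →
    n * (1 - g a) ≤ g b - g (b - (1 - a) / (n - 1))

open scoped Pointwise in
/-- The isoperimetric inequality for the subset `U` of the finite abelian group `G`. -/
def IsoP (G : Type) [AddCommGroup G] [Fintype G] [DecidableEq G] (U : Finset G) (C : ℝ)
    (g : ℝ → ℝ) : Prop :=
  ∀ S : Finset G, S ⊆ U → C * g ((S.card : ℝ) / U.card) * Fintype.card G ≤ ((U + S).card : ℝ)

end Pool.Agent.Lib.MP_629a14_nt.Lx
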