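import Pool.Agent.Lib.MP_629a14_nt.Lx.Cnt
import Pool.Agent.Lib.MP_629a14_nt.Lx.Xi
import Pool.Agent.Lib.MP_629a14_nt.Sm.Sharp

/-! Relative densities of the sets `heavy t`. -/

set_option autoImplicit false

namespace Pool.Agent.Lib.MP_629a14_nt.Lx

open Finset Filter Topology Pool.Agent.Lib.MP_629a14_nt Pool.Agent.Lib.MP_629a14_nt.Rob
  Pool.Agent.Lib.MP_629a14_nt.Sm

private theorem DensF_le (A B : Set ℕ) (h : ∀ p : ℕ, p.Prime → p ∈ A → p ∈ B) (x : ℕ) :
    cntB A x ≤ cntB B x := by
  classical
  unfold cntB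
  refine card_le_card fun p hp => ?_
  simp only [mem_filter] at hp ⊢
  exact ⟨hp.1, hp.2.1, h p hp.2.1 hp.2.2⟩

private theorem DensF_quot (A : Set ℕ) (x : ℕ) :
    0 ≤ (cntB A x : ℝ) / cntB Set.univ x ∧ (cntB A x : ℝ) / cntB Set.univ x ≤ 1 :=
  ⟨by positivity, div_le_one_of_le₀
    (by exact_mod_cast DensF_le A Set.univ (fun _ _ _ => Set.mem_univ _) x) (Nat.cast_nonneg _)⟩

theorem relLow_mono (A B : Set ℕ) (h : ∀ p : ℕ, p.Prime → p ∈ A → p ∈ B) : relLow A ≤ relLow B := by
  unfold relLow
  refine liminf_le_liminf (Eventually.of_forall fun x => ?_)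
    (isBoundedUnder_of ⟨0, fun x => (DensF_quot A x).1⟩)
    (IsBoundedUnder.isCoboundedUnder_ge (isBoundedUnder_of ⟨1, fun x => (DensF_quot B x).2⟩))
  exact div_le_div_of_nonneg_right (by exact_mod_cast DensF_le A B h x) (Nat.cast_nonneg _)

private theorem DensF_inf : Tendsto (fun x : ℕ => (cntB Set.univ x : ℝ)) atTop atTop := by
  classical
  refine tendsto_natCast_atTop_atTop.comp ?_
  refine Nat.tendsto_primeCounting.congr fun x => ?_
  rw [Nat.primeCounting, Nat.primeCounting', Nat.count_eq_card_filter_range]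
  unfold cntB
  congr 1
  ext p
  simp only [mem_filter, mem_range, mem_Icc, Set.mem_univ, and_true]
  constructor
  · rintro ⟨h1, h2⟩
    exact ⟨⟨h2.one_lt.le, by omega⟩, h2⟩
  · rintro ⟨h1, h2⟩
    exact ⟨by omega, h2⟩

theorem relLow_univ : relLow Set.univ = 1 := by
  unfold relLow
  refine Tendsto.liminf_eq ?_
  refine tendsto_const_nhds.congr' ?_
  filter_upwards [DensF_inf.eventually_gt_atTop 0] with x hx
  rw [div_self hx.ne']

private theorem DensF_card (n : ℕ) (t : ℝ) (M : ℕ) (hM : M = mm n 0) [NeZero M] :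
    (((UM M).filter (fun y => t ≤ xin n 0 y.val)).card : ℝ) = WW uF n 0 t * M.totient := by
  subst hM
  rw [cnt_F n 0 t, UM_card]

/-- `sharp_dens` for `w = nth n` (`mm_prim`) and the residues `y` of units with `t ≤ xin n 0 y.val`
(`cnt_F`, `UM_card`); the primes dividing `mm n 0` are finitely many (or: `cls` contains only units). -/
theorem dens_xin (n : ℕ) (t : ℝ) : relLow {m : ℕ | t ≤ xin n 0 m} = WW uF n 0 t := by
  classical
  set w : ℕ := Nat.nth Nat.Prime n with hw
  have hM : primorial w = mm n 0 := (mm_prim n).symm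
  set R : Finset (ZMod (primorial w)) := (UM (primorial w)).filter (fun y => t ≤ xin n 0 y.val)
    with hR
  have hunit : ∀ x ∈ R, IsUnit x := by
    intro x hx
    rw [hR, mem_filter] at hx
    have h1 := hx.1
    unfold UM at h1
    rw [mem_filter] at h1
    exact h1.2
  have hval : ∀ m : ℕ, xin n 0 ((m : ZMod (primorial w)).val) = xin n 0 m := by
    intro m
    rw [ZMod.val_natCast, hM, xin_mod]
  have hlim := sharp_dens w R hunit
  have hc : (R.card : ℝ) / (primorial w).totient = WW uF n 0 t := by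
    have h1 := DensF_card n t (primorial w) hM
    have h2 : (0 : ℝ) < ((primorial w).totient : ℝ) := by
      exact_mod_cast Nat.totient_pos.2 (primorial_pos w)
    rw [div_eq_iff h2.ne', ← h1]
  rw [hc] at hlim
  have hlow : ∀ x : ℕ, (cntB (cls w R) x : ℝ) / cntB Set.univ x ≤
      (cntB {m : ℕ | t ≤ xin n 0 m} x : ℝ) / cntB Set.univ x := by
    intro x
    refine div_le_div_of_nonneg_right ?_ (Nat.cast_nonneg _)
    have : cntB (cls w R) x ≤ cntB {m : ℕ | t ≤ xin n 0 m} x := by
      refine DensF_le _ _ (fun p _ hp2 => ?_) x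
      have h1 : (p : ZMod (primorial w)) ∈ R := hp2
      rw [hR, mem_filter] at h1
      have h2 := h1.2
      rw [hval] at h2
      exact h2
    exact_mod_cast this
  have hup : ∀ x : ℕ, (cntB {m : ℕ | t ≤ xin n 0 m} x : ℝ) / cntB Set.univ x ≤
      (cntB (cls w R) x : ℝ) / cntB Set.univ x + ((w + 1 : ℕ) : ℝ) / cntB Set.univ x := by
    intro x
    rw [← add_div]
    refine div_le_div_of_nonneg_right ?_ (Nat.cast_nonneg _)
    have : cntB {m : ℕ | t ≤ xin n 0 m} x ≤ cntB (cls w R) x + (w + 1) := by
      unfold cntB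
      calc ((Icc 1 x).filter (fun p => p.Prime ∧ p ∈ {m : ℕ | t ≤ xin n 0 m})).card
          ≤ ((Icc 1 x).filter (fun p => p.Prime ∧ p ∈ cls w R) ∪ range (w + 1)).card := by
            refine card_le_card fun p hp => ?_
            rw [mem_filter] at hp
            obtain ⟨hp1, hp2, hp3⟩ := hp
            rw [mem_union]
            by_cases hpw : p ≤ w
            · right
              rw [mem_range]
              omega
            · left
              rw [mem_filter]
              refine ⟨hp1, hp2, ?_⟩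
              show (p : ZMod (primorial w)) ∈ R
              rw [hR, mem_filter]
              refine ⟨?_, ?_⟩
              · unfold UM
                rw [mem_filter]
                refine ⟨mem_univ _, ?_⟩
                rw [ZMod.isUnit_iff_coprime, primorial]
                refine Nat.Coprime.prod_right fun q hq => ?_
                rw [mem_filter, mem_range] at hq
                rw [Nat.coprime_primes hp2 hq.2]
                omega
              · rw [hval]
                exact hp3
        _ ≤ _ := by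
            refine (card_union_le _ _).trans ?_
            rw [card_range]
    exact_mod_cast this
  have hz : Tendsto (fun x : ℕ => ((w + 1 : ℕ) : ℝ) / cntB Set.univ x) atTop (𝓝 0) :=
    tendsto_const_nhds.div_atTop DensF_inf
  have hlim2 := hlim.add hz
  rw [add_zero] at hlim2
  have hfin : Tendsto (fun x : ℕ => (cntB {m : ℕ | t ≤ xin n 0 m} x : ℝ) / cntB Set.univ x) atTop
      (𝓝 (WW uF n 0 t)) :=
    tendsto_of_tendsto_of_tendsto_of_le_of_le hlim hlim2 hlow hup
  unfold relLow
  exact hfin.liminf_eq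

/-- `xin_le_xi`, `dens_xin`. -/
theorem heavy_low (n : ℕ) (t : ℝ) : WW uF n 0 t ≤ relLow (heavy t) := by
  rw [← dens_xin]
  refine relLow_mono _ _ fun p _ hp => ?_
  have h1 : t ≤ xin n 0 p := hp
  exact h1.trans (xin_le_xi n p)

/-- `xi_le_xin`, `dens_xin`. -/
theorem heavy_up (n : ℕ) (t : ℝ) : relLow (heavy t) ≤ WW uF n 0 (t - (1 / 2) ^ n) := by
  rw [← dens_xin]
  refine relLow_mono _ _ fun p _ hp => ?_
  have h1 : t ≤ xi p := hp
  have h2 := xi_le_xin n p
  show t - (1 / 2) ^ n ≤ xin n 0 p
  linarith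

end Pool.Agent.Lib.MP_629a14_nt.Lx
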