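import Pool.Agent.Lib.MP_629a14_nt.Lx.Alpha
import Pool.Agent.Lib.MP_629a14_nt.Lx.Beta
import Pool.Agent.Lib.MP_629a14_nt.Sm.TClaim

/-! The theorem for finite `N`, first form. -/

set_option autoImplicit false

namespace Pool.Agent.Lib.MP_629a14_nt.Lx

open Finset Filter Topology Pool.Agent.Lib.MP_629a14_nt Pool.Agent.Lib.MP_629a14_nt.Rob
  Pool.Agent.Lib.MP_629a14_nt.Sm

private theorem finA_two_dvd (w : ℕ) (hw : 2 ≤ w) : 2 ∣ primorial w := by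
  unfold primorial
  refine dvd_prod_of_mem (fun p => p) (mem_filter.2 ⟨mem_range.2 (by omega), Nat.prime_two⟩)

private theorem finA_even (w : ℕ) (hw : 2 ≤ w) (x y : ZMod (primorial w)) (hx : IsUnit x)
    (hy : IsUnit y) (n : ℕ) (h : (n : ZMod (primorial w)) = x + y) : Even n := by
  have h2 := finA_two_dvd w hw
  have hu : ∀ z : ZMod 2, IsUnit z → z = 1 := by decide
  have h3 : (n : ZMod 2) = 0 := by
    have h4 := congrArg (ZMod.castHom h2 (ZMod 2)) h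
    rw [map_natCast, map_add, hu _ (hx.map _), hu _ (hy.map _)] at h4
    rw [h4]
    decide
  rw [even_iff_two_dvd]
  exact (ZMod.natCast_eq_zero_iff n 2).1 h3

private theorem finA_unit {m : ℕ} [NeZero m] {x : ZMod m} (hx : x ∈ UM m) : IsUnit x := by
  classical
  unfold UM at hx
  exact (mem_filter.1 hx).2

open Classical in
/-- disjoint fibres -/
private theorem finA_fib (m N : ℕ) (P : ℕ → Prop) (T : Finset (ZMod m)) (Q : ℕ → Prop) (r : ℝ)
    (hT : ∀ z ∈ T, r ≤ (((Icc 1 N).filter (fun n : ℕ => (n : ZMod m) = z ∧ P n)).card : ℝ))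
    (hQ : ∀ z ∈ T, ∀ n : ℕ, (n : ZMod m) = z → P n → Q n) :
    r * T.card ≤ (((Icc 1 N).filter Q).card : ℝ) := by
  have h1 : ∑ z ∈ T, ((Icc 1 N).filter (fun n : ℕ => (n : ZMod m) = z ∧ P n)).card ≤
      ((Icc 1 N).filter Q).card := by
    rw [← card_biUnion]
    · refine card_le_card fun n hn => ?_
      obtain ⟨z, hz, hn⟩ := mem_biUnion.1 hn
      obtain ⟨hn1, hn2, hn3⟩ := mem_filter.1 hn
      exact mem_filter.2 ⟨hn1, hQ z hz n hn2 hn3⟩
    · intro z _ z' _ hzz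
      refine disjoint_left.2 fun n hn hn' => hzz ?_
      rw [← (mem_filter.1 hn).2.1, ← (mem_filter.1 hn').2.1]
  have h2 : ∑ z ∈ T, r ≤ ∑ z ∈ T,
      (((Icc 1 N).filter (fun n : ℕ => (n : ZMod m) = z ∧ P n)).card : ℝ) := sum_le_sum hT
  rw [sum_const, nsmul_eq_mul, mul_comm] at h2
  refine h2.trans ?_
  exact_mod_cast h1

open Classical in
open scoped Pointwise in
/-- `tclaim (ε/2) η`, `alpha_ge (ε/2)`, `beta_card`; `δ = min (ε²/576) (1/2)` (`≤ (ε/2)²/144`, `≤ (ε/2)/4`). For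
`z = x + y ∈ UM + S` (with `y ∈ S`) at least `(1 - ε) N / m` of the `n ≤ N` with residue `z` have
`c N/log² N ≤ repsIn A B n`; they are even (`m` is even and `x`, `y` are units: see `fo_even` in
`Sm/FinOne.lean`); the sets for different `z` are disjoint. -/
theorem finA (ε η : ℝ) (hε : 0 < ε) (hε1 : ε ≤ 1) (hη : 0 < η) (hη1 : η ≤ 1) : ∃ w₀ : ℕ,
    ∀ w : ℕ, w₀ ≤ w → ∃ c : ℝ, 0 < c ∧ ∃ δ : ℝ, 0 < δ ∧ δ < 1 ∧ ∃ ρ : ℝ, 0 < ρ ∧ ∃ N₀ : ℕ,
      ∀ N : ℕ, N₀ ≤ N → ∀ A B : Set ℕ, 1 - ρ ≤ (cntB A N : ℝ) / cntB Set.univ N →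
      ∃ S : Finset (ZMod (primorial w)), S ⊆ UM (primorial w) ∧
        ((cntB B ⌊δ * N⌋₊ : ℝ) / cntB Set.univ ⌊δ * N⌋₊ - 6 * η) * (primorial w).totient ≤ S.card ∧
        (1 - ε) * (((UM (primorial w) + S).card : ℝ) / primorial w) * N ≤
          (((Icc 1 N).filter (fun n : ℕ => Even n ∧
            c * ((N : ℝ) / Real.log N ^ 2) ≤ (repsIn A B n : ℝ))).card : ℝ) := by
  obtain ⟨w₀, hw₀⟩ := tclaim (ε / 2) η (by linarith) (by linarith) hη hη1
  refine ⟨max w₀ 2, fun w hw => ?_⟩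
  have hww : w₀ ≤ w := (le_max_left _ _).trans hw
  have hw2 : 2 ≤ w := (le_max_right _ _).trans hw
  obtain ⟨δ, hδd⟩ : ∃ δ : ℝ, δ = (ε / 2) ^ 2 / 144 := ⟨_, rfl⟩
  have hδ : 0 < δ := by rw [hδd]; positivity
  have hδ4 : δ ≤ (ε / 2) / 4 := by rw [hδd]; nlinarith
  have hδ1 : δ < 1 := by linarith
  obtain ⟨c, hc, N₁, hN₁⟩ := hw₀ w hww δ hδ hδd.le
  obtain ⟨ρ, hρ, N₂, hN₂⟩ := alpha_ge w (ε / 2) (by linarith) δ hδ hδ4 hδ1
  obtain ⟨N₃, hN₃⟩ := beta_card w η hη hη1 δ hδ hδ1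
  refine ⟨c, hc, δ, hδ, hδ1, ρ, hρ, max N₁ (max N₂ N₃), fun N hN A B hA => ?_⟩
  have hNN1 : N₁ ≤ N := (le_max_left _ _).trans hN
  have hNN2 : N₂ ≤ N := (le_max_left _ _).trans ((le_max_right _ _).trans hN)
  have hNN3 : N₃ ≤ N := (le_max_right _ _).trans ((le_max_right _ _).trans hN)
  obtain ⟨S, hS1, hS2, hS3⟩ := hN₃ N hNN3 B
  refine ⟨S, hS1, hS3, ?_⟩
  have hm0 : (0 : ℝ) < primorial w := by exact_mod_cast primorial_pos w
  have hkey := finA_fib (primorial w) N (fun n => c * ((N : ℝ) / Real.log N ^ 2) ≤ (repsIn A B n : ℝ))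
    (UM (primorial w) + S) (fun n => Even n ∧ c * ((N : ℝ) / Real.log N ^ 2) ≤ (repsIn A B n : ℝ))
    ((1 - ε) * ((N : ℝ) / primorial w)) (by
      intro z hz
      obtain ⟨x, hx, y, hy, rfl⟩ := mem_add.1 hz
      have hxu := finA_unit hx
      have hyu := finA_unit (hS1 hy)
      have h1 := hN₁ N hNN1 A B x y hxu hyu (hS2 y hy)
      have h2 := hN₂ N hNN2 A hA x hxu
      refine le_trans ?_ h1
      refine mul_le_mul_of_nonneg_right (by linarith) (by positivity)) (by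
      intro z hz n hn hP
      obtain ⟨x, hx, y, hy, rfl⟩ := mem_add.1 hz
      exact ⟨finA_even w hw2 x y (finA_unit hx) (finA_unit (hS1 hy)) n hn, hP⟩)
  refine le_trans (le_of_eq ?_) (hkey.trans ?_)
  · ring
  · refine Nat.cast_le.2 (card_le_card fun n hn => ?_)
    simp only [mem_filter] at hn ⊢
    exact hn

end Pool.Agent.Lib.MP_629a14_nt.Lx
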