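import Pool.Agent.Lib.MP_629a14_nt.Lx.FinA
import Pool.Agent.Lib.MP_629a14_nt.Sm.PhiBad

/-! The theorem for finite `N`. -/

set_option autoImplicit false

namespace Pool.Agent.Lib.MP_629a14_nt.Lx

open Finset Filter Topology Pool.Agent.Lib.MP_629a14_nt Pool.Agent.Lib.MP_629a14_nt.Rob
  Pool.Agent.Lib.MP_629a14_nt.Sm

/-- the pointwise comparison of the two thresholds -/
private theorem finB_pt (c₁ K : ℝ) (hc : 0 < c₁) (hK : 1 ≤ K) (N n : ℕ) (hn1 : 1 ≤ n)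
    (hnN : n ≤ N) (hs : Real.sqrt N ≤ n) (hN : 2 ≤ N) (hK' : (n : ℝ) / n.totient ≤ K) :
    c₁ / (4 * K) * ((n : ℝ) ^ 2 / ((n.totient : ℝ) * Real.log n ^ 2)) ≤
      c₁ * ((N : ℝ) / Real.log N ^ 2) := by
  have hNr : (2 : ℝ) ≤ N := by exact_mod_cast hN
  have hlogN : 0 < Real.log N := Real.log_pos (by linarith)
  have hn0 : (0 : ℝ) < n := by exact_mod_cast hn1
  have hφ : (0 : ℝ) < n.totient := by exact_mod_cast Nat.totient_pos.2 hn1
  have hlog : Real.log N / 2 ≤ Real.log n := by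
    have h1 : Real.log (Real.sqrt N) ≤ Real.log n :=
      Real.log_le_log (Real.sqrt_pos.2 (by linarith)) hs
    rwa [Real.log_sqrt (by linarith)] at h1
  have hlogn : 0 < Real.log n := by linarith
  have h2 : (Real.log N / 2) ^ 2 ≤ Real.log n ^ 2 := pow_le_pow_left₀ (by linarith) hlog 2
  have h3 : (n : ℝ) ^ 2 / ((n.totient : ℝ) * Real.log n ^ 2) =
      (n : ℝ) / n.totient * (n / Real.log n ^ 2) := by
    field_simp
  have h4 : (n : ℝ) / Real.log n ^ 2 ≤ N / (Real.log N / 2) ^ 2 :=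
    div_le_div₀ (by positivity) (by exact_mod_cast hnN) (by positivity) h2
  have h5 : (n : ℝ) / n.totient * (n / Real.log n ^ 2) ≤ K * (N / (Real.log N / 2) ^ 2) :=
    mul_le_mul hK' h4 (by positivity) (by linarith)
  rw [h3]
  calc c₁ / (4 * K) * ((n : ℝ) / n.totient * (n / Real.log n ^ 2))
      ≤ c₁ / (4 * K) * (K * (N / (Real.log N / 2) ^ 2)) :=
        mul_le_mul_of_nonneg_left h5 (by positivity)
    _ = c₁ * ((N : ℝ) / Real.log N ^ 2) := by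
        field_simp
        norm_num

open Classical in
open scoped Pointwise in
/-- From `finA (ε/2) η` with the constant `c₁`, `phiBad (ε/4)` with `K`, `c = c₁/(4 K)`: for
`n ≥ sqrt N` with `n/φ(n) ≤ K`: `n²/(φ(n) log² n) ≤ K n/(log N/2)² ≤ 4 K N/log² N`; the
`n < sqrt N` are at most `(ε/4) N`. The same step as `finTwo` in `Sm/FinTwo.lean` (copy the private
lemma). `card (UM + S) ≤ primorial w`. -/
theorem finB (ε η : ℝ) (hε : 0 < ε) (hε1 : ε ≤ 1) (hη : 0 < η) (hη1 : η ≤ 1) : ∃ w₀ : ℕ,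
    ∀ w : ℕ, w₀ ≤ w → ∃ c : ℝ, 0 < c ∧ ∃ δ : ℝ, 0 < δ ∧ δ < 1 ∧ ∃ ρ : ℝ, 0 < ρ ∧ ∃ N₀ : ℕ,
      ∀ N : ℕ, N₀ ≤ N → ∀ A B : Set ℕ, 1 - ρ ≤ (cntB A N : ℝ) / cntB Set.univ N →
      ∃ S : Finset (ZMod (primorial w)), S ⊆ UM (primorial w) ∧
        ((cntB B ⌊δ * N⌋₊ : ℝ) / cntB Set.univ ⌊δ * N⌋₊ - 6 * η) * (primorial w).totient ≤ S.card ∧
        (((UM (primorial w) + S).card : ℝ) / primorial w - ε) * N ≤
          (((Icc 1 N).filter (fun n : ℕ => Even n ∧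
            c * ((n : ℝ) ^ 2 / ((n.totient : ℝ) * Real.log n ^ 2)) ≤ (repsIn A B n : ℝ))).card : ℝ) := by
  obtain ⟨w₀, hw₀⟩ := finA (ε / 2) η (by linarith) (by linarith) hη hη1
  obtain ⟨K, hK1, hK⟩ := phiBad (ε / 4) (by positivity)
  refine ⟨w₀, fun w hw => ?_⟩
  obtain ⟨c₁, hc₁, δ, hδ, hδ1, ρ, hρ, N₁, hN₁⟩ := hw₀ w hw
  refine ⟨c₁ / (4 * K), by positivity, δ, hδ, hδ1, ρ, hρ, max N₁ (max 2 ⌈16 / ε ^ 2⌉₊),
    fun N hN A B hA => ?_⟩
  have hNN1 : N₁ ≤ N := le_trans (le_max_left _ _) hN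
  have hN2 : 2 ≤ N := le_trans (le_trans (le_max_left _ _) (le_max_right _ _)) hN
  have hN3 : 16 / ε ^ 2 ≤ (N : ℝ) :=
    (Nat.le_ceil _).trans (by
      exact_mod_cast le_trans (le_trans (le_max_right _ _) (le_max_right _ _)) hN)
  have hNr : (2 : ℝ) ≤ N := by exact_mod_cast hN2
  obtain ⟨S, hS1, hS2, h1⟩ := hN₁ N hNN1 A B hA
  refine ⟨S, hS1, hS2, ?_⟩
  have h2 := hK N
  have hsqrt : Real.sqrt N ≤ ε / 4 * N := by
    have hs0 := Real.sqrt_nonneg (N : ℝ)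
    have hs1 : Real.sqrt N * Real.sqrt N = N := Real.mul_self_sqrt (by linarith)
    have hs2 : 4 / ε ≤ Real.sqrt N := by
      apply Real.le_sqrt_of_sq_le
      have e : (4 / ε) ^ 2 = 16 / ε ^ 2 := by
        rw [div_pow]
        norm_num
      rw [e]
      exact hN3
    have hs3 : 1 ≤ ε / 4 * Real.sqrt N := by
      have := mul_le_mul_of_nonneg_left hs2 (by positivity : 0 ≤ ε / 4)
      have e : ε / 4 * (4 / ε) = 1 := by field_simp
      linarith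
    calc Real.sqrt N = 1 * Real.sqrt N := (one_mul _).symm
      _ ≤ (ε / 4 * Real.sqrt N) * Real.sqrt N := mul_le_mul_of_nonneg_right hs3 hs0
      _ = ε / 4 * N := by rw [mul_assoc, hs1]
  have hsub : ((Icc 1 N).filter (fun n : ℕ => Even n ∧
      c₁ * ((N : ℝ) / Real.log N ^ 2) ≤ (repsIn A B n : ℝ))) ⊆
      ((Icc 1 N).filter (fun n : ℕ => Even n ∧
        c₁ / (4 * K) * ((n : ℝ) ^ 2 / ((n.totient : ℝ) * Real.log n ^ 2)) ≤ (repsIn A B n : ℝ))) ∪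
      (((Icc 1 N).filter (fun n : ℕ => K < (n : ℝ) / n.totient)) ∪ Icc 1 ⌊Real.sqrt N⌋₊) := by
    intro n hn
    obtain ⟨hn1, hn2, hn3⟩ := mem_filter.1 hn
    obtain ⟨ha, hb⟩ := mem_Icc.1 hn1
    rw [mem_union, mem_union]
    by_cases hk : K < (n : ℝ) / n.totient
    · exact Or.inr (Or.inl (mem_filter.2 ⟨hn1, hk⟩))
    · by_cases hs : (n : ℝ) < Real.sqrt N
      · exact Or.inr (Or.inr (mem_Icc.2 ⟨ha, Nat.le_floor hs.le⟩))
      · refine Or.inl (mem_filter.2 ⟨hn1, hn2, le_trans ?_ hn3⟩)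
        exact finB_pt c₁ K hc₁ hK1 N n ha hb (not_lt.1 hs) hN2 (not_lt.1 hk)
  have hcard := (card_le_card hsub).trans ((card_union_le _ _).trans
    (Nat.add_le_add_left (card_union_le _ _) _))
  rw [Nat.card_Icc, Nat.add_sub_cancel] at hcard
  have hcard' : (((Icc 1 N).filter (fun n : ℕ => Even n ∧
      c₁ * ((N : ℝ) / Real.log N ^ 2) ≤ (repsIn A B n : ℝ))).card : ℝ) ≤
      (((Icc 1 N).filter (fun n : ℕ => Even n ∧
        c₁ / (4 * K) * ((n : ℝ) ^ 2 / ((n.totient : ℝ) * Real.log n ^ 2)) ≤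
          (repsIn A B n : ℝ))).card : ℝ) +
      ((((Icc 1 N).filter (fun n : ℕ => K < (n : ℝ) / n.totient)).card : ℝ) +
        (⌊Real.sqrt N⌋₊ : ℝ)) := by
    exact_mod_cast hcard
  have hfl : (⌊Real.sqrt N⌋₊ : ℝ) ≤ Real.sqrt N := Nat.floor_le (Real.sqrt_nonneg _)
  have hm0 : (0 : ℝ) < primorial w := by exact_mod_cast primorial_pos w
  have hr1 : ((UM (primorial w) + S).card : ℝ) / primorial w ≤ 1 := by
    rw [div_le_one hm0]
    have h3 : (UM (primorial w) + S).card ≤ primorial w := by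
      refine (card_le_univ _).trans (le_of_eq ?_)
      exact ZMod.card (primorial w)
    exact_mod_cast h3
  have hr0 : 0 ≤ ((UM (primorial w) + S).card : ℝ) / primorial w := by positivity
  generalize ((UM (primorial w) + S).card : ℝ) / primorial w = r at h1 hr1 hr0 ⊢
  have h4 : ε / 2 * r * N ≤ ε / 2 * N := by
    have h5 : ε / 2 * r ≤ ε / 2 := by nlinarith
    exact mul_le_mul_of_nonneg_right h5 (by linarith)
  have h6 : (1 - ε / 2) * r * N = r * N - ε / 2 * r * N := by ring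
  have h7 : (r - ε) * N = r * N - ε * N := by ring
  rw [h6] at h1
  rw [h7]
  linarith

end Pool.Agent.Lib.MP_629a14_nt.Lx
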