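import Pool.Agent.Lib.MP_629a14_nt.Lx.Defs

/-! The inequalities `HH`: first part. -/

set_option autoImplicit false

namespace Pool.Agent.Lib.MP_629a14_nt.Lx

open Finset Filter Topology Pool.Agent.Lib.MP_629a14_nt Pool.Agent.Lib.MP_629a14_nt.Rob
  Pool.Agent.Lib.MP_629a14_nt.Sm

private theorem HA_T_le (s : ℝ) : (if 0 < s then (1 : ℝ) else 0) ≤ 1 := by
  split_ifs <;> norm_num

private theorem HA_T_nn (s : ℝ) : 0 ≤ (if 0 < s then (1 : ℝ) else 0) := by
  split_ifs <;> norm_num

private theorem HA_T_mono (s t : ℝ) (h : s ≤ t) :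
    (if 0 < s then (1 : ℝ) else 0) ≤ (if 0 < t then (1 : ℝ) else 0) := by
  by_cases hs : 0 < s
  · rw [if_pos hs, if_pos (lt_of_lt_of_le hs h)]
  · rw [if_neg hs]
    exact HA_T_nn t

/-- With `T s = 1` for `0 < s`, `T s = 0` otherwise. `i1`: if `0 < a` the left side is `0`; if `a = 0`
then `b = 0`. `i2`: `a = 0` is impossible (`1 ≤ 0`), so the left side is `0`; `T` is monotone. -/
theorem hh_base (N : ℝ) : HH (fun s => if 0 < s then 1 else 0) N := by
  constructor
  · simp
  · simp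
  · intro a b _ hab _
    exact HA_T_mono a b hab
  · intro n a b hn _ hb hba _
    show n * ((if 0 < a + (n - 1) * b then (1 : ℝ) else 0) - (if 0 < a then (1 : ℝ) else 0)) ≤
      (if 0 < b then (1 : ℝ) else 0)
    rcases lt_or_eq_of_le (hb.trans hba) with ha | ha
    · have h1 : (if 0 < a + (n - 1) * b then (1 : ℝ) else 0) - (if 0 < a then (1 : ℝ) else 0) ≤ 0 := by
        rw [if_pos ha]
        linarith [HA_T_le (a + (n - 1) * b)]
      have h2 : n * ((if 0 < a + (n - 1) * b then (1 : ℝ) else 0) -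
          (if 0 < a then (1 : ℝ) else 0)) ≤ 0 :=
        mul_nonpos_of_nonneg_of_nonpos (by linarith) h1
      exact h2.trans (HA_T_nn b)
    · have hb0 : b = 0 := le_antisymm (by rw [ha]; exact hba) hb
      rw [← ha, hb0]
      simp
  · intro n a b hn _ hb hba ha1 hab
    show n * (1 - (if 0 < a then (1 : ℝ) else 0)) ≤
      (if 0 < b then (1 : ℝ) else 0) - (if 0 < b - (1 - a) / (n - 1) then (1 : ℝ) else 0)
    rcases lt_or_eq_of_le (hb.trans hba) with ha | ha
    · rw [if_pos ha, sub_self, mul_zero, sub_nonneg]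
      apply HA_T_mono
      have : 0 ≤ (1 - a) / (n - 1) := div_nonneg (by linarith) (by linarith)
      linarith
    · exfalso
      have hb0 : b = 0 := le_antisymm (by rw [ha]; exact hba) hb
      rw [← ha, hb0, mul_zero] at hab
      linarith

theorem hh_weaken (g : ℝ → ℝ) (N N' : ℝ) (h : HH g N) (h' : N' ≤ N) : HH g N' := by
  exact ⟨h.g0, h.g1, h.mono, fun n a b h1 h2 => h.i1 n a b h1 (h2.trans h'),
    fun n a b h1 h2 => h.i2 n a b h1 (h2.trans h')⟩

private theorem HA_range (g : ℝ → ℝ) (N : ℝ) (h : HH g N) (s : ℝ) (h0 : 0 ≤ s) (h1 : s ≤ 1) :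
    0 ≤ g s ∧ g s ≤ 1 := by
  constructor
  · have := h.mono 0 s le_rfl h0 h1
    rwa [h.g0] at this
  · have := h.mono s 1 h0 h1 le_rfl
    rwa [h.g1] at this

/-- `g (u + v) ≤ g u + g v`: `i1` with `n = 2`. -/
theorem hh_sub (g : ℝ → ℝ) (N : ℝ) (h : HH g N) (hN : 2 ≤ N) (u v : ℝ) (hu : 0 ≤ u) (hv : 0 ≤ v)
    (huv : u + v ≤ 1) : g (u + v) ≤ g u + g v := by
  rcases le_total v u with hvu | hvu
  · have h1 := h.i1 2 u v (by norm_num) hN hv hvu (by linarith)
    have h2 : u + (2 - 1) * v = u + v := by ring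
    rw [h2] at h1
    have h3 := (HA_range g N h v hv (by linarith)).1
    linarith
  · have h1 := h.i1 2 v u (by norm_num) hN hu hvu (by linarith)
    have h2 : v + (2 - 1) * u = u + v := by ring
    rw [h2] at h1
    have h3 := (HA_range g N h u hu (by linarith)).1
    linarith

/-- `g 0 = 0 ≤ g s ≤ g 1 = 1`. -/
theorem hh_range (g : ℝ → ℝ) (N : ℝ) (h : HH g N) (s : ℝ) (h0 : 0 ≤ s) (h1 : s ≤ 1) :
    0 ≤ g s ∧ g s ≤ 1 := by
  exact HA_range g N h s h0 h1

theorem bb_zero (g : ℝ → ℝ) (N : ℝ) (h : HH g N) (hN : 1 < N) : bb N g 0 = 0 := by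
  unfold bb
  rw [if_pos (by positivity), mul_zero, h.g0, mul_zero]

theorem bb_one (g : ℝ → ℝ) (N : ℝ) (h : HH g N) (hN : 1 < N) : bb N g 1 = 1 := by
  unfold bb
  have h1 : ¬ (1 : ℝ) ≤ 1 / N := by
    rw [not_le, div_lt_one (by linarith)]
    exact hN
  rw [if_neg h1, mul_one, div_self (by linarith), h.g1]
  have : N + 1 ≠ 0 := by linarith
  field_simp

theorem bb_mono (g : ℝ → ℝ) (N : ℝ) (h : HH g N) (hN : 1 < N) (a b : ℝ) (ha : 0 ≤ a)
    (hab : a ≤ b) (hb : b ≤ 1) : bb N g a ≤ bb N g b := by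
  have hN0 : 0 < N := by linarith
  have hc1 : 0 ≤ N / (N + 1) := by positivity
  have hc2 : 0 ≤ 1 / (N + 1) := by positivity
  unfold bb
  by_cases hb1 : b ≤ 1 / N
  · rw [if_pos (hab.trans hb1), if_pos hb1]
    apply mul_le_mul_of_nonneg_left _ hc1
    apply h.mono _ _ (by positivity) (by nlinarith)
    rw [le_div_iff₀ hN0] at hb1
    linarith
  · have hb2 := not_le.1 hb1
    have hb3 : 1 < N * b := by
      rw [div_lt_iff₀ hN0] at hb2
      linarith
    have hb4 : (N * b - 1) / (N - 1) ≤ 1 := by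
      rw [div_le_one (by linarith)]
      nlinarith
    by_cases ha1 : a ≤ 1 / N
    · rw [if_pos ha1, if_neg hb1]
      have ha2 : N * a ≤ 1 := by
        rw [le_div_iff₀ hN0] at ha1
        linarith
      have h1 := (HA_range g N h (N * a) (by positivity) ha2).2
      have h2 := (HA_range g N h ((N * b - 1) / (N - 1))
        (div_nonneg (by linarith) (by linarith)) hb4).1
      have h3 : N / (N + 1) * g (N * a) ≤ N / (N + 1) * 1 := mul_le_mul_of_nonneg_left h1 hc1
      have h4 : 0 ≤ 1 / (N + 1) * g ((N * b - 1) / (N - 1)) := mul_nonneg hc2 h2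
      linarith
    · rw [if_neg ha1, if_neg hb1]
      have ha2 : 1 < N * a := by
        have := not_le.1 ha1
        rw [div_lt_iff₀ hN0] at this
        linarith
      have h1 := h.mono ((N * a - 1) / (N - 1)) ((N * b - 1) / (N - 1))
        (div_nonneg (by linarith) (by linarith))
        (div_le_div_of_nonneg_right (by nlinarith) (by linarith)) hb4
      have h2 := mul_le_mul_of_nonneg_left h1 hc2
      linarith

/-- At `s = 1 / N` both formulas agree: for `1 / N ≤ s` the second one holds. -/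
theorem bb_right (g : ℝ → ℝ) (N : ℝ) (h : HH g N) (hN : 1 < N) (s : ℝ) (hs : 1 / N ≤ s) :
    bb N g s = N / (N + 1) + 1 / (N + 1) * g ((N * s - 1) / (N - 1)) := by
  have hN0 : N ≠ 0 := by linarith
  unfold bb
  by_cases h1 : s ≤ 1 / N
  · have h2 : s = 1 / N := le_antisymm h1 hs
    rw [if_pos h1, h2, mul_one_div_cancel hN0, h.g1, sub_self, zero_div, h.g0, mul_one, mul_zero,
      add_zero]
  · rw [if_neg h1]

end Pool.Agent.Lib.MP_629a14_nt.Lx
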