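import Pool.Agent.Lib.MP_629a14_nt.Lx.HA

/-! The inequality `i1` for `bb N g`. -/

set_option autoImplicit false

namespace Pool.Agent.Lib.MP_629a14_nt.Lx

open Finset Filter Topology Pool.Agent.Lib.MP_629a14_nt Pool.Agent.Lib.MP_629a14_nt.Rob
  Pool.Agent.Lib.MP_629a14_nt.Sm

/-- Let `f = bb N g`, `s = a + (n - 1) b`, `x = 1 / N`. Multiply everything by `N + 1`.
Case `s ≤ x`: `i1` of `g` at `(N a, N b)`.
Case `x ≤ a` (`bb_right` for `a` and `s`): with `a2 = (N a - 1)/(N - 1)`,
`s2 = (N s - 1)/(N - 1) = a2 + (n - 1) N b/(N - 1)` one has to show `n (g s2 - g a2) ≤ (N + 1) f b`.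
If `x ≤ b`: `(N + 1) f b ≥ N ≥ n` and `g s2 - g a2 ≤ 1`. If `b < x`: `(N + 1) f b = N g (N b)`,
`g s2 - g a2 ≤ g ((n - 1) N b/(N - 1)) ≤ g (N b)` (`hh_sub`, `n ≤ N`).
Case `a < x < s`: `A = N a < 1`, `B = N b ≤ A`; to show
`n N (1 - g A) + n g s2 ≤ N g B` with `s2 = (A + (n - 1) B - 1)/(N - 1)`. `i2` of `g` with `N` in place
of `n` at `(A, l B)`, `l = (n - 1)/(N - 1) ≤ 1`: the condition `1 - A ≤ (N - 1) l B = (n - 1) B` is
`x < s`; it gives `N (1 - g A) ≤ g (l B) - g (l B - (1 - A)/(N - 1))` and
`l B - (1 - A)/(N - 1) = s2`. Multiply by `n`; `n g (l B) ≤ N g B`. -/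
theorem bb_i1 (g : ℝ → ℝ) (N : ℝ) (h : HH g N) (hN : 2 ≤ N) (n a b : ℝ) (hn : 1 ≤ n)
    (hnN : n ≤ N) (hb : 0 ≤ b) (hba : b ≤ a) (hs : a + (n - 1) * b ≤ 1) :
    n * (bb N g (a + (n - 1) * b) - bb N g a) ≤ bb N g b := by
  have hN1 : 1 < N := by linarith
  have hN0 : 0 < N := by linarith
  have hNm : 0 < N - 1 := by linarith
  have hNp : 0 < N + 1 := by linarith
  have hn0 : 0 < n := by linarith
  have hn1 : 0 ≤ n - 1 := by linarith
  have ha0 : 0 ≤ a := le_trans hb hba
  have hnb0 : 0 ≤ (n - 1) * b := mul_nonneg hn1 hb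
  obtain ⟨s, hsd⟩ : ∃ s, s = a + (n - 1) * b := ⟨_, rfl⟩
  rw [← hsd] at hs ⊢
  have has : a ≤ s := by rw [hsd]; linarith
  have hb1 : b ≤ 1 := by linarith
  rcases le_or_gt s (1 / N) with hsx | hsx
  · -- all three in the first regime
    have hax : a ≤ 1 / N := by linarith
    have hbx : b ≤ 1 / N := by linarith
    have fs : bb N g s = N / (N + 1) * g (N * s) := by unfold bb; rw [if_pos hsx]
    have fa : bb N g a = N / (N + 1) * g (N * a) := by unfold bb; rw [if_pos hax]
    have fb : bb N g b = N / (N + 1) * g (N * b) := by unfold bb; rw [if_pos hbx]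
    have hNs : N * s ≤ 1 := by
      have := hsx
      rw [le_div_iff₀ hN0] at this; linarith
    have hi := h.i1 n (N * a) (N * b) hn hnN (mul_nonneg hN0.le hb)
      (mul_le_mul_of_nonneg_left hba hN0.le) (by
        have : N * a + (n - 1) * (N * b) = N * s := by rw [hsd]; ring
        rw [this]; exact hNs)
    have e1 : N * a + (n - 1) * (N * b) = N * s := by rw [hsd]; ring
    rw [e1] at hi
    rw [fs, fa, fb]
    have hc : 0 ≤ N / (N + 1) := by positivity
    have := mul_le_mul_of_nonneg_left hi hc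
    linarith
  · obtain ⟨s2, hs2⟩ : ∃ s2, s2 = (N * s - 1) / (N - 1) := ⟨_, rfl⟩
    have hs2m : (N - 1) * s2 = N * s - 1 := by rw [hs2]; field_simp
    have hNs1 : 1 ≤ N * s := by
      have := hsx.le
      rw [div_le_iff₀ hN0] at this; linarith
    have hs20 : 0 ≤ s2 := by
      rw [hs2]; exact div_nonneg (by linarith) hNm.le
    have hs21 : s2 ≤ 1 := by
      rw [hs2, div_le_one hNm]; nlinarith
    have fs : bb N g s = N / (N + 1) + 1 / (N + 1) * g s2 := by
      rw [bb_right g N h hN1 s hsx.le, hs2]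
    have gs := hh_range g N h s2 hs20 hs21
    rcases le_or_gt (1 / N) a with hxa | hxa
    · obtain ⟨a2, ha2⟩ : ∃ a2, a2 = (N * a - 1) / (N - 1) := ⟨_, rfl⟩
      have ha2m : (N - 1) * a2 = N * a - 1 := by rw [ha2]; field_simp
      have hNa1 : 1 ≤ N * a := by
        have := hxa
        rw [div_le_iff₀ hN0] at this; linarith
      have ha20 : 0 ≤ a2 := by
        rw [ha2]; exact div_nonneg (by linarith) hNm.le
      have ha2s : a2 ≤ s2 := by
        have : (N - 1) * a2 ≤ (N - 1) * s2 := by
          rw [ha2m, hs2m]; nlinarith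
        exact le_of_mul_le_mul_left this hNm
      have fa : bb N g a = N / (N + 1) + 1 / (N + 1) * g a2 := by
        rw [bb_right g N h hN1 a hxa, ha2]
      have ga := hh_range g N h a2 ha20 (le_trans ha2s hs21)
      have e : n * (bb N g s - bb N g a) = n * (g s2 - g a2) / (N + 1) := by
        rw [fs, fa]; field_simp; ring
      rw [e]
      rcases le_or_gt (1 / N) b with hxb | hxb
      · -- f b >= N / (N + 1)
        have hNb1 : 1 ≤ N * b := by
          have := hxb
          rw [div_le_iff₀ hN0] at this; linarith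
        have hb20 : 0 ≤ (N * b - 1) / (N - 1) := div_nonneg (by linarith) hNm.le
        have hb21 : (N * b - 1) / (N - 1) ≤ 1 := by
          rw [div_le_one hNm]; nlinarith
        have gb := hh_range g N h _ hb20 hb21
        have fb : bb N g b = N / (N + 1) + 1 / (N + 1) * g ((N * b - 1) / (N - 1)) :=
          bb_right g N h hN1 b hxb
        have e2 : bb N g b = (N + g ((N * b - 1) / (N - 1))) / (N + 1) := by
          rw [fb]; field_simp
        rw [e2]
        apply div_le_div_of_nonneg_right _ hNp.le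
        have h1 : n * (g s2 - g a2) ≤ n * 1 :=
          mul_le_mul_of_nonneg_left (by linarith [gs.2, ga.1]) hn0.le
        linarith [gb.1]
      · have fb : bb N g b = N / (N + 1) * g (N * b) := by
          unfold bb; rw [if_pos hxb.le]
        have hNb : N * b ≤ 1 := by
          have := hxb.le
          rw [le_div_iff₀ hN0] at this; linarith
        have hNb0 : 0 ≤ N * b := mul_nonneg hN0.le hb
        have e2 : bb N g b = (N * g (N * b)) / (N + 1) := by
          rw [fb]; field_simp
        rw [e2]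
        apply div_le_div_of_nonneg_right _ hNp.le
        obtain ⟨w, hw⟩ : ∃ w, w = (n - 1) * (N * b) / (N - 1) := ⟨_, rfl⟩
        have hw0 : 0 ≤ w := by
          rw [hw]; exact div_nonneg (mul_nonneg hn1 hNb0) hNm.le
        have hwm : (N - 1) * w = (n - 1) * (N * b) := by rw [hw]; field_simp
        have hsum : a2 + w = s2 := by
          have : (N - 1) * (a2 + w) = (N - 1) * s2 := by
            rw [mul_add, ha2m, hwm, hs2m, hsd]; ring
          exact mul_left_cancel₀ hNm.ne' this
        have hsub := hh_sub g N h hN a2 w ha20 hw0 (by rw [hsum]; exact hs21)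
        rw [hsum] at hsub
        have hwB : w ≤ N * b := by
          rw [hw, div_le_iff₀ hNm]
          nlinarith
        have hm := h.mono w (N * b) hw0 hwB hNb
        have gB := hh_range g N h (N * b) hNb0 hNb
        have h1 : n * (g s2 - g a2) ≤ n * g (N * b) :=
          mul_le_mul_of_nonneg_left (by linarith) hn0.le
        have h2 : n * g (N * b) ≤ N * g (N * b) := mul_le_mul_of_nonneg_right hnN gB.1
        linarith
    · -- a < 1 / N < s
      have hbx : b < 1 / N := by linarith
      have fa : bb N g a = N / (N + 1) * g (N * a) := by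
        unfold bb; rw [if_pos hxa.le]
      have fb : bb N g b = N / (N + 1) * g (N * b) := by
        unfold bb; rw [if_pos hbx.le]
      obtain ⟨A, hA⟩ : ∃ A, A = N * a := ⟨_, rfl⟩
      obtain ⟨B, hB⟩ : ∃ B, B = N * b := ⟨_, rfl⟩
      have hA0 : 0 ≤ A := by rw [hA]; exact mul_nonneg hN0.le ha0
      have hB0 : 0 ≤ B := by rw [hB]; exact mul_nonneg hN0.le hb
      have hA1 : A ≤ 1 := by
        have := hxa.le
        rw [le_div_iff₀ hN0] at this
        rw [hA]; linarith
      have hBA : B ≤ A := by rw [hA, hB]; exact mul_le_mul_of_nonneg_left hba hN0.le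
      obtain ⟨l, hl⟩ : ∃ l, l = (n - 1) / (N - 1) := ⟨_, rfl⟩
      have hlm : (N - 1) * l = n - 1 := by rw [hl]; field_simp
      have hl0 : 0 ≤ l := by rw [hl]; exact div_nonneg hn1 hNm.le
      have hl1 : l ≤ 1 := by rw [hl, div_le_one hNm]; linarith
      have hlB0 : 0 ≤ l * B := mul_nonneg hl0 hB0
      have hlBB : l * B ≤ B := by nlinarith
      have hcond : 1 - A ≤ (N - 1) * (l * B) := by
        have e : (N - 1) * (l * B) = (n - 1) * B := by rw [← hlm]; ring
        rw [e]
        have : N * s = A + (n - 1) * B := by rw [hsd, hA, hB]; ring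
        linarith
      have hi := h.i2 N A (l * B) hN1 le_rfl hlB0 (by linarith) hA1 hcond
      have es2 : l * B - (1 - A) / (N - 1) = s2 := by
        have : (N - 1) * (l * B - (1 - A) / (N - 1)) = (N - 1) * s2 := by
          have e3 : (N - 1) * ((1 - A) / (N - 1)) = 1 - A := by field_simp
          have e4 : (N - 1) * (l * B) = (n - 1) * B := by rw [← hlm]; ring
          rw [mul_sub, e3, e4, hs2m, hsd, hA, hB]; ring
        exact mul_left_cancel₀ hNm.ne' this
      rw [es2] at hi
      have hm := h.mono (l * B) B hlB0 hlBB (by linarith)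
      have gB := hh_range g N h B hB0 (by linarith)
      have e : n * (bb N g s - bb N g a) = n * (N * (1 - g A) + g s2) / (N + 1) := by
        rw [fs, fa, hA]; field_simp; ring
      have e2 : bb N g b = (N * g B) / (N + 1) := by
        rw [fb, hB]; field_simp
      rw [e, e2]
      apply div_le_div_of_nonneg_right _ hNp.le
      have h1 : n * (N * (1 - g A) + g s2) ≤ n * g B :=
        mul_le_mul_of_nonneg_left (by linarith) hn0.le
      have h2 : n * g B ≤ N * g B := mul_le_mul_of_nonneg_right hnN gB.1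
      linarith

end Pool.Agent.Lib.MP_629a14_nt.Lx
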