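import Pool.Agent.Lib.MP_629a14_nt.Lx.HA

/-! The inequality `i2` for `bb N g`. -/

set_option autoImplicit false

namespace Pool.Agent.Lib.MP_629a14_nt.Lx

open Finset Filter Topology Pool.Agent.Lib.MP_629a14_nt Pool.Agent.Lib.MP_629a14_nt.Rob
  Pool.Agent.Lib.MP_629a14_nt.Sm

/-- Let `f = bb N g`, `v = (1 - a)/(n - 1) ≤ b`, `x = 1 / N`. Multiply everything by `N + 1`.
`1 - a ≤ (n - 1) b ≤ (n - 1) a` gives `1 ≤ n a ≤ N a`, so `x ≤ a` and
`(N + 1) (1 - f a) = 1 - g a2`, `a2 = (N a - 1)/(N - 1)`, `1 - a2 = (n - 1) v2`, `v2 = N v/(N - 1)`.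
Write `b2 = (N b - 1)/(N - 1)` (for `x ≤ b`; `b2 ≤ a2`).
(A1) `x ≤ b - v`: `(N + 1)(f b - f (b - v)) = g b2 - g (b2 - v2)`; `i2` of `g` at `(a2, b2)`, same `n`
(`v2 ≤ b2`).
(A2) `b - v < x ≤ b`: `c = N (b - v) < 1`; to show `n (1 - g a2) ≤ N (1 - g c) + g b2`. Let
`u = (1 - c)/(N - 1) ≥ 0`; `b2 = v2 - u`, so `a2 + (n - 1) b2 = 1 - (n - 1) u ≥ 1 - (N - 1) u = c`.
`i1` of `g` at `(a2, b2)`: `n (g (a2 + (n - 1) b2) - g a2) ≤ g b2`, hence `n (g c - g a2) ≤ g b2`; add
`n (1 - g c) ≤ N (1 - g c)`.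
(A3) `b < x`: `B = N b < 1`, `V = N v = (N - 1) v2 ≥ v2`, `V ≤ B`; to show
`n (1 - g a2) ≤ N (g B - g (B - V))`. If `B ≤ a2`: `i2` of `g` at `(a2, B)` (`1 - a2 = (n - 1) v2 ≤
(n - 1) B`), `g (B - V) ≤ g (B - v2)` and `1 ≤ N`. If `a2 < B`: first `n a2 ≥ 1`:
`1 - a ≤ (n - 1) b < (n - 1)/N` gives `a2 > (N - n)/(N - 1)` and `n (N - n) ≥ N - 1` as
`n + 1 ≤ N`. So `1 - a2 ≤ (n - 1) a2` and `i2` of `g` at `(a2, a2)`:
`n (1 - g a2) ≤ g a2 - g (a2 - v2)`; `g a2 ≤ g B`; `B - V ≤ 1 - (N - 1) v2 ≤ 1 - n v2 = a2 - v2`. -/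
theorem bb_i2 (g : ℝ → ℝ) (N : ℝ) (h : HH g N) (hN : 2 ≤ N) (n a b : ℝ) (hn : 1 < n)
    (hnN : n ≤ N - 1) (hb : 0 ≤ b) (hba : b ≤ a) (ha : a ≤ 1) (hs : 1 - a ≤ (n - 1) * b) :
    n * (1 - bb N g a) ≤ bb N g b - bb N g (b - (1 - a) / (n - 1)) := by
  have hN1 : 1 < N := by linarith
  have hN0 : 0 < N := by linarith
  have hNm : 0 < N - 1 := by linarith
  have hNp : 0 < N + 1 := by linarith
  have hn1 : 0 < n - 1 := by linarith
  have hn0 : 0 < n := by linarith
  have ha0 : 0 ≤ a := le_trans hb hba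
  obtain ⟨v, hv⟩ : ∃ v, v = (1 - a) / (n - 1) := ⟨_, rfl⟩
  rw [← hv]
  have hv1 : (n - 1) * v = 1 - a := by
    rw [hv]; field_simp
  have hv0 : 0 ≤ v := by
    rw [hv]; exact div_nonneg (by linarith) hn1.le
  have hvb : v ≤ b := by
    have : (n - 1) * v ≤ (n - 1) * b := by rw [hv1]; exact hs
    exact le_of_mul_le_mul_left this hn1
  have hna : 1 ≤ n * a := by nlinarith
  have hNa : 1 ≤ N * a := by nlinarith
  have hxa : 1 / N ≤ a := by
    rw [div_le_iff₀ hN0]; linarith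
  obtain ⟨a2, ha2⟩ : ∃ a2, a2 = (N * a - 1) / (N - 1) := ⟨_, rfl⟩
  obtain ⟨v2, hv2⟩ : ∃ v2, v2 = N * v / (N - 1) := ⟨_, rfl⟩
  have ha2m : (N - 1) * a2 = N * a - 1 := by rw [ha2]; field_simp
  have hv2m : (N - 1) * v2 = N * v := by rw [hv2]; field_simp
  have ha20 : 0 ≤ a2 := by
    rw [ha2]; exact div_nonneg (by linarith) hNm.le
  have ha21 : a2 ≤ 1 := by
    rw [ha2, div_le_one hNm]; nlinarith
  have hv20 : 0 ≤ v2 := by
    rw [hv2]; exact div_nonneg (mul_nonneg hN0.le hv0) hNm.le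
  have hav : 1 - a2 = (n - 1) * v2 := by
    have : (N - 1) * (1 - a2) = (N - 1) * ((n - 1) * v2) := by
      have e1 : (N - 1) * ((n - 1) * v2) = (n - 1) * (N * v) := by rw [← hv2m]; ring
      have e2 : (n - 1) * (N * v) = N * (1 - a) := by rw [← hv1]; ring
      rw [e1, e2, mul_sub, ha2m]; ring
    exact mul_left_cancel₀ hNm.ne' this
  have hdv : (1 - a2) / (n - 1) = v2 := by rw [hav]; field_simp
  have fa : bb N g a = N / (N + 1) + 1 / (N + 1) * g a2 := by
    rw [bb_right g N h hN1 a hxa, ha2]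
  have ga : 0 ≤ g a2 ∧ g a2 ≤ 1 := hh_range g N h a2 ha20 ha21
  have key : ∀ X : ℝ, n * (1 - g a2) ≤ X → n * (1 - bb N g a) ≤ X / (N + 1) := by
    intro X hX
    have e : n * (1 - bb N g a) = n * (1 - g a2) / (N + 1) := by
      rw [fa]; field_simp; ring
    rw [e]
    exact div_le_div_of_nonneg_right hX hNp.le
  rcases le_or_gt (1 / N) b with hxb | hxb
  · obtain ⟨b2, hb2⟩ : ∃ b2, b2 = (N * b - 1) / (N - 1) := ⟨_, rfl⟩
    have hb2m : (N - 1) * b2 = N * b - 1 := by rw [hb2]; field_simp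
    have hNb : 1 ≤ N * b := by
      have := hxb
      rw [div_le_iff₀ hN0] at this; linarith
    have hb20 : 0 ≤ b2 := by
      rw [hb2]; exact div_nonneg (by linarith) hNm.le
    have hb2a : b2 ≤ a2 := by
      have : (N - 1) * b2 ≤ (N - 1) * a2 := by rw [hb2m, ha2m]; nlinarith
      exact le_of_mul_le_mul_left this hNm
    have fb : bb N g b = N / (N + 1) + 1 / (N + 1) * g b2 := by
      rw [bb_right g N h hN1 b hxb, hb2]
    rcases le_or_gt (1 / N) (b - v) with hxv | hxv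
    · -- case A1
      have hNbv : 1 ≤ N * (b - v) := by
        have := hxv
        rw [div_le_iff₀ hN0] at this; linarith
      have ebv : (N * (b - v) - 1) / (N - 1) = b2 - v2 := by
        rw [hb2, hv2]; field_simp; ring
      have fbv : bb N g (b - v) = N / (N + 1) + 1 / (N + 1) * g (b2 - v2) := by
        rw [bb_right g N h hN1 (b - v) hxv, ebv]
      have hv2b2 : v2 ≤ b2 := by
        have : 0 ≤ b2 - v2 := by
          rw [← ebv]; exact div_nonneg (by linarith) hNm.le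
        linarith
      have hi := h.i2 n a2 b2 hn (by linarith) hb20 hb2a ha21
        (by rw [hav]; exact mul_le_mul_of_nonneg_left hv2b2 hn1.le)
      rw [hdv] at hi
      have e : bb N g b - bb N g (b - v) = (g b2 - g (b2 - v2)) / (N + 1) := by
        rw [fb, fbv]; field_simp; ring
      rw [e]
      exact key _ hi
    · -- case A2
      obtain ⟨c, hc⟩ : ∃ c, c = N * (b - v) := ⟨_, rfl⟩
      have hc0 : 0 ≤ c := by rw [hc]; exact mul_nonneg hN0.le (by linarith)
      have hc1 : c ≤ 1 := by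
        have := hxv.le
        rw [le_div_iff₀ hN0] at this
        rw [hc]; linarith
      have fbv : bb N g (b - v) = N / (N + 1) * g c := by
        unfold bb; rw [if_pos hxv.le, hc]
      obtain ⟨u, hu⟩ : ∃ u, u = (1 - c) / (N - 1) := ⟨_, rfl⟩
      have hum : (N - 1) * u = 1 - c := by rw [hu]; field_simp
      have hu0 : 0 ≤ u := by rw [hu]; exact div_nonneg (by linarith) hNm.le
      have hb2u : b2 = v2 - u := by
        have : (N - 1) * b2 = (N - 1) * (v2 - u) := by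
          rw [mul_sub, hum, hv2m, hb2m, hc]; ring
        exact mul_left_cancel₀ hNm.ne' this
      have hsum : a2 + (n - 1) * b2 = 1 - (n - 1) * u := by
        rw [hb2u]; linarith [hav]
      have hle1 : a2 + (n - 1) * b2 ≤ 1 := by
        rw [hsum]; nlinarith
      have hlec : c ≤ a2 + (n - 1) * b2 := by
        rw [hsum]; nlinarith
      have hi := h.i1 n a2 b2 hn.le (by linarith) hb20 hb2a hle1
      have hm := h.mono c (a2 + (n - 1) * b2) hc0 hlec hle1
      have gc := hh_range g N h c hc0 hc1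
      have e : bb N g b - bb N g (b - v) = (N + g b2 - N * g c) / (N + 1) := by
        rw [fb, fbv]; field_simp
      rw [e]
      apply key
      have h1 : n * g c ≤ n * g (a2 + (n - 1) * b2) := mul_le_mul_of_nonneg_left hm hn0.le
      have h2 : n * (1 - g c) ≤ N * (1 - g c) :=
        mul_le_mul_of_nonneg_right (by linarith) (by linarith [gc.2])
      nlinarith
  · -- case A3
    obtain ⟨B, hB⟩ : ∃ B, B = N * b := ⟨_, rfl⟩
    obtain ⟨V, hV⟩ : ∃ V, V = N * v := ⟨_, rfl⟩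
    have hB0 : 0 ≤ B := by rw [hB]; exact mul_nonneg hN0.le hb
    have hB1 : B < 1 := by
      have := hxb
      rw [lt_div_iff₀ hN0] at this
      rw [hB]; linarith
    have hVB : V ≤ B := by rw [hV, hB]; exact mul_le_mul_of_nonneg_left hvb hN0.le
    have hVv : V = (N - 1) * v2 := by rw [hv2m, hV]
    have hv2V : v2 ≤ V := by rw [hVv]; nlinarith
    have fb : bb N g b = N / (N + 1) * g B := by
      unfold bb; rw [if_pos hxb.le, hB]
    have fbv : bb N g (b - v) = N / (N + 1) * g (B - V) := by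
      unfold bb; rw [if_pos (by linarith), hB, hV, mul_sub]
    have e : bb N g b - bb N g (b - v) = (N * (g B - g (B - V))) / (N + 1) := by
      rw [fb, fbv]; field_simp
    rw [e]
    apply key
    have hBV : 0 ≤ B - V := by linarith
    have hmon : g (B - V) ≤ g B := h.mono _ _ hBV (by nlinarith [hv20, hVv, hNm]) hB1.le
    have hup : g B - g (B - V) ≤ N * (g B - g (B - V)) := by nlinarith
    rcases le_or_gt B a2 with hBa | hBa
    · have hi := h.i2 n a2 B hn (by linarith) hB0 hBa ha21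
        (by rw [hav]; exact mul_le_mul_of_nonneg_left (by linarith) hn1.le)
      rw [hdv] at hi
      have hm2 : g (B - V) ≤ g (B - v2) :=
        h.mono _ _ hBV (by linarith) (by linarith)
      linarith
    · have hbn : 1 - a < (n - 1) * (1 / N) :=
        lt_of_le_of_lt hs (mul_lt_mul_of_pos_left hxb hn1)
      have hbn2 : N * (1 - a) < n - 1 := by
        have h3 : N * (1 - a) < N * ((n - 1) * (1 / N)) := mul_lt_mul_of_pos_left hbn hN0
        have h4 : N * ((n - 1) * (1 / N)) = n - 1 := by field_simp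
        linarith
      have hna2 : 1 ≤ n * a2 := by
        have h5 : (N - 1) * (n * a2) = n * (N * a - 1) := by rw [← ha2m]; ring
        have h6 : (N - 1) * 1 ≤ (N - 1) * (n * a2) := by
          rw [h5]
          nlinarith [mul_nonneg hn1.le (by linarith : (0 : ℝ) ≤ N - 1 - n)]
        exact le_of_mul_le_mul_left h6 hNm
      have hi := h.i2 n a2 a2 hn (by linarith) ha20 le_rfl ha21 (by linarith)
      rw [hdv] at hi
      have hm3 : g a2 ≤ g B := h.mono _ _ ha20 hBa.le hB1.le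
      have hle : B - V ≤ a2 - v2 := by
        have : n * v2 ≤ (N - 1) * v2 := mul_le_mul_of_nonneg_right hnN hv20
        rw [hVv]; linarith
      have hm4 : g (B - V) ≤ g (a2 - v2) := h.mono _ _ hBV hle (by linarith)
      linarith

end Pool.Agent.Lib.MP_629a14_nt.Lx
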