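import Pool.Agent.Lib.MP_629a14_nt.Lx.Defs

/-! Facts on the odd primes and their products. -/

set_option autoImplicit false

namespace Pool.Agent.Lib.MP_629a14_nt.Lx

open Finset Filter Topology Pool.Agent.Lib.MP_629a14_nt Pool.Agent.Lib.MP_629a14_nt.Rob
  Pool.Agent.Lib.MP_629a14_nt.Sm

/-- `Nat.prime_nth_prime`. -/
theorem op_prime (j : ℕ) : (op j).Prime := Nat.prime_nth_prime (j + 1)

private theorem Ops_sm : StrictMono (Nat.nth Nat.Prime) :=
  Nat.nth_strictMono Nat.infinite_setOfPred_prime

/-- `Nat.nth_strictMono Nat.infinite_setOf_prime`. -/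
theorem op_lt (j : ℕ) : op j < op (j + 1) :=
  Ops_sm (Nat.lt_succ_self (j + 1))

private theorem Ops_nth_zero : 2 ≤ Nat.nth Nat.Prime 0 := (Nat.prime_nth_prime 0).two_le

private theorem Ops_op_zero : 3 ≤ op 0 := by
  have h1 : Nat.nth Nat.Prime 0 < Nat.nth Nat.Prime 1 :=
    Ops_sm Nat.zero_lt_one
  have h2 := Ops_nth_zero
  show 3 ≤ Nat.nth Nat.Prime 1
  omega

/-- `j + 3 ≤ op j`. -/
private theorem Ops_ge (j : ℕ) : j + 3 ≤ op j := by
  induction j with
  | zero => exact Ops_op_zero
  | succ j ih =>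
    have := op_lt j
    omega

/-- `op 0 = 3` (`Nat.nth Nat.Prime 1 = 3`, or simply: `2 = nth 0 < nth 1`). -/
theorem op_three (j : ℕ) : 3 ≤ op j := by
  have := Ops_ge j
  omega

theorem op_inj {i j : ℕ} (h : op i = op j) : i = j := by
  have h1 := (Ops_sm).injective h
  omega

/-- From `op_lt`. -/
theorem op_step (j : ℕ) : (op j : ℝ) - 1 ≤ ((op (j + 1) : ℝ) - 1) - 1 := by
  have h : op j + 1 ≤ op (j + 1) := op_lt j
  have h' : (op j : ℝ) + 1 ≤ (op (j + 1) : ℝ) := by exact_mod_cast h
  linarith

/-- `j + 3 ≤ op j`. -/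
theorem op_ge (j : ℕ) : j + 3 ≤ op j := Ops_ge j

theorem nth_ge (n : ℕ) : n ≤ Nat.nth Nat.Prime n :=
  (Ops_sm).le_apply

theorem mm_pos (n j : ℕ) : 0 < mm n j := by
  induction n generalizing j with
  | zero => exact Nat.two_pos
  | succ n ih => exact Nat.mul_pos (op_prime j).pos (ih (j + 1))

instance mm_neZero (n j : ℕ) : NeZero (mm n j) := ⟨(mm_pos n j).ne'⟩

private theorem Ops_lt_of_lt {i j : ℕ} (h : i < j) : op i < op j :=
  Ops_sm (by omega)

private theorem Ops_cop (n : ℕ) : ∀ i j : ℕ, i < j → Nat.Coprime (op i) (mm n j) := by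
  induction n with
  | zero =>
    intro i j _
    show Nat.Coprime (op i) 2
    rw [Nat.coprime_primes (op_prime i) Nat.prime_two]
    have := op_three i
    omega
  | succ n ih =>
    intro i j hij
    refine Nat.Coprime.mul_right ?_ (ih i (j + 1) (by omega))
    rw [Nat.coprime_primes (op_prime i) (op_prime j)]
    exact (Ops_lt_of_lt hij).ne

/-- The primes are different: induction on `n` for `op i` with `i < j` in place of `op j`. -/
theorem mm_cop (n j : ℕ) : Nat.Coprime (op j) (mm n (j + 1)) := Ops_cop n j (j + 1) (by omega)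

theorem op_dvd_mm (n j i : ℕ) (h : i < n) : op (j + i) ∣ mm n j := by
  induction n generalizing j i with
  | zero => omega
  | succ n ih =>
    show op (j + i) ∣ op j * mm n (j + 1)
    rcases i with _ | i
    · exact dvd_mul_right _ _
    · have h1 := ih (j + 1) i (by omega)
      have h2 : j + 1 + i = j + (i + 1) := by omega
      rw [h2] at h1
      exact h1.mul_left _

theorem two_dvd_mm (n j : ℕ) : 2 ∣ mm n j := by
  induction n generalizing j with
  | zero => exact dvd_refl 2
  | succ n ih => exact (ih (j + 1)).mul_left _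

private theorem Ops_mm_prod (n : ℕ) : ∀ j : ℕ, mm n j = 2 * ∏ i ∈ range n, op (j + i) := by
  induction n with
  | zero => intro j; simp [mm]
  | succ n ih =>
    intro j
    show op j * mm n (j + 1) = _
    rw [ih (j + 1), prod_range_succ', add_zero]
    have h : ∀ i ∈ range n, op (j + 1 + i) = op (j + (i + 1)) := fun i _ => by
      congr 1
      omega
    rw [prod_congr rfl h]
    ring

private theorem Ops_filter (n : ℕ) :
    (range (Nat.nth Nat.Prime n + 1)).filter Nat.Prime = (range (n + 1)).image (Nat.nth Nat.Prime) := by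
  ext q
  rw [mem_filter, mem_range, mem_image]
  constructor
  · rintro ⟨h1, h2⟩
    refine ⟨Nat.count Nat.Prime q, ?_, Nat.nth_count h2⟩
    rw [mem_range]
    by_contra hc
    rw [not_lt] at hc
    have h3 := Ops_sm (lt_of_lt_of_le (Nat.lt_succ_self n) hc)
    rw [Nat.nth_count h2] at h3
    omega
  · rintro ⟨i, hi, rfl⟩
    rw [mem_range] at hi
    refine ⟨?_, Nat.prime_nth_prime i⟩
    have := (Ops_sm).monotone (Nat.lt_succ_iff.1 hi)
    omega

/-- `primorial (nth n) = ∏ i ∈ range (n + 1), nth i`, by induction on `n`. -/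
theorem mm_prim (n : ℕ) : mm n 0 = primorial (Nat.nth Nat.Prime n) := by
  have h0 : Nat.nth Nat.Prime 0 = 2 := Nat.nth_prime_zero_eq_two
  rw [Ops_mm_prod, primorial, Ops_filter, prod_image
    ((Ops_sm).injective.injOn), prod_range_succ', h0, mul_comm]
  congr 1
  refine prod_congr rfl fun i _ => ?_
  rw [zero_add]
  rfl

/-- `ZMod.card_units_eq_totient`. -/
theorem UM_card (m : ℕ) [NeZero m] : (UM m).card = m.totient := by
  classical
  have h : UM m = (univ : Finset (ZMod m)ˣ).image Units.val := by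
    ext x
    unfold UM
    rw [mem_filter, mem_image]
    constructor
    · rintro ⟨-, u, hu⟩
      exact ⟨u, mem_univ _, hu⟩
    · rintro ⟨u, -, hu⟩
      exact ⟨mem_univ _, u, hu⟩
  rw [h, card_image_of_injective _ Units.val_injective, card_univ, ZMod.card_units_eq_totient]

end Pool.Agent.Lib.MP_629a14_nt.Lx
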