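import Pool.Agent.Lib.MP_629a14_nt.Lx.HB
import Pool.Agent.Lib.MP_629a14_nt.Lx.HC
import Pool.Agent.Lib.MP_629a14_nt.Lx.Ops

/-! `HH` for the functions `MM`, and the two-fibre inequality. -/

set_option autoImplicit false

namespace Pool.Agent.Lib.MP_629a14_nt.Lx

open Finset Filter Topology Pool.Agent.Lib.MP_629a14_nt Pool.Agent.Lib.MP_629a14_nt.Rob
  Pool.Agent.Lib.MP_629a14_nt.Sm

private theorem hd_op (j : ℕ) : (2 : ℝ) ≤ (op j : ℝ) - 1 := by
  have h : (3 : ℝ) ≤ (op j : ℝ) := by exact_mod_cast op_three j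
  linarith

/-- `bb_zero`, `bb_one`, `bb_mono`, `bb_i1`, `bb_i2`. -/
theorem hh_bb (g : ℝ → ℝ) (N : ℝ) (h : HH g N) (hN : 2 ≤ N) : HH (bb N g) (N - 1) :=
  ⟨bb_zero g N h (by linarith), bb_one g N h (by linarith), bb_mono g N h (by linarith),
    fun n a b hn hnN hb hba hs => bb_i1 g N h hN n a b hn (by linarith) hb hba hs,
    fun n a b hn hnN hb hba ha hs => bb_i2 g N h hN n a b hn hnN hb hba ha hs⟩

/-- Let `s = (a + (N - 1) b)/N`. If `s ≤ 1 / N`: `i1` of `g` with `n = N`. Otherwise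
`(N s - 1)/(N - 1) = b - (1 - a)/(N - 1)` and `i2` of `g` with `n = N`. -/
theorem star (g : ℝ → ℝ) (N : ℝ) (h : HH g N) (hN : 2 ≤ N) (a b : ℝ) (hb : 0 ≤ b) (hba : b ≤ a)
    (ha : a ≤ 1) :
    bb N g ((a + (N - 1) * b) / N) ≤ N / (N + 1) * g a + 1 / (N + 1) * g b := by
  have hN0 : 0 < N := by linarith
  have hN1 : 0 < N + 1 := by linarith
  have hNm : 0 < N - 1 := by linarith
  have hNs : N * ((a + (N - 1) * b) / N) = a + (N - 1) * b := by
    field_simp
  unfold bb
  split_ifs with hs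
  · rw [hNs]
    have hle : a + (N - 1) * b ≤ 1 := by
      rw [div_le_div_iff_of_pos_right hN0] at hs
      exact hs
    have h1 := h.i1 N a b (by linarith) le_rfl hb hba hle
    have h2 : N * g (a + (N - 1) * b) ≤ N * g a + g b := by linarith
    have h3 : N / (N + 1) * g (a + (N - 1) * b) = (N * g (a + (N - 1) * b)) / (N + 1) := by ring
    have h4 : N / (N + 1) * g a + 1 / (N + 1) * g b = (N * g a + g b) / (N + 1) := by ring
    rw [h3, h4]
    exact div_le_div_of_nonneg_right h2 hN1.le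
  · rw [hNs]
    have hlt : 1 < a + (N - 1) * b := by
      rw [div_le_div_iff_of_pos_right hN0] at hs
      exact not_le.1 hs
    have he : (a + (N - 1) * b - 1) / (N - 1) = b - (1 - a) / (N - 1) := by
      field_simp
      ring
    rw [he]
    have h1 := h.i2 N a b (by linarith) le_rfl hb hba ha (by linarith)
    have h2 : N + g (b - (1 - a) / (N - 1)) ≤ N * g a + g b := by linarith
    have h3 : N / (N + 1) + 1 / (N + 1) * g (b - (1 - a) / (N - 1)) =
        (N + g (b - (1 - a) / (N - 1))) / (N + 1) := by ring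
    have h4 : N / (N + 1) * g a + 1 / (N + 1) * g b = (N * g a + g b) / (N + 1) := by ring
    rw [h3, h4]
    exact div_le_div_of_nonneg_right h2 hN1.le

/-- Induction on `n`: `hh_base`; `hh_bb` for `N = op (j + 1) - 1`, then `hh_weaken`, `op_step`. -/
theorem hh_MM (n j : ℕ) : HH (MM n (j + 1)) ((op j : ℝ) - 1) := by
  induction n generalizing j with
  | zero => exact hh_base _
  | succ n ih =>
    have h1 := hh_bb (MM n (j + 1 + 1)) ((op (j + 1) : ℝ) - 1) (ih (j + 1)) (hd_op (j + 1))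
    exact hh_weaken _ _ _ h1 (op_step j)

theorem MM_zero (n j : ℕ) : MM n j 0 = 0 := by
  cases n with
  | zero => exact (hh_base 0).g0
  | succ n => exact bb_zero (MM n (j + 1)) ((op j : ℝ) - 1) (hh_MM n j) (by linarith [hd_op j])

theorem MM_one (n j : ℕ) : MM n j 1 = 1 := by
  cases n with
  | zero => exact (hh_base 0).g1
  | succ n => exact bb_one (MM n (j + 1)) ((op j : ℝ) - 1) (hh_MM n j) (by linarith [hd_op j])

theorem MM_mono (n j : ℕ) (a b : ℝ) (ha : 0 ≤ a) (hab : a ≤ b) (hb : b ≤ 1) :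
    MM n j a ≤ MM n j b := by
  cases n with
  | zero => exact (hh_base 0).mono a b ha hab hb
  | succ n =>
    exact bb_mono (MM n (j + 1)) ((op j : ℝ) - 1) (hh_MM n j) (by linarith [hd_op j]) a b ha hab hb

end Pool.Agent.Lib.MP_629a14_nt.Lx
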