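import Pool.Agent.Lib.MP_629a14_nt.Lx.Ops
import Pool.Agent.Lib.MP_629a14_nt.Sm.ProdC

/-! The isoperimetric inequality: Chinese remainder theorem. -/

set_option autoImplicit false

namespace Pool.Agent.Lib.MP_629a14_nt.Lx

open Finset Filter Topology Pool.Agent.Lib.MP_629a14_nt Pool.Agent.Lib.MP_629a14_nt.Rob
  Pool.Agent.Lib.MP_629a14_nt.Sm

open scoped Pointwise in
private theorem IsoB_equiv (G H : Type) [AddCommGroup G] [Fintype G] [DecidableEq G]
    [AddCommGroup H] [Fintype H] [DecidableEq H] (e : G ≃+ H) (U : Finset G) (V : Finset H)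
    (hUV : ∀ x, x ∈ U ↔ e x ∈ V) (C : ℝ) (g : ℝ → ℝ) (h : IsoP G U C g) : IsoP H V C g := by
  intro S hS
  have hVU : V.map e.symm.toEquiv.toEmbedding = U := by
    ext x
    rw [Finset.mem_map]
    constructor
    · rintro ⟨y, hy, rfl⟩
      rw [hUV]
      show e (e.symm y) ∈ V
      rw [AddEquiv.apply_symm_apply]
      exact hy
    · intro hx
      exact ⟨e x, (hUV x).1 hx, e.symm_apply_apply x⟩
  have hSU : S.map e.symm.toEquiv.toEmbedding ⊆ U := by
    rw [← hVU]
    exact Finset.map_subset_map.2 hS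
  have hadd : (V + S).map e.symm.toEquiv.toEmbedding =
      U + S.map e.symm.toEquiv.toEmbedding := by
    rw [← hVU]
    ext x
    rw [Finset.mem_map, Finset.mem_add]
    constructor
    · rintro ⟨y, hy, rfl⟩
      obtain ⟨a, ha, b, hb, rfl⟩ := Finset.mem_add.1 hy
      exact ⟨e.symm a, Finset.mem_map.2 ⟨a, ha, rfl⟩, e.symm b, Finset.mem_map.2 ⟨b, hb, rfl⟩,
        (map_add e.symm a b).symm⟩
    · rintro ⟨a', ha, b', hb, rfl⟩
      obtain ⟨a, ha1, rfl⟩ := Finset.mem_map.1 ha
      obtain ⟨b, hb1, rfl⟩ := Finset.mem_map.1 hb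
      exact ⟨a + b, Finset.add_mem_add ha1 hb1, map_add e.symm a b⟩
  have h1 := h _ hSU
  rw [← hadd, Finset.card_map, Finset.card_map] at h1
  have h2 : U.card = V.card := by rw [← hVU, Finset.card_map]
  have h3 : Fintype.card G = Fintype.card H := Fintype.card_congr e.toEquiv
  rw [h2, h3] at h1
  exact h1

open scoped Pointwise in
/-- Transport along `ZMod.chineseRemainder`: the units of `ZMod (p * m)` correspond to the pairs of a
nonzero element and a unit. See `good_coprime`, `good_equiv` in `Sm/ProdC.lean`, `Sm/ProdG.lean` for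
the same step. -/
theorem iso_crt (p m : ℕ) [Fact p.Prime] [NeZero m] [NeZero (p * m)] (hcop : Nat.Coprime p m)
    (C : ℝ) (g : ℝ → ℝ)
    (h : IsoP (ZMod p × ZMod m) ((univ.filter (fun x : ZMod p => x ≠ 0)) ×ˢ UM m) C g) :
    IsoP (ZMod (p * m)) (UM (p * m)) C g := by
  refine IsoB_equiv (ZMod p × ZMod m) (ZMod (p * m))
    (ZMod.chineseRemainder hcop).symm.toAddEquiv _ _ (fun x => ?_) C g h
  have hu : IsUnit ((ZMod.chineseRemainder hcop).symm x) ↔ IsUnit x :=
    MulEquiv.isUnit_map (ZMod.chineseRemainder hcop).symm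
  have h3 : (ZMod.chineseRemainder hcop).symm.toAddEquiv x =
      (ZMod.chineseRemainder hcop).symm x := rfl
  rw [h3]
  unfold UM
  simp only [mem_product, mem_filter, mem_univ, true_and]
  rw [hu, Prod.isUnit_iff, isUnit_iff_ne_zero (a := x.1)]

/-- `UM 2 = {1}`: `S = ∅` or `S = {1}`. -/
theorem iso_two (j : ℕ) : IsoP (ZMod 2) (UM 2) (1 / 2) (MM 0 j) := by
  intro S hS
  have hU : (UM 2).card = 1 := by
    rw [UM_card]
    rfl
  have hM : ∀ s : ℝ, MM 0 j s = if 0 < s then 1 else 0 := fun s => rfl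
  rw [hU, hM, ZMod.card]
  rcases S.eq_empty_or_nonempty with h0 | h0
  · rw [h0]
    simp
  · have h1 : 1 ≤ S.card := Finset.card_pos.2 h0
    have h2 : (1 : ℝ) ≤ S.card := by exact_mod_cast h1
    have h3 : (UM 2).Nonempty := by
      rw [← Finset.card_pos, hU]
      exact Nat.one_pos
    have h4 := Finset.card_pos.2 (h3.add h0)
    have h5 := (Nat.one_le_cast (α := ℝ)).2 h4
    rw [if_pos (by rw [Nat.cast_one, div_one]; linarith)]
    push_cast
    linarith

end Pool.Agent.Lib.MP_629a14_nt.Lx
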