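import Pool.Agent.Lib.MP_629a14_nt.Lx.IsoA
import Pool.Agent.Lib.MP_629a14_nt.Lx.IsoB

/-! The isoperimetric inequality. -/

set_option autoImplicit false

namespace Pool.Agent.Lib.MP_629a14_nt.Lx

open Finset Filter Topology Pool.Agent.Lib.MP_629a14_nt Pool.Agent.Lib.MP_629a14_nt.Rob
  Pool.Agent.Lib.MP_629a14_nt.Sm

private theorem UM_nonempty (m : ℕ) [NeZero m] : (UM m).Nonempty := by
  classical
  refine ⟨1, ?_⟩
  unfold UM
  simp

/-- Induction on `n`: `iso_two`; `iso_prod`, `iso_crt` with `p = op j`, `m = mm n (j + 1)`, `hh_MM`. -/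
theorem iso_mm (n j : ℕ) : IsoP (ZMod (mm n j)) (UM (mm n j)) (1 / 2) (MM n j) := by
  induction n generalizing j with
  | zero => exact iso_two j
  | succ n ih =>
    haveI : Fact (op j).Prime := ⟨op_prime j⟩
    haveI : NeZero (op j * mm n (j + 1)) :=
      ⟨Nat.mul_ne_zero (op_prime j).ne_zero (mm_pos n (j + 1)).ne'⟩
    have h1 := iso_prod (op j) (op_three j) (ZMod (mm n (j + 1))) (UM (mm n (j + 1)))
      (UM_nonempty _) (1 / 2) (by norm_num) (MM n (j + 1)) (hh_MM n j) (ih (j + 1))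
    exact iso_crt (op j) (mm n (j + 1)) (mm_cop n j) (1 / 2) _ h1

open scoped Pointwise in
private theorem iso_aux (n m : ℕ) [NeZero m] (hm : m = mm n 0) (S : Finset (ZMod m))
    (hS : S ⊆ UM m) :
    1 / 2 * MM n 0 ((S.card : ℝ) / m.totient) ≤ ((UM m + S).card : ℝ) / m := by
  subst hm
  have h := iso_mm n 0 S hS
  rw [UM_card, ZMod.card] at h
  have hpos : (0 : ℝ) < (mm n 0 : ℕ) := by exact_mod_cast mm_pos n 0
  rw [le_div_iff₀ hpos]
  exact h

open scoped Pointwise in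
/-- `iso_mm` for `j = 0`, `mm_prim`, `UM_card`. -/
theorem iso_prim (n w : ℕ) (hw : w = Nat.nth Nat.Prime n) (S : Finset (ZMod (primorial w)))
    (hS : S ⊆ UM (primorial w)) :
    1 / 2 * MM n 0 ((S.card : ℝ) / (primorial w).totient) ≤
      ((UM (primorial w) + S).card : ℝ) / primorial w := by
  refine iso_aux n (primorial w) ?_ S hS
  rw [hw, mm_prim]

end Pool.Agent.Lib.MP_629a14_nt.Lx
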