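import Pool.Agent.Lib.MP_629a14_nt.Lx.HD

/-! The isoperimetric inequality: one more prime. -/

set_option autoImplicit false

namespace Pool.Agent.Lib.MP_629a14_nt.Lx

open Finset Filter Topology Pool.Agent.Lib.MP_629a14_nt Pool.Agent.Lib.MP_629a14_nt.Rob
  Pool.Agent.Lib.MP_629a14_nt.Sm

open scoped Pointwise in
/-- Let `S ⊆ U_p × U'` (`U_p` the nonzero elements), `S y` the fibre over `y ∈ U_p` (a subset of `U'`).
Let `y₁` maximise `card (S y)` over `U_p`, `y₂` over `U_p \ {y₁}`. The fibre of `U + S` over `z ≠ y₁`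
contains `U' + S y₁` (`z - y₁ ≠ 0`), the fibre over `y₁` contains `U' + S y₂`. So with
`a = card (S y₁)/card U'`, `b = card (S y₂)/card U'`, `N = p - 1`:
`card (U + S) ≥ (p - 1) card (U' + S y₁) + card (U' + S y₂) ≥ C card G' ((p - 1) g a + g b)
 = C p card G' (N/(N+1) g a + 1/(N+1) g b)`, and `star`. `card S ≤ card (S y₁) + (p - 2) card (S y₂)`
and `bb_mono`. -/
theorem iso_prod (p : ℕ) [Fact p.Prime] (hp : 3 ≤ p) (G : Type) [AddCommGroup G] [Fintype G]
    [DecidableEq G] (U : Finset G) (hU : U.Nonempty) (C : ℝ) (hC : 0 ≤ C) (g : ℝ → ℝ)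
    (hg : HH g ((p : ℝ) - 1)) (h : IsoP G U C g) :
    IsoP (ZMod p × G) ((univ.filter (fun x : ZMod p => x ≠ 0)) ×ˢ U) C (bb ((p : ℝ) - 1) g) := by
  intro S hS
  set P : Finset (ZMod p) := univ.filter (fun x : ZMod p => x ≠ 0) with hP
  have hPcard : P.card = p - 1 := by
    rw [hP, Finset.filter_ne', Finset.card_erase_of_mem (mem_univ _), Finset.card_univ, ZMod.card]
  set F : ZMod p → Finset G := fun y => U.filter (fun u => (y, u) ∈ S) with hF
  have hFU : ∀ y, F y ⊆ U := fun y => filter_subset _ _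
  have hFmem : ∀ y u, u ∈ F y → (y, u) ∈ S := fun y u hu => (mem_filter.mp hu).2
  have hScard : S.card = ∑ y ∈ P, (F y).card := by
    rw [Finset.card_eq_sum_card_fiberwise (f := Prod.fst) (t := P)
      (fun x hx => (mem_product.mp (hS hx)).1)]
    refine sum_congr rfl fun y hy => ?_
    symm
    refine Finset.card_bij (fun u _ => (y, u)) ?_ ?_ ?_
    · intro u hu
      exact mem_filter.mpr ⟨hFmem y u hu, rfl⟩
    · intro u _ v _ huv
      exact (Prod.mk.inj huv).2
    · rintro ⟨x, u⟩ hx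
      obtain ⟨hx1, hx2⟩ := mem_filter.mp hx
      have hx3 : x = y := hx2
      subst hx3
      exact ⟨u, mem_filter.mpr ⟨(mem_product.mp (hS hx1)).2, hx1⟩, rfl⟩
  have hPne : P.Nonempty := by
    rw [← Finset.card_pos, hPcard]; omega
  obtain ⟨y₁, hy₁, hmax₁⟩ := Finset.exists_max_image P (fun y => (F y).card) hPne
  have hP2card : (P.erase y₁).card = p - 2 := by
    rw [Finset.card_erase_of_mem hy₁, hPcard]; omega
  have hPne2 : (P.erase y₁).Nonempty := by
    rw [← Finset.card_pos, hP2card]; omega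
  obtain ⟨y₂, hy₂, hmax₂⟩ := Finset.exists_max_image (P.erase y₁) (fun y => (F y).card) hPne2
  obtain ⟨hy₂₁, hy₂P⟩ := mem_erase.mp hy₂
  have hb1 : (F y₂).card ≤ (F y₁).card := hmax₁ y₂ hy₂P
  have hsum : S.card ≤ (F y₁).card + (p - 2) * (F y₂).card := by
    rw [hScard, ← Finset.add_sum_erase P _ hy₁]
    refine Nat.add_le_add_left ?_ _
    calc ∑ y ∈ P.erase y₁, (F y).card ≤ ∑ _y ∈ P.erase y₁, (F y₂).card :=
          sum_le_sum fun y hy => hmax₂ y hy
      _ = (p - 2) * (F y₂).card := by rw [sum_const, hP2card, smul_eq_mul]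
  -- the sum set
  have hsub : ((univ.erase y₁) ×ˢ (U + F y₁)) ∪ ({y₁} ×ˢ (U + F y₂)) ⊆ (P ×ˢ U) + S := by
    intro z hz
    rcases mem_union.mp hz with hz | hz
    · obtain ⟨hz1, hz2⟩ := mem_product.mp hz
      obtain ⟨u, hu, v, hv, huv⟩ := Finset.mem_add.mp hz2
      refine Finset.mem_add.mpr ⟨(z.1 - y₁, u), ?_, (y₁, v), hFmem y₁ v hv, ?_⟩
      · refine mem_product.mpr ⟨mem_filter.mpr ⟨mem_univ _, ?_⟩, hu⟩
        exact sub_ne_zero.mpr (mem_erase.mp hz1).1
      · ext
        · simp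
        · simpa using huv
    · obtain ⟨hz1, hz2⟩ := mem_product.mp hz
      obtain ⟨u, hu, v, hv, huv⟩ := Finset.mem_add.mp hz2
      refine Finset.mem_add.mpr ⟨(z.1 - y₂, u), ?_, (y₂, v), hFmem y₂ v hv, ?_⟩
      · refine mem_product.mpr ⟨mem_filter.mpr ⟨mem_univ _, ?_⟩, hu⟩
        rw [mem_singleton.mp hz1]
        exact sub_ne_zero.mpr (Ne.symm hy₂₁)
      · ext
        · simp
        · simpa using huv
  have hdisj : Disjoint ((univ.erase y₁) ×ˢ (U + F y₁)) (({y₁} : Finset (ZMod p)) ×ˢ (U + F y₂)) := by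
    rw [Finset.disjoint_left]
    intro z hz hz'
    exact (mem_erase.mp (mem_product.mp hz).1).1 (mem_singleton.mp (mem_product.mp hz').1)
  have hcard : (p - 1) * (U + F y₁).card + (U + F y₂).card ≤ ((P ×ˢ U) + S).card := by
    have h1 := Finset.card_le_card hsub
    rw [Finset.card_union_of_disjoint hdisj, Finset.card_product, Finset.card_product,
      Finset.card_erase_of_mem (mem_univ _), Finset.card_univ, ZMod.card, Finset.card_singleton,
      one_mul] at h1
    exact h1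
  have hi1 := h (F y₁) (hFU y₁)
  have hi2 := h (F y₂) (hFU y₂)
  have hUc : (0 : ℝ) < U.card := by exact_mod_cast hU.card_pos
  have hpR : (3 : ℝ) ≤ p := by exact_mod_cast hp
  set a : ℝ := ((F y₁).card : ℝ) / U.card with ha
  set b : ℝ := ((F y₂).card : ℝ) / U.card with hb
  have hb0 : 0 ≤ b := by positivity
  have hba : b ≤ a := by
    rw [ha, hb]
    have : ((F y₂).card : ℝ) ≤ (F y₁).card := by exact_mod_cast hb1
    gcongr
  have ha1 : a ≤ 1 := by
    rw [ha, div_le_one hUc]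
    exact_mod_cast Finset.card_le_card (hFU y₁)
  have hst := star g ((p : ℝ) - 1) hg (by linarith) a b hb0 hba ha1
  have hp1 : ((p - 1 : ℕ) : ℝ) = (p : ℝ) - 1 := by
    rw [Nat.cast_sub (by omega)]; simp
  have hp2 : ((p - 2 : ℕ) : ℝ) = (p : ℝ) - 2 := by
    rw [Nat.cast_sub (by omega)]; simp
  have hfrac : (S.card : ℝ) / ((P ×ˢ U).card : ℝ) ≤ (a + (((p : ℝ) - 1) - 1) * b) / ((p : ℝ) - 1) := by
    rw [Finset.card_product, hPcard]
    push_cast
    rw [hp1, ha, hb]
    have hsumR : (S.card : ℝ) ≤ (F y₁).card + ((p : ℝ) - 2) * (F y₂).card := by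
      have : ((S.card : ℕ) : ℝ) ≤ (((F y₁).card + (p - 2) * (F y₂).card : ℕ) : ℝ) := by
        exact_mod_cast hsum
      push_cast at this
      rw [hp2] at this
      exact this
    have hN : (0 : ℝ) < (p : ℝ) - 1 := by linarith
    have e : (((F y₁).card : ℝ) / U.card + (((p : ℝ) - 1) - 1) * (((F y₂).card : ℝ) / U.card)) /
        ((p : ℝ) - 1) = (((F y₁).card : ℝ) + ((p : ℝ) - 2) * (F y₂).card) / (((p : ℝ) - 1) * U.card) := by
      field_simp
      ring
    rw [e]
    gcongr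
  have hs0 : (0 : ℝ) ≤ (S.card : ℝ) / ((P ×ˢ U).card : ℝ) := by positivity
  have hs1 : (a + (((p : ℝ) - 1) - 1) * b) / ((p : ℝ) - 1) ≤ 1 := by
    rw [div_le_one (by linarith)]
    nlinarith
  have hmono := bb_mono g ((p : ℝ) - 1) hg (by linarith) _ _ hs0 hfrac hs1
  have hG : (0 : ℝ) ≤ Fintype.card G := by positivity
  have hcardR : ((p : ℝ) - 1) * ((U + F y₁).card : ℝ) + ((U + F y₂).card : ℝ) ≤
      (((P ×ˢ U) + S).card : ℝ) := by
    have : (((p - 1) * (U + F y₁).card + (U + F y₂).card : ℕ) : ℝ) ≤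
      ((((P ×ˢ U) + S).card : ℕ) : ℝ) := by exact_mod_cast hcard
    push_cast at this
    rw [hp1] at this
    exact this
  have hcp : (Fintype.card (ZMod p × G) : ℝ) = (p : ℝ) * Fintype.card G := by
    rw [Fintype.card_prod, ZMod.card]; push_cast; ring
  rw [hcp]
  have hp0 : (0 : ℝ) < p := by linarith
  calc C * bb ((p : ℝ) - 1) g ((S.card : ℝ) / ((P ×ˢ U).card : ℝ)) * ((p : ℝ) * Fintype.card G)
      ≤ C * (((p : ℝ) - 1) / (((p : ℝ) - 1) + 1) * g a + 1 / (((p : ℝ) - 1) + 1) * g b) *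
        ((p : ℝ) * Fintype.card G) := by
        have := hmono.trans hst
        gcongr
    _ = ((p : ℝ) - 1) * (C * g a * Fintype.card G) + C * g b * Fintype.card G := by
        rw [sub_add_cancel]
        field_simp
    _ ≤ ((p : ℝ) - 1) * ((U + F y₁).card : ℝ) + ((U + F y₂).card : ℝ) := by
        have hN : (0 : ℝ) ≤ (p : ℝ) - 1 := by linarith
        gcongr
    _ ≤ _ := hcardR

end Pool.Agent.Lib.MP_629a14_nt.Lx
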