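import Pool.Agent.Lib.MP_629a14_nt.Lx.FinB
import Pool.Agent.Lib.MP_629a14_nt.Lx.Iso
import Pool.Agent.Lib.MP_629a14_nt.Lx.DensF
import Pool.Agent.Lib.MP_629a14_nt.Lx.DensG
import Pool.Agent.Lib.MP_629a14_nt.Lx.Kap

/-! The lower bound for lower densities. -/

set_option autoImplicit false

namespace Pool.Agent.Lib.MP_629a14_nt.Lx

open Finset Filter Topology Pool.Agent.Lib.MP_629a14_nt Pool.Agent.Lib.MP_629a14_nt.Rob
  Pool.Agent.Lib.MP_629a14_nt.Sm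

private theorem low_cntB_le (A : Set ℕ) (x : ℕ) : cntB A x ≤ cntB Set.univ x := by
  classical
  unfold cntB
  refine card_le_card fun p hp => ?_
  simp only [mem_filter] at hp ⊢
  exact ⟨hp.1, hp.2.1, Set.mem_univ _⟩

private theorem low_quot (A : Set ℕ) (x : ℕ) :
    0 ≤ (cntB A x : ℝ) / cntB Set.univ x ∧ (cntB A x : ℝ) / cntB Set.univ x ≤ 1 :=
  ⟨by positivity, div_le_one_of_le₀ (by exact_mod_cast low_cntB_le A x) (Nat.cast_nonneg _)⟩

private theorem low_ev (A : Set ℕ) (t : ℝ) (ht : 0 < t) :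
    ∀ᶠ x : ℕ in atTop, relLow A - t < (cntB A x : ℝ) / cntB Set.univ x := by
  have hb : IsBoundedUnder (· ≥ ·) atTop (fun x : ℕ => (cntB A x : ℝ) / cntB Set.univ x) :=
    isBoundedUnder_of ⟨0, fun x => (low_quot A x).1⟩
  refine eventually_lt_of_lt_liminf ?_ hb
  show relLow A - t < relLow A
  linarith

/-- Choose `η ≤ 1` with `7 η ≤ β - relLow (heavy t)`, `w₀` from `finB (ε/4) η` (`ε ≤ 1` without loss), `n`
with `w₀ ≤ nth n = w` (`nth_ge`) and `∏ max (uG i) (1 - uG i) ≤ ε/2` (`kapG`), `c, δ, ρ', N₀` from `finB`,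
`ρ = ρ'/2`. For large `N`: `cntB A N/cntB univ N ≥ 1 - ρ'`, `cntB B ⌊δN⌋/cntB univ ⌊δN⌋ ≥ β - η` (liminf), so
`card S/φ ≥ β - 7 η ≥ relLow (heavy t) ≥ WW uF n 0 t` (`heavy_low`), `card S/φ ≤ 1`;
`card (UM + S)/m ≥ 1/2 MM n 0 (card S/φ) ≥ 1/2 MM n 0 (WW uF n 0 t) = 1/2 WW uG n 0 t` (`iso_prim`,
`MM_mono`, `MM_WW`) and `WW uG n 0 t ≥ WW uG n 0 (t - (1/2)^n) - ε/2 ≥ 2 dlow (light t) - ε/2` (`WW_gap`,
`light_up`). See `rich_ge` in `Sm/LimA.lean` for the passage to the lower densities. -/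
theorem low (t β ε : ℝ) (h : relLow (heavy t) < β) (hε : 0 < ε) : ∃ c : ℝ, 0 < c ∧
    ∃ ρ : ℝ, 0 < ρ ∧ ∀ A B : Set ℕ, 1 - ρ ≤ relLow A → β ≤ relLow B →
      dlow (light t) - ε ≤ rich c A B := by
  classical
  set e : ℝ := min ε 1 with he
  have he0 : 0 < e := lt_min hε one_pos
  have he1 : e ≤ 1 := min_le_right _ _
  have heε : e ≤ ε := min_le_left _ _
  set η : ℝ := min 1 ((β - relLow (heavy t)) / 7) with hη
  have hη0 : 0 < η := lt_min one_pos (by linarith)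
  have hη1 : η ≤ 1 := min_le_left _ _
  have hη7 : 7 * η ≤ β - relLow (heavy t) := by
    have : η ≤ (β - relLow (heavy t)) / 7 := min_le_right _ _
    linarith
  obtain ⟨w₀, hw₀⟩ := finB (e / 4) η (by linarith) (by linarith) hη0 hη1
  have hk : ∀ᶠ n : ℕ in atTop, ∏ i ∈ range n, max (uG (0 + i)) (1 - uG (0 + i)) < e / 2 :=
    kapG.eventually (gt_mem_nhds (by linarith))
  obtain ⟨n, hn1, hn2⟩ := (hk.and (eventually_ge_atTop w₀)).exists
  obtain ⟨c, hc, δ, hδ, hδ1, ρ, hρ, N₀, hN⟩ := hw₀ (Nat.nth Nat.Prime n) (hn2.trans (nth_ge n))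
  refine ⟨c, hc, ρ / 2, by linarith, fun A B hA hB => ?_⟩
  have hfloor : Tendsto (fun N : ℕ => ⌊δ * N⌋₊) atTop atTop :=
    tendsto_nat_floor_atTop.comp (Tendsto.const_mul_atTop hδ tendsto_natCast_atTop_atTop)
  have hu1 : IsBoundedUnder (· ≤ ·) atTop (fun N : ℕ => (((Icc 1 N).filter (fun n : ℕ => Even n ∧
      c * ((n : ℝ) ^ 2 / ((n.totient : ℝ) * Real.log n ^ 2)) ≤ (repsIn A B n : ℝ))).card : ℝ) / N) := by
    refine isBoundedUnder_of ⟨1, fun N => ?_⟩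
    refine div_le_one_of_le₀ ?_ (Nat.cast_nonneg _)
    have h1 := card_filter_le (Icc 1 N) (fun n : ℕ => Even n ∧
      c * ((n : ℝ) ^ 2 / ((n.totient : ℝ) * Real.log n ^ 2)) ≤ (repsIn A B n : ℝ))
    rw [Nat.card_Icc, Nat.add_sub_cancel] at h1
    exact_mod_cast h1
  unfold rich
  refine le_liminf_of_le hu1.isCoboundedUnder_ge ?_
  filter_upwards [low_ev A (ρ / 2) (by linarith), hfloor.eventually (low_ev B η hη0),
    eventually_ge_atTop N₀, eventually_ge_atTop 1] with N h1 h2 h3 h4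
  have hN1 : (0 : ℝ) < N := by exact_mod_cast h4
  obtain ⟨S, hSU, hSc, hcard⟩ := hN N h3 A B (by linarith)
  rw [le_div_iff₀ hN1]
  have hφ : (0 : ℝ) < ((primorial (Nat.nth Nat.Prime n)).totient : ℝ) := by
    exact_mod_cast Nat.totient_pos.2 (primorial_pos _)
  have huF : ∀ j, 0 ≤ uF j ∧ uF j ≤ 1 := fun j =>
    ⟨(uF_range j).1.le, (uF_range j).2.trans (by norm_num)⟩
  have huG : ∀ j, 0 ≤ uG j ∧ uG j ≤ 1 := fun j =>
    ⟨le_trans (by norm_num) (uG_range j).1, (uG_range j).2.le⟩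
  have hS1 : WW uF n 0 t ≤ (S.card : ℝ) / (primorial (Nat.nth Nat.Prime n)).totient := by
    rw [le_div_iff₀ hφ]
    refine le_trans ?_ hSc
    refine mul_le_mul_of_nonneg_right ?_ hφ.le
    have h5 := heavy_low n t
    linarith
  have hS2 : (S.card : ℝ) / (primorial (Nat.nth Nat.Prime n)).totient ≤ 1 := by
    refine div_le_one_of_le₀ ?_ hφ.le
    have h5 := card_le_card hSU
    rw [UM_card] at h5
    exact_mod_cast h5
  have h6 := iso_prim n _ rfl S hSU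
  have h7 := MM_mono n 0 _ _ (WW_range uF huF n 0 t).1 hS1 hS2
  rw [MM_WW] at h7
  have h8 := WW_gap uG huG n 0 t
  have h9 := light_up n t
  refine le_trans ?_ hcard
  refine mul_le_mul_of_nonneg_right ?_ hN1.le
  linarith

end Pool.Agent.Lib.MP_629a14_nt.Lx
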