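import Pool.Agent.Lib.MP_629a14_nt.Lx.DensG
import Pool.Agent.Lib.MP_629a14_nt.Sm.Cnt

/-! The sums of the primes and `heavy t`: upper bound. -/

set_option autoImplicit false

namespace Pool.Agent.Lib.MP_629a14_nt.Lx

open Finset Filter Topology Pool.Agent.Lib.MP_629a14_nt Pool.Agent.Lib.MP_629a14_nt.Rob
  Pool.Agent.Lib.MP_629a14_nt.Sm

/-- `cnt_univ`: the number of primes up to `N` is at most `2 N / log N`. -/
theorem prime_zero : Tendsto (fun N : ℕ => (cntB Set.univ N : ℝ) / N) atTop (𝓝 0) := by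
  obtain ⟨N₀, hN₀⟩ := cnt_univ 1 one_pos
  have hlog : Tendsto (fun N : ℕ => Real.log (N : ℝ)) atTop atTop :=
    Real.tendsto_log_atTop.comp tendsto_natCast_atTop_atTop
  have h2 : Tendsto (fun N : ℕ => 2 / Real.log (N : ℝ)) atTop (𝓝 0) :=
    tendsto_const_nhds.div_atTop hlog
  refine squeeze_zero' (Eventually.of_forall fun N => by positivity) ?_ h2
  filter_upwards [eventually_ge_atTop (max N₀ 3)] with N hN
  have hN1 : N₀ ≤ N := (le_max_left _ _).trans hN
  have hN3 : 3 ≤ N := (le_max_right _ _).trans hN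
  have hNr : (3 : ℝ) ≤ N := by exact_mod_cast hN3
  have hl : 0 < Real.log (N : ℝ) := Real.log_pos (by linarith)
  have h3 := (abs_le.1 (hN₀ N hN1 N le_rfl)).2
  rw [div_le_div_iff₀ (by linarith) hl]
  linarith

open Classical in
/-- Let `n ≤ N` be a sum `p + b`, `b ∈ heavy t`, not of the form `2 + prime`, `prime + 2` or
`op j + prime` with `j < n₀`. Then `p`, `b` are odd, `n` is even and `xi_add` gives
`xin n₀ 0 n ≤ xi n ≤ 1 - t + (1/2)^(n₀+1) ≤ 1 - (1/2)^n₀ - (t - 2 (1/2)^n₀)`. The number of exceptions is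
at most `(n₀ + 2) cntB univ N`. -/
theorem sum_cnt (n₀ : ℕ) (t : ℝ) (N : ℕ) :
    (((Icc 1 N).filter (fun n : ℕ => 0 < repsIn Set.univ (heavy t) n)).card : ℝ) ≤
      (((Icc 1 N).filter (fun k : ℕ => Even k ∧
        xin n₀ 0 k ≤ 1 - (1 / 2) ^ n₀ - (t - 2 * (1 / 2) ^ n₀))).card : ℝ) +
        (n₀ + 2) * cntB Set.univ N := by
  set E : ℕ → Finset ℕ := fun q => (Icc 1 N).filter (fun n : ℕ => q ≤ n ∧ (n - q).Prime) with hE
  have hEc : ∀ q, (E q).card ≤ cntB Set.univ N := by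
    intro q
    unfold cntB
    refine card_le_card_of_injOn (fun n => n - q) ?_ ?_
    · intro n hn
      simp only [hE, coe_filter, mem_Icc, Set.mem_ofPred_eq] at hn ⊢
      refine ⟨⟨hn.2.2.one_lt.le, by omega⟩, hn.2.2, Set.mem_univ _⟩
    · intro a ha b hb hab
      simp only [hE, coe_filter, mem_Icc, Set.mem_ofPred_eq] at ha hb
      simp only at hab
      omega
  have hsub : (Icc 1 N).filter (fun n : ℕ => 0 < repsIn Set.univ (heavy t) n) ⊆
      (Icc 1 N).filter (fun k : ℕ => Even k ∧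
        xin n₀ 0 k ≤ 1 - (1 / 2) ^ n₀ - (t - 2 * (1 / 2) ^ n₀)) ∪
        (E 2 ∪ (range n₀).biUnion fun j => E (op j)) := by
    intro n hn
    rw [mem_filter] at hn
    obtain ⟨hnN, hpos⟩ := hn
    unfold repsIn at hpos
    obtain ⟨p, hp⟩ := card_pos.1 hpos
    simp only [mem_filter, mem_range] at hp
    obtain ⟨hpn, hpp, hbp, -, hb⟩ := hp
    have hb' : t ≤ xi (n - p) := hb
    have hnp : p + (n - p) = n := by omega
    rw [mem_union, mem_union, mem_biUnion]
    by_cases h1 : p = 2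
    · refine Or.inr (Or.inl ?_)
      rw [hE, mem_filter]
      refine ⟨hnN, by omega, ?_⟩
      rw [← h1]
      exact hbp
    by_cases h2 : n - p = 2
    · refine Or.inr (Or.inl ?_)
      rw [hE, mem_filter]
      refine ⟨hnN, by omega, ?_⟩
      have : n - 2 = p := by omega
      rw [this]
      exact hpp
    by_cases h3 : ∃ j, j < n₀ ∧ op j = p
    · obtain ⟨j, hj, hjp⟩ := h3
      refine Or.inr (Or.inr ⟨j, mem_range.2 hj, ?_⟩)
      rw [hE, mem_filter]
      refine ⟨hnN, by omega, ?_⟩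
      rw [hjp]
      exact hbp
    refine Or.inl ?_
    rw [mem_filter]
    refine ⟨hnN, ?_, ?_⟩
    · rw [← hnp]
      exact (hpp.odd_of_ne_two h1).add_odd (hbp.odd_of_ne_two h2)
    · have h4 := xi_add p (n - p) n₀ hpp fun j hj hjp => h3 ⟨j, hj, hjp⟩
      rw [hnp] at h4
      have h5 := xin_le_xi n₀ n
      have h6 : ((1 : ℝ) / 2) ^ (n₀ + 1) ≤ (1 / 2) ^ n₀ :=
        pow_le_pow_of_le_one (by norm_num) (by norm_num) (Nat.le_succ n₀)
      linarith
  have h7 : ((range n₀).biUnion fun j => E (op j)).card ≤ n₀ * cntB Set.univ N := by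
    refine card_biUnion_le.trans ?_
    calc ∑ j ∈ range n₀, (E (op j)).card ≤ ∑ _j ∈ range n₀, cntB Set.univ N :=
          sum_le_sum fun j _ => hEc (op j)
      _ = n₀ * cntB Set.univ N := by rw [sum_const, card_range, smul_eq_mul]
  have h8 := (card_le_card hsub).trans ((card_union_le _ _).trans
    (Nat.add_le_add_left ((card_union_le _ _).trans (Nat.add_le_add (hEc 2) h7)) _))
  have h9 : (((Icc 1 N).filter (fun n : ℕ => 0 < repsIn Set.univ (heavy t) n)).card : ℝ) ≤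
      (((Icc 1 N).filter (fun k : ℕ => Even k ∧
        xin n₀ 0 k ≤ 1 - (1 / 2) ^ n₀ - (t - 2 * (1 / 2) ^ n₀))).card : ℝ) +
        ((cntB Set.univ N : ℝ) + n₀ * cntB Set.univ N) := by
    exact_mod_cast h8
  have h10 : (0 : ℝ) ≤ cntB Set.univ N := Nat.cast_nonneg _
  linarith

/-- `sum_cnt`, `dens_G`, `prime_zero`. -/
theorem sum_up (n : ℕ) (t : ℝ) :
    sumDens Set.univ (heavy t) ≤ WW uG n 0 (t - 2 * (1 / 2) ^ n) / 2 := by
  classical
  have h1 := dens_G n (t - 2 * (1 / 2) ^ n)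
  have h2 : Tendsto (fun N : ℕ => ((n : ℝ) + 2) * ((cntB Set.univ N : ℝ) / N)) atTop (𝓝 0) := by
    have := prime_zero.const_mul ((n : ℝ) + 2)
    rwa [mul_zero] at this
  have h3 := h1.add h2
  rw [add_zero] at h3
  rw [← h3.liminf_eq]
  unfold sumDens
  refine liminf_le_liminf (Eventually.of_forall fun N => ?_)
    (isBoundedUnder_of ⟨0, fun N => by positivity⟩) h3.isCoboundedUnder_ge
  have h4 := sum_cnt n t N
  rcases Nat.eq_zero_or_pos N with h0 | h0
  · subst h0
    simp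
  · have h5 : (0 : ℝ) < N := by exact_mod_cast h0
    rw [← mul_div_assoc, ← add_div]
    exact div_le_div_of_nonneg_right h4 h5.le

end Pool.Agent.Lib.MP_629a14_nt.Lx
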