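import Pool.Agent.Lib.MP_629a14_nt.Lx.Low
import Pool.Agent.Lib.MP_629a14_nt.Lx.Cont
import Pool.Agent.Lib.MP_629a14_nt.Lx.UpSum
import Pool.Agent.Lib.MP_629a14_nt.Sm.LimC

/-! The main theorem. -/

set_option autoImplicit false

namespace Pool.Agent.Lib.MP_629a14_nt.Lx

open Finset Filter Topology Pool.Agent.Lib.MP_629a14_nt Pool.Agent.Lib.MP_629a14_nt.Rob
  Pool.Agent.Lib.MP_629a14_nt.Sm

private theorem Main_anti (c c' : ℝ) (h : c' ≤ c) (A B : Set ℕ) : rich c A B ≤ rich c' A B := by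
  classical
  unfold rich
  refine liminf_le_liminf ?_ ?_ ?_
  · refine Eventually.of_forall fun N => ?_
    refine div_le_div_of_nonneg_right ?_ (Nat.cast_nonneg N)
    refine Nat.cast_le.2 (card_le_card fun n hn => ?_)
    rw [mem_filter] at hn ⊢
    exact ⟨hn.1, hn.2.1, le_trans (mul_le_mul_of_nonneg_right h (by positivity)) hn.2.2⟩
  · exact isBoundedUnder_of ⟨0, fun N => by positivity⟩
  · have hb : IsBoundedUnder (· ≤ ·) atTop (fun N : ℕ => (((Icc 1 N).filter (fun n : ℕ => Even n ∧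
        c' * ((n : ℝ) ^ 2 / ((n.totient : ℝ) * Real.log n ^ 2)) ≤
          (repsIn A B n : ℝ))).card : ℝ) / N) := by
      refine isBoundedUnder_of ⟨1, fun N => ?_⟩
      refine div_le_one_of_le₀ ?_ (Nat.cast_nonneg N)
      have h1 := card_filter_le (Icc 1 N) (fun n : ℕ => Even n ∧
        c' * ((n : ℝ) ^ 2 / ((n.totient : ℝ) * Real.log n ^ 2)) ≤ (repsIn A B n : ℝ))
      rw [Nat.card_Icc, Nat.add_sub_cancel] at h1
      exact_mod_cast h1
    exact hb.isCoboundedUnder_ge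

/-- `sum_up`, `WW_gap` (twice), `light_low`, `kapG`. -/
theorem sum_le_light (t : ℝ) : sumDens Set.univ (heavy t) ≤ dlow (light t) := by
  have hu : ∀ j, 0 ≤ uG j ∧ uG j ≤ 1 := fun j => by
    have := uG_range j
    exact ⟨by linarith [this.1], this.2.le⟩
  have hlim : Tendsto (fun n => dlow (light t) +
      ∏ i ∈ range n, max (uG (0 + i)) (1 - uG (0 + i))) atTop (𝓝 (dlow (light t) + 0)) :=
    kapG.const_add _
  rw [add_zero] at hlim
  refine ge_of_tendsto hlim (Eventually.of_forall fun n => ?_)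
  have h1 := sum_up n t
  have h2 := WW_gap uG hu n 0 t
  have h3 := WW_gap uG hu n 0 (t - (1 / 2) ^ n)
  have h4 := light_low n t
  have h5 : t - (1 / 2) ^ n - (1 / 2) ^ n = t - 2 * (1 / 2) ^ n := by ring
  rw [h5] at h3
  linarith

/-- The main theorem. `t` from `exists_t`; the last part from `low` with `t'` from `light_cont`; the lower
bounds for the infima with `A` of relative density at least `1` (`rich_le_sumDens`); the upper bounds from
the pair `Set.univ`, `heavy t` (`relLow_univ`, `sum_le_light`). Compare `exact` in `Sm/Exact.lean`. -/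
theorem main (β : ℝ) (h0 : 0 < β) (h1 : β ≤ 1) : ∃ t : ℝ, 0 ≤ t ∧ t < 1 ∧
    relLow (heavy t) = β ∧
    sumDens Set.univ (heavy t) = dlow (light t) ∧
    leastSum 1 β = dlow (light t) ∧
    Tendsto (fun c : ℝ => least c 1 β) (𝓝[>] 0) (𝓝 (dlow (light t))) ∧
    ∀ ε : ℝ, 0 < ε → ∃ c : ℝ, 0 < c ∧ ∃ ρ : ℝ, 0 < ρ ∧ ∀ A B : Set ℕ,
      1 - ρ ≤ relLow A → β ≤ relLow B → dlow (light t) - ε ≤ rich c A B := by
  obtain ⟨t, ht0, ht1, hrel, hgt⟩ := exists_t β h0 h1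
  have hlast : ∀ ε : ℝ, 0 < ε → ∃ c : ℝ, 0 < c ∧ ∃ ρ : ℝ, 0 < ρ ∧ ∀ A B : Set ℕ,
      1 - ρ ≤ relLow A → β ≤ relLow B → dlow (light t) - ε ≤ rich c A B := by
    intro ε hε
    obtain ⟨t', ht', hl⟩ := light_cont t (ε / 2) (by positivity)
    obtain ⟨c, hc, ρ, hρ, h⟩ := low t' β (ε / 2) (hgt t' ht') (by positivity)
    refine ⟨c, hc, ρ, hρ, fun A B hA hB => ?_⟩
    have := h A B hA hB
    linarith
  have hlow : ∀ ε : ℝ, 0 < ε → ∃ c : ℝ, 0 < c ∧ ∀ A B : Set ℕ,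
      1 ≤ relLow A → β ≤ relLow B → dlow (light t) - ε ≤ rich c A B := by
    intro ε hε
    obtain ⟨c, hc, ρ, hρ, h⟩ := hlast ε hε
    exact ⟨c, hc, fun A B hA hB => h A B (by linarith) hB⟩
  have hA : (1 : ℝ) ≤ relLow Set.univ := relLow_univ.ge
  have hB : β ≤ relLow (heavy t) := hrel.ge
  have hS := sum_le_light t
  have hsum : sumDens Set.univ (heavy t) = dlow (light t) := by
    refine le_antisymm hS (le_of_forall_pos_sub_le fun ε hε => ?_)
    obtain ⟨c, hc, h⟩ := hlow ε hε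
    exact (h _ _ hA hB).trans (rich_le_sumDens c hc _ _)
  refine ⟨t, ht0, ht1, hrel, hsum, ?_, ?_, hlast⟩
  · have hlb : ∀ d ∈ {d : ℝ | ∃ A B : Set ℕ, 1 ≤ relLow A ∧ β ≤ relLow B ∧ d = sumDens A B},
        dlow (light t) ≤ d := by
      rintro d ⟨A, B, h2, h3, rfl⟩
      refine le_of_forall_pos_sub_le fun ε hε => ?_
      obtain ⟨c, hc, h⟩ := hlow ε hε
      exact (h A B h2 h3).trans (rich_le_sumDens c hc A B)
    have hmemb : sumDens Set.univ (heavy t) ∈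
        {d : ℝ | ∃ A B : Set ℕ, 1 ≤ relLow A ∧ β ≤ relLow B ∧ d = sumDens A B} :=
      ⟨_, _, hA, hB, rfl⟩
    exact le_antisymm ((csInf_le ⟨_, hlb⟩ hmemb).trans hS) (le_csInf ⟨_, hmemb⟩ hlb)
  · rw [Metric.tendsto_nhds]
    intro ε hε
    obtain ⟨c, hc, h⟩ := hlow (ε / 2) (by positivity)
    have hmem : ∀ᶠ c' : ℝ in 𝓝[>] 0, c' ∈ Set.Ioc (0 : ℝ) c :=
      Ioc_mem_nhdsGT hc
    filter_upwards [hmem] with c' hc'
    have hlb : ∀ d ∈ {d : ℝ | ∃ A B : Set ℕ, 1 ≤ relLow A ∧ β ≤ relLow B ∧ d = rich c' A B},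
        dlow (light t) - ε / 2 ≤ d := by
      rintro d ⟨A, B, h2, h3, rfl⟩
      exact (h A B h2 h3).trans (Main_anti c c' hc'.2 A B)
    have hmemb : rich c' Set.univ (heavy t) ∈
        {d : ℝ | ∃ A B : Set ℕ, 1 ≤ relLow A ∧ β ≤ relLow B ∧ d = rich c' A B} :=
      ⟨_, _, hA, hB, rfl⟩
    have h2 : dlow (light t) - ε / 2 ≤ least c' 1 β := le_csInf ⟨_, hmemb⟩ hlb
    have h3 : least c' 1 β ≤ dlow (light t) :=
      (csInf_le ⟨_, hlb⟩ hmemb).trans ((rich_le_sumDens c' hc'.1 _ _).trans hS)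
    rw [Real.dist_eq, abs_lt]
    constructor <;> linarith

end Pool.Agent.Lib.MP_629a14_nt.Lx
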